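import Pool.Agent.Lib.MP_1dedaf_gt.DK.EP.SY3
import Pool.Agent.Lib.MP_1dedaf_gt.DK.A0
import Pool.Agent.Lib.MP_1dedaf_gt.Mg.G003
import Pool.Agent.Lib.MP_1dedaf_gt.Mg.G026

/-!
# The two views of a body (campaign EP, SY4): the two views have the same mass, pivots and kernel

The identities of SY2 are summed over the eight arcs of the boundary (SY3).
-/

set_option autoImplicit false

open MeasureTheory Set Filter Topology

namespace Pool.Agent.Lib.MP_1dedaf_gt.DK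

private theorem SY4_ii {f : ℝ → ℝ} (cf : Continuous f) (a b : ℝ) : IntervalIntegrable f volume a b :=
  cf.intervalIntegrable a b

private theorem SY4_three {F : ℝ → ℝ} (cF : Continuous F) (a b c d : ℝ) :
    (∫ x in a..b, F x) + (∫ x in b..c, F x) + (∫ x in c..d, F x) = ∫ x in a..d, F x := by
  rw [intervalIntegral.integral_add_adjacent_intervals (SY4_ii cF _ _) (SY4_ii cF _ _),
    intervalIntegral.integral_add_adjacent_intervals (SY4_ii cF _ _) (SY4_ii cF _ _)]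

private theorem SY4_N (K : Dat) (cl : Continuous K.l) (cu : Continuous K.u) (i : ℕ) :
    K.N i = (∫ x in (0:ℝ)..K.w, K.Xl x ^ i / K.rl x) - ∫ x in (0:ℝ)..K.w, K.Xu x ^ i / K.ru x := by
  unfold Dat.N
  rw [intervalIntegral.integral_sub]
  · exact SY4_ii (((K.Xl_cont cl).pow i).div (K.rl_cont cl) fun x => (K.rl_pos x).ne') _ _
  · exact SY4_ii (((K.Xu_cont cl cu).pow i).div (K.ru_cont cu) fun x => (K.ru_pos x).ne') _ _

private theorem SY4_P (K : Dat) (cl : Continuous K.l) (cu : Continuous K.u) :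
    (∫ x in (0:ℝ)..K.w, K.Xl x) - (∫ x in (0:ℝ)..K.w, K.Xu x) = K.q * K.xb := by
  rw [← intervalIntegral.integral_sub (SY4_ii (K.Xl_cont cl) _ _) (SY4_ii (K.Xu_cont cl cu) _ _), Dat.xb_eq K cl cu,
    ← intervalIntegral.integral_const_mul]
  refine intervalIntegral.integral_congr fun x _ => ?_
  show K.Xl x - K.Xu x = K.q * K.mr x
  unfold Dat.Xu
  ring

private theorem SY4_Xi (K : Dat) (cl : Continuous K.l) (z : ℝ) :
    K.Xi z = K.a * (∫ t in (0:ℝ)..z, 1 / K.rl t) - ∫ t in (0:ℝ)..z, K.Xl t / K.rl t := by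
  unfold Dat.Xi
  rw [← intervalIntegral.integral_const_mul, ← intervalIntegral.integral_sub]
  · refine intervalIntegral.integral_congr fun x _ => ?_
    show (K.a - K.Xl x) / K.rl x = K.a * (1 / K.rl x) - K.Xl x / K.rl x
    ring
  · exact SY4_ii (continuous_const.mul (continuous_const.div (K.rl_cont cl) fun x => (K.rl_pos x).ne')) _ _
  · exact SY4_ii ((K.Xl_cont cl).div (K.rl_cont cl) fun x => (K.rl_pos x).ne') _ _

variable {K : Bd}

theorem Bd.Ok.reg (h : K.Ok) : K.col.Reg := ⟨h.hq, h.hw, h.cl, h.cu, h.lu, h.fat⟩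

theorem Bd.Ok.reg' (h : K.Ok) : K.row.Reg := h.swp.reg

/-- The sums over the boundary. `c` is the constant of the near arc. -/
theorem Bd.Ok.sums (h : K.Ok) : ∃ c : ℝ, K.col.M = K.row.M ∧ K.col.N 0 / K.q = K.row.N 0 / K.p ∧
    Real.exp (K.q * K.l 0) = K.q * K.row.Xl (K.l 0) + c ∧
    Real.exp (K.p * K.g 0) = K.p * K.col.Xl (K.g 0) + c ∧
    K.p ^ 2 * K.col.N 1 + K.q ^ 2 * K.row.N 1 + K.q * c * K.row.N 0 =
      K.p * K.q * K.col.M * (1 / Real.exp (K.p * K.g 0) + K.p * (∫ x in (0:ℝ)..K.g 0, 1 / K.col.rl x) - K.q * K.row.N 0) ∧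
    K.p ^ 2 * K.q * (K.col.M * K.g 0 - 2 * K.col.xb - K.col.M * K.col.Xl (K.g 0) / Real.exp (K.p * K.g 0) -
        K.p * K.col.M * (∫ x in (0:ℝ)..K.g 0, K.col.Xl x / K.col.rl x)) + K.p ^ 3 * K.col.N 2 +
        K.p ^ 2 * (c + K.p * K.q * K.col.M) * K.col.N 1 =
      K.p * K.q ^ 2 * (K.row.M * K.l 0 - 2 * K.row.xb - K.row.M * K.row.Xl (K.l 0) / Real.exp (K.q * K.l 0) -
        K.q * K.row.M * (∫ y in (0:ℝ)..K.l 0, K.row.Xl y / K.row.rl y)) + K.q ^ 3 * K.row.N 2 +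
        K.q ^ 2 * (c + K.p * K.q * K.row.M) * K.row.N 1 := by
  obtain ⟨a1, a2, a3, a4, a5, a6, a7, a8⟩ := h.arcs
  have hp := h.hp
  have hq := h.hq
  have cl := h.cl
  have cu := h.cu
  have cg := h.cg
  have cr := h.cr
  have hdl : ∀ x, K.col.rl x = Real.exp (K.p * x + K.q * K.l x) := fun x => rfl
  have hdu : ∀ x, K.col.ru x = Real.exp (K.p * x + K.q * K.u x) := fun x => rfl
  have hdg : ∀ y, K.row.rl y = Real.exp (K.p * K.g y + K.q * y) := fun y => by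
    show Real.exp (K.q * y + K.p * K.g y) = _
    rw [add_comm]
  have hdr : ∀ y, K.row.ru y = Real.exp (K.p * K.r y + K.q * y) := fun y => by
    show Real.exp (K.q * y + K.p * K.r y) = _
    rw [add_comm]
  have hXl := K.col.Xl_deriv cl
  have hXu := K.col.Xu_deriv hq cl cu
  have hYl := K.row.Xl_deriv cg
  have hYu := K.row.Xu_deriv hp cg cr
  have X0 : K.col.Xl 0 = 0 := K.col.Xl_zero
  have Y0 : K.row.Xl 0 = 0 := K.row.Xl_zero
  have Xu0 : K.col.Xu 0 = - (K.q * K.col.M) := K.col.Xu_zero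
  have Yu0 : K.row.Xu 0 = - (K.p * K.row.M) := K.row.Xu_zero
  have Xw : K.col.Xu K.w = K.col.Xl K.w := K.col.Xu_w
  have Yw : K.row.Xu K.h = K.row.Xl K.h := K.row.Xu_w
  obtain ⟨c, hc⟩ : ∃ c, c = Real.exp (K.p * 0 + K.q * K.l 0) - K.q * K.row.Xl (K.l 0) := ⟨_, rfl⟩
  have i1 := a1.ids' hp hq hdl hdg hXl hYl (c := c) (by rw [X0, hc]; ring)
  have i2 := a2.ids' hp hq hdl hdg hXl hYl (c := c) i1.1
  have i3 := a3.ids' hp hq hdl hdr hXl hYu (c := c + K.p * K.q * K.row.M) (by rw [i2.1, Y0, Yu0]; ring)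
  have i4 := a4.ids' hp hq hdl hdr hXl hYu (c := c + K.p * K.q * K.row.M) i3.1
  have i5 := a5.ids' hp hq hdu hdr hXu hYu (c := c + K.p * K.q * K.row.M) (by rw [i4.1, Xw])
  have i6 := a6.ids' hp hq hdu hdr hXu hYu (c := c + K.p * K.q * K.row.M) i5.1
  have i7 := a7.ids' hp hq hdu hdg hXu hYl (c := c + K.p * K.q * K.row.M) (by rw [i6.1, Yw])
  have i8 := a8.ids' hp hq hdl hdg hXl hYl (c := c + K.p * K.q * K.row.M - K.p * K.q * K.col.M) (by rw [i7.1, Xu0, X0]; ring)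
  -- equal masses
  have hM : K.row.M = K.col.M := by
    have h1 := i8.1
    rw [X0] at h1
    have h2 : K.p * K.q * (K.row.M - K.col.M) = 0 := by linear_combination -h1 - hc
    rcases mul_eq_zero.1 h2 with h3 | h3
    · exact absurd h3 (mul_ne_zero hp hq)
    · linarith
  rw [hM] at i3 i4 i5 i6 i7 i8 Yu0
  have e8 : c + K.p * K.q * K.col.M - K.p * K.q * K.col.M = c := by ring
  rw [e8] at i8
  have r7 := i7.1
  have i1z := i1.1
  obtain ⟨-, i10, i11, i12⟩ := i1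
  obtain ⟨-, i20, i21, i22⟩ := i2
  obtain ⟨-, i30, i31, i32⟩ := i3
  obtain ⟨-, i40, i41, i42⟩ := i4
  obtain ⟨-, i50, i51, i52⟩ := i5
  obtain ⟨-, i60, i61, i62⟩ := i6
  obtain ⟨-, i70, i71, i72⟩ := i7
  obtain ⟨-, i80, i81, i82⟩ := i8
  -- splitting of the integrals
  have prl : ∀ x, K.col.rl x ≠ 0 := fun x => (K.col.rl_pos x).ne'
  have pru : ∀ x, K.col.ru x ≠ 0 := fun x => (K.col.ru_pos x).ne'
  have qrl : ∀ x, K.row.rl x ≠ 0 := fun x => (K.row.rl_pos x).ne'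
  have qru : ∀ x, K.row.ru x ≠ 0 := fun x => (K.row.ru_pos x).ne'
  have crl := K.col.rl_cont cl
  have cru := K.col.ru_cont cu
  have drl := K.row.rl_cont cg
  have dru := K.row.ru_cont cr
  have cXl := K.col.Xl_cont cl
  have cXu := K.col.Xu_cont cl cu
  have cYl := K.row.Xl_cont cg
  have cYu := K.row.Xu_cont cg cr
  have l0 : (∫ x in (0:ℝ)..(K.g 0), 1 / K.col.rl x) + (∫ x in (K.g 0)..(K.r 0), 1 / K.col.rl x) + (∫ x in (K.r 0)..(K.w), 1 / K.col.rl x) = ∫ x in (0:ℝ)..(K.w), 1 / K.col.rl x :=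
    SY4_three (continuous_const.div crl prl) _ _ _ _
  have l1 : (∫ x in (0:ℝ)..(K.g 0), K.col.Xl x / K.col.rl x) + (∫ x in (K.g 0)..(K.r 0), K.col.Xl x / K.col.rl x) + (∫ x in (K.r 0)..(K.w), K.col.Xl x / K.col.rl x) = ∫ x in (0:ℝ)..(K.w), K.col.Xl x / K.col.rl x :=
    SY4_three (cXl.div crl prl) _ _ _ _
  have l2 : (∫ x in (0:ℝ)..(K.g 0), K.col.Xl x ^ 2 / K.col.rl x) + (∫ x in (K.g 0)..(K.r 0), K.col.Xl x ^ 2 / K.col.rl x) + (∫ x in (K.r 0)..(K.w), K.col.Xl x ^ 2 / K.col.rl x) = ∫ x in (0:ℝ)..(K.w), K.col.Xl x ^ 2 / K.col.rl x :=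
    SY4_three ((cXl.pow 2).div crl prl) _ _ _ _
  have l3 : (∫ x in (0:ℝ)..(K.g 0), K.col.Xl x) + (∫ x in (K.g 0)..(K.r 0), K.col.Xl x) + (∫ x in (K.r 0)..(K.w), K.col.Xl x) = ∫ x in (0:ℝ)..(K.w), K.col.Xl x :=
    SY4_three (cXl) _ _ _ _
  have u0 : (∫ x in (K.w)..(K.r K.h), 1 / K.col.ru x) + (∫ x in (K.r K.h)..(K.g K.h), 1 / K.col.ru x) + (∫ x in (K.g K.h)..(0:ℝ), 1 / K.col.ru x) = ∫ x in (K.w)..(0:ℝ), 1 / K.col.ru x :=
    SY4_three (continuous_const.div cru pru) _ _ _ _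
  have u1 : (∫ x in (K.w)..(K.r K.h), K.col.Xu x / K.col.ru x) + (∫ x in (K.r K.h)..(K.g K.h), K.col.Xu x / K.col.ru x) + (∫ x in (K.g K.h)..(0:ℝ), K.col.Xu x / K.col.ru x) = ∫ x in (K.w)..(0:ℝ), K.col.Xu x / K.col.ru x :=
    SY4_three (cXu.div cru pru) _ _ _ _
  have u2 : (∫ x in (K.w)..(K.r K.h), K.col.Xu x ^ 2 / K.col.ru x) + (∫ x in (K.r K.h)..(K.g K.h), K.col.Xu x ^ 2 / K.col.ru x) + (∫ x in (K.g K.h)..(0:ℝ), K.col.Xu x ^ 2 / K.col.ru x) = ∫ x in (K.w)..(0:ℝ), K.col.Xu x ^ 2 / K.col.ru x :=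
    SY4_three ((cXu.pow 2).div cru pru) _ _ _ _
  have u3 : (∫ x in (K.w)..(K.r K.h), K.col.Xu x) + (∫ x in (K.r K.h)..(K.g K.h), K.col.Xu x) + (∫ x in (K.g K.h)..(0:ℝ), K.col.Xu x) = ∫ x in (K.w)..(0:ℝ), K.col.Xu x :=
    SY4_three (cXu) _ _ _ _
  have g0 : (∫ x in (K.h)..(K.u 0), 1 / K.row.rl x) + (∫ x in (K.u 0)..(K.l 0), 1 / K.row.rl x) + (∫ x in (K.l 0)..(0:ℝ), 1 / K.row.rl x) = ∫ x in (K.h)..(0:ℝ), 1 / K.row.rl x :=
    SY4_three (continuous_const.div drl qrl) _ _ _ _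
  have g1 : (∫ x in (K.h)..(K.u 0), K.row.Xl x / K.row.rl x) + (∫ x in (K.u 0)..(K.l 0), K.row.Xl x / K.row.rl x) + (∫ x in (K.l 0)..(0:ℝ), K.row.Xl x / K.row.rl x) = ∫ x in (K.h)..(0:ℝ), K.row.Xl x / K.row.rl x :=
    SY4_three (cYl.div drl qrl) _ _ _ _
  have g2 : (∫ x in (K.h)..(K.u 0), K.row.Xl x ^ 2 / K.row.rl x) + (∫ x in (K.u 0)..(K.l 0), K.row.Xl x ^ 2 / K.row.rl x) + (∫ x in (K.l 0)..(0:ℝ), K.row.Xl x ^ 2 / K.row.rl x) = ∫ x in (K.h)..(0:ℝ), K.row.Xl x ^ 2 / K.row.rl x :=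
    SY4_three ((cYl.pow 2).div drl qrl) _ _ _ _
  have g3 : (∫ x in (K.h)..(K.u 0), K.row.Xl x) + (∫ x in (K.u 0)..(K.l 0), K.row.Xl x) + (∫ x in (K.l 0)..(0:ℝ), K.row.Xl x) = ∫ x in (K.h)..(0:ℝ), K.row.Xl x :=
    SY4_three (cYl) _ _ _ _
  have r0 : (∫ x in (0:ℝ)..(K.l K.w), 1 / K.row.ru x) + (∫ x in (K.l K.w)..(K.u K.w), 1 / K.row.ru x) + (∫ x in (K.u K.w)..(K.h), 1 / K.row.ru x) = ∫ x in (0:ℝ)..(K.h), 1 / K.row.ru x :=
    SY4_three (continuous_const.div dru qru) _ _ _ _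
  have r1 : (∫ x in (0:ℝ)..(K.l K.w), K.row.Xu x / K.row.ru x) + (∫ x in (K.l K.w)..(K.u K.w), K.row.Xu x / K.row.ru x) + (∫ x in (K.u K.w)..(K.h), K.row.Xu x / K.row.ru x) = ∫ x in (0:ℝ)..(K.h), K.row.Xu x / K.row.ru x :=
    SY4_three (cYu.div dru qru) _ _ _ _
  have r2 : (∫ x in (0:ℝ)..(K.l K.w), K.row.Xu x ^ 2 / K.row.ru x) + (∫ x in (K.l K.w)..(K.u K.w), K.row.Xu x ^ 2 / K.row.ru x) + (∫ x in (K.u K.w)..(K.h), K.row.Xu x ^ 2 / K.row.ru x) = ∫ x in (0:ℝ)..(K.h), K.row.Xu x ^ 2 / K.row.ru x :=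
    SY4_three ((cYu.pow 2).div dru qru) _ _ _ _
  have r3 : (∫ x in (0:ℝ)..(K.l K.w), K.row.Xu x) + (∫ x in (K.l K.w)..(K.u K.w), K.row.Xu x) + (∫ x in (K.u K.w)..(K.h), K.row.Xu x) = ∫ x in (0:ℝ)..(K.h), K.row.Xu x :=
    SY4_three (cYu) _ _ _ _
  have s0 := intervalIntegral.integral_symm (μ := volume) (f := fun x => 1 / K.col.ru x) 0 K.w
  have s1 := intervalIntegral.integral_symm (μ := volume) (f := fun x => K.col.Xu x / K.col.ru x) 0 K.w
  have s2 := intervalIntegral.integral_symm (μ := volume) (f := fun x => K.col.Xu x ^ 2 / K.col.ru x) 0 K.w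
  have s3 := intervalIntegral.integral_symm (μ := volume) (f := fun x => K.col.Xu x) 0 K.w
  have t0 := intervalIntegral.integral_symm (μ := volume) (f := fun x => 1 / K.row.rl x) 0 K.h
  have t1 := intervalIntegral.integral_symm (μ := volume) (f := fun x => K.row.Xl x / K.row.rl x) 0 K.h
  have t2 := intervalIntegral.integral_symm (μ := volume) (f := fun x => K.row.Xl x ^ 2 / K.row.rl x) 0 K.h
  have t3 := intervalIntegral.integral_symm (μ := volume) (f := fun x => K.row.Xl x) 0 K.h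
  have v1 := intervalIntegral.integral_symm (μ := volume) (f := fun x => K.row.Xl x / K.row.rl x) 0 (K.l 0)
  have n0 := SY4_N K.col cl cu 0
  have n1 := SY4_N K.col cl cu 1
  have n2 := SY4_N K.col cl cu 2
  have n3 := SY4_P K.col cl cu
  have m0 := SY4_N K.row cg cr 0
  have m1 := SY4_N K.row cg cr 1
  have m2 := SY4_N K.row cg cr 2
  have m3 := SY4_P K.row cg cr
  simp only [pow_zero, pow_one] at n0 n1 m0 m1
  have eqw : K.col.w = K.w := rfl
  have eqh : K.row.w = K.h := rfl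
  have eqq : K.col.q = K.q := rfl
  have eqp : K.row.q = K.p := rfl
  rw [eqw] at n0 n1 n2 n3
  rw [eqh] at m0 m1 m2 m3
  rw [eqq] at n3
  rw [eqp] at m3
  simp only [intervalIntegral.integral_same, X0, Y0, Xu0, Yu0, Xw, Yw, mul_zero, add_zero, zero_add, zero_mul, zero_div, sub_zero,
    zero_sub, sub_self] at i10 i11 i12 i20 i21 i22 i30 i31 i32 i40 i41 i42 i50 i51 i52 i60 i61 i62 i70 i71 i72 i80 i81 i82 r7 hc i1z
  refine ⟨c, hM.symm, ?_, ?_, ?_, ?_, ?_⟩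
  · rw [div_eq_div_iff hq hp]
    linear_combination K.p * n0 - K.q * m0 + (i10 + i20 + i30 + i40 + i50 + i60 + i70 + i80) - K.p * l0 - K.p * u0 - K.p * s0 -
      K.q * g0 - K.q * t0 - K.q * r0
  · linear_combination -hc
  · rw [i1z]
  · linear_combination (i11 + i21 + i31 + i41 + i51 + i61 + i71 + i81) - K.p * K.q * K.col.M * i80 - K.p * K.q * K.col.M * i10 +
      K.p ^ 2 * (n1 - l1 - u1 - s1) + K.q ^ 2 * (m1 + t1 + g1 + r1) + (K.q * c + K.p * K.q ^ 2 * K.col.M) * (m0 + t0 + g0 + r0)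
  · rw [hM]
    have e0 : Real.exp (K.q * K.l 0) ≠ 0 := (Real.exp_pos _).ne'
    have e1 : Real.exp (K.q * K.u 0) ≠ 0 := (Real.exp_pos _).ne'
    have hs : K.q * (K.row.Xl (K.l 0) / Real.exp (K.q * K.l 0) - K.row.Xl (K.u 0) / Real.exp (K.q * K.u 0)) =
        K.q * (K.l 0 - K.u 0) - K.q ^ 2 * ∫ y in K.u 0..K.l 0, K.row.Xl y / K.row.rl y := by
      have f0 : K.q * (K.row.Xl (K.l 0) / Real.exp (K.q * K.l 0)) = 1 - c * (1 / Real.exp (K.q * K.l 0)) := by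
        rw [hc]
        field_simp
        ring
      have f1 : K.q * (K.row.Xl (K.u 0) / Real.exp (K.q * K.u 0)) = 1 - c * (1 / Real.exp (K.q * K.u 0)) := by
        have : K.q * K.row.Xl (K.u 0) = Real.exp (K.q * K.u 0) - c := by linear_combination -r7
        rw [← mul_div_assoc, this]
        field_simp
      linear_combination f0 - f1 - c * i80 - i81
    linear_combination (-1 : ℝ) * (i12 + i22 + i32 + i42 + i52 + i62 + i72 + i82) + K.p * K.q * K.col.M * i21 +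
      K.p * K.q * K.col.M * hs + K.p ^ 3 * (n2 - l2 - u2 - s2) - K.q ^ 3 * (m2 + t2 + g2 + r2) +
      2 * K.p ^ 2 * (l3 + u3 + s3 + n3) + 2 * K.q ^ 2 * (g3 + t3 + r3 - m3) +
      K.p ^ 2 * (c + K.p * K.q * K.col.M) * (n1 - l1 - u1 - s1) - K.q ^ 2 * (c + K.p * K.q * K.col.M) * (m1 + t1 + g1 + r1) +
      K.p * K.q ^ 3 * K.col.M * v1

/-- The form of the kernel in one view. -/
private theorem SY4_j (K : Dat) (h : K.Reg) (z r : ℝ) (hr : K.rl z = r) :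
    K.q ^ 2 * K.M * K.j z 0 = K.q * (K.M * z - 2 * K.xb - K.M * K.Xl z / r - K.p * K.M * ∫ x in (0:ℝ)..z, K.Xl x / K.rl x) +
      K.p * K.N 2 + K.q * K.a * K.M * (1 / r + K.p * ∫ x in (0:ℝ)..z, 1 / K.rl x) - K.p * K.a * K.N 1 := by
  have hq := h.hq
  have hM := (Dat.M_pos K h).ne'
  have hr0 : r ≠ 0 := by rw [← hr]; exact (K.rl_pos z).ne'
  unfold Dat.j Dat.Phi Dat.psi Dat.V
  rw [SY4_Xi K h.cl z, hr]
  field_simp
  ring

/-- The pivot relation and the symmetry. -/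
theorem Bd.Ok.two_views (h : K.Ok) : K.col.M = K.row.M ∧ K.col.D = K.row.D ∧
    K.col.et (K.g 0) = K.row.a - K.row.Xl (K.l 0) ∧ K.row.et (K.l 0) = K.col.a - K.col.Xl (K.g 0) ∧
    K.col.j (K.g 0) 0 = K.row.j (K.l 0) 0 := by
  have hp := h.hp
  have hq := h.hq
  have hc := h.reg
  have hr := h.reg'
  have lz : K.l (K.g 0) = 0 := (h.l_zero h.z_mem.1).2 ⟨le_rfl, h.z_mem.2.2⟩
  have gz : K.g (K.l 0) = 0 := (h.swp.l_zero h.swp.z_mem.1).2 ⟨le_rfl, h.swp.z_mem.2.2⟩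
  have e1 : K.col.rl (K.g 0) = Real.exp (K.p * K.g 0) := by
    show Real.exp (K.p * K.g 0 + K.q * K.l (K.g 0)) = _
    rw [lz, mul_zero, add_zero]
  have e2 : K.row.rl (K.l 0) = Real.exp (K.q * K.l 0) := by
    show Real.exp (K.q * K.l 0 + K.p * K.g (K.l 0)) = _
    rw [gz, mul_zero, add_zero]
  have e3 : K.col.rl 0 = Real.exp (K.q * K.l 0) := by
    show Real.exp (K.p * 0 + K.q * K.l 0) = _
    rw [mul_zero, zero_add]
  have e4 : K.row.rl 0 = Real.exp (K.p * K.g 0) := by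
    show Real.exp (K.q * 0 + K.p * K.g 0) = _
    rw [mul_zero, zero_add]
  obtain ⟨c, hM, hN, r1, r2, k1, k2⟩ := h.sums
  obtain ⟨c', hM', hN', r1', r2', k1', k2'⟩ := h.swp.sums
  have hcc : c' = c := by
    have r1'' : Real.exp (K.p * K.g 0) = K.p * K.col.Xl (K.g 0) + c' := r1'
    linarith
  subst hcc
  have hMc : K.col.M ≠ 0 := (Dat.M_pos K.col hc).ne'
  have hD : K.col.D = K.row.D := hN
  have hD0 : K.row.D ≠ 0 := (Dat.D_pos K.row hr).ne'
  have n0c : K.col.N 0 = K.q * K.row.D := by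
    rw [← hD]
    show K.col.N 0 = K.q * (K.col.N 0 / K.q)
    field_simp
  have n0r : K.row.N 0 = K.p * K.row.D := by
    show K.row.N 0 = K.p * (K.row.N 0 / K.p)
    field_simp
  have n1c : K.col.N 1 = K.col.a * (K.q * K.row.D) := by
    rw [← n0c]
    show K.col.N 1 = K.col.N 1 / K.col.N 0 * K.col.N 0
    have := Dat.N0_ne K.col hc
    field_simp
  have n1r : K.row.N 1 = K.row.a * (K.p * K.row.D) := by
    rw [← n0r]
    show K.row.N 1 = K.row.N 1 / K.row.N 0 * K.row.N 0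
    have := Dat.N0_ne K.row hr
    field_simp
  -- the pivot relation
  have piv : K.row.D * (K.p * K.col.a + K.q * K.row.a + c' + K.p * K.q * K.col.M) =
      K.col.M * (1 / Real.exp (K.p * K.g 0) + K.p * (∫ x in (0:ℝ)..K.g 0, 1 / K.col.rl x)) := by
    have h1 : K.p * K.q * (K.row.D * (K.p * K.col.a + K.q * K.row.a + c' + K.p * K.q * K.col.M)) =
        K.p * K.q * (K.col.M * (1 / Real.exp (K.p * K.g 0) + K.p * (∫ x in (0:ℝ)..K.g 0, 1 / K.col.rl x))) := by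
      rw [n1c, n1r, n0r] at k1
      linear_combination k1
    exact mul_left_cancel₀ (mul_ne_zero hp hq) h1
  have piv' : K.row.D * (K.p * K.col.a + K.q * K.row.a + c' + K.p * K.q * K.col.M) =
      K.col.M * (1 / Real.exp (K.q * K.l 0) + K.q * (∫ x in (0:ℝ)..K.l 0, 1 / K.row.rl x)) := by
    have h1 : K.p * K.q * (K.row.D * (K.p * K.col.a + K.q * K.row.a + c' + K.p * K.q * K.col.M)) =
        K.p * K.q * (K.col.M * (1 / Real.exp (K.q * K.l 0) + K.q * (∫ x in (0:ℝ)..K.l 0, 1 / K.row.rl x))) := by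
      have k : K.q ^ 2 * K.row.N 1 + K.p ^ 2 * K.col.N 1 + K.p * c' * K.col.N 0 =
        K.q * K.p * K.row.M * (1 / Real.exp (K.q * K.l 0) + K.q * (∫ x in (0:ℝ)..K.l 0, 1 / K.row.rl x) - K.p * K.col.N 0) := k1'
      rw [n1c, n1r, n0c, ← hM] at k
      linear_combination k
    exact mul_left_cancel₀ (mul_ne_zero hp hq) h1
  refine ⟨hM, hD, ?_, ?_, ?_⟩
  · unfold Dat.et
    rw [e1, e3, hD]
    have hq' : K.col.q = K.q := rfl
    have hp' : K.col.p = K.p := rfl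
    rw [hq', hp', div_eq_iff hq]
    have h1 : K.col.M / K.row.D * (1 / Real.exp (K.p * K.g 0) + K.p * ∫ (t : ℝ) in 0..K.g 0, 1 / K.col.rl t) =
        K.p * K.col.a + K.q * K.row.a + c' + K.p * K.q * K.col.M := by
      rw [div_mul_eq_mul_div, div_eq_iff hD0, ← piv]
      ring
    rw [h1]
    linear_combination -r1
  · unfold Dat.et
    rw [e2, e4, ← hM]
    have hq' : K.row.q = K.p := rfl
    have hp' : K.row.p = K.q := rfl
    rw [hq', hp', div_eq_iff hp]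
    have h1 : K.col.M / K.row.D * (1 / Real.exp (K.q * K.l 0) + K.q * ∫ (t : ℝ) in 0..K.l 0, 1 / K.row.rl t) =
        K.p * K.col.a + K.q * K.row.a + c' + K.p * K.q * K.col.M := by
      rw [div_mul_eq_mul_div, div_eq_iff hD0, ← piv']
      ring
    rw [h1]
    linear_combination -r2
  · have j1 := SY4_j K.col hc (K.g 0) _ e1
    have j2 := SY4_j K.row hr (K.l 0) _ e2
    have hq' : K.col.q = K.q := rfl
    have hp' : K.col.p = K.p := rfl
    have hq'' : K.row.q = K.p := rfl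
    have hp'' : K.row.p = K.q := rfl
    rw [hq', hp'] at j1
    rw [hq'', hp''] at j2
    have key : (K.p ^ 2 * K.q ^ 2 * K.col.M) * K.col.j (K.g 0) 0 = (K.p ^ 2 * K.q ^ 2 * K.col.M) * K.row.j (K.l 0) 0 := by
      rw [← hM] at j2 k2
      rw [n1c] at j1 k2
      rw [n1r] at j2 k2
      linear_combination K.p ^ 2 * j1 - K.q ^ 2 * j2 + k2 - K.p ^ 2 * K.q * K.col.a * piv + K.p * K.q ^ 2 * K.row.a * piv'
    exact mul_left_cancel₀ (mul_ne_zero (mul_ne_zero (pow_ne_zero 2 hp) (pow_ne_zero 2 hq)) hMc) key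

/-- The kernel of the two sides on the axes does not depend on the view. -/
theorem j_symm_near (K : Bd) (h : K.Ok) : K.col.j (K.g 0) 0 = K.row.j (K.l 0) 0 := h.two_views.2.2.2.2

/-- The pivot of the side on `y = 0`. -/
theorem et_symm_near (K : Bd) (h : K.Ok) : K.col.et (K.g 0) = K.row.a - K.row.Xl (K.l 0) := h.two_views.2.2.1

end Pool.Agent.Lib.MP_1dedaf_gt.DK
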