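import Pool.Agent.Lib.MP_1dedaf_gt.Mg.G037
import Pool.Agent.Lib.MP_1dedaf_gt.Mg.G042
import Pool.Agent.Lib.MP_1dedaf_gt.Mg.G033
import Pool.Agent.Lib.MP_1dedaf_gt.DK.TM.Fin

/-!
# The kernel inequality
-/

set_option autoImplicit false

open MeasureTheory Set Filter Topology Pool.Agent.Lib.MP_1dedaf_gt.LB

namespace Pool.Agent.Lib.MP_1dedaf_gt.DK

theorem eso : ESO := fun k hP K h T z kt hT hA hj => es_oth k hP K h T z kt hT hA hj

/-- **The kernel inequality for polygons.** -/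
theorem ker : Ker := ker_of_pos (posK_all (cf_pos term) eso)

end Pool.Agent.Lib.MP_1dedaf_gt.DK
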