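import Pool.Agent.Lib.MP_1dedaf_gt.Mg.G027
import Pool.Agent.Lib.MP_1dedaf_gt.DK.A0
import Pool.Agent.Lib.MP_1dedaf_gt.Mg.G003
import Pool.Agent.Lib.MP_1dedaf_gt.Mg.G019
import Pool.Agent.Lib.MP_1dedaf_gt.Mg.G006
import Pool.Agent.Lib.MP_1dedaf_gt.DK.N0
import Pool.Agent.Lib.MP_1dedaf_gt.Mg.G028
import Pool.Agent.Lib.MP_1dedaf_gt.DK.OP.Glue

/-!
# TASK EP CA1: basic facts

`j_aff`: `j_const` (B8). `es_of_phi`: `Phi` has the derivative `- (a - Xl x)/rl x` (`Phi = psi - Xi`, `Xi' = (a - Xl)/rl`); if `a ≤ Xl z`, then `a ≤ Xl x` on `[z, w]` (`Xl` is increasing), so `Phi` is nondecreasing there and `Phi w ≥ Phi z > 0`, contradiction to `opp_gen` (OP/Glue): `Phi w ≤ 0`.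
`phi_le`: the same monotonicity: `Phi z ≤ Phi w ≤ 0`. `posK_zero`: `T = ∅`, so `l x = l z + kt (x - z)` on `[0, z]`, in particular `l 0 = l z - kt z` and `l 0 + kt x ≤ l x` on `[0, w]` (`sup`); `j z kt = j 0 kt` (`j_aff`). If `p + q kt ≠ 0`: `j0_nonneg` (NA/B5). If `p + q kt = 0`:
for `k' < kt` the line of slope `k'` through `(0, l 0)` is below, `p + q k' ≠ 0`, so `0 ≤ j 0 k' = j 0 kt - (k' - kt) Phi 0` (`j_step`, N0); let `k' → kt` (e.g. if `j 0 kt < 0` choose `k' = kt - δ` with `δ |Phi 0| < - j 0 kt`).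
-/

set_option autoImplicit false

open MeasureTheory Set Filter Topology

namespace Pool.Agent.Lib.MP_1dedaf_gt.DK

theorem j_aff (K : Dat) (h : K.Reg) {x0 x1 k : ℝ} (h01 : x0 ≤ x1) (hl : ∀ x ∈ Icc x0 x1, K.l x = K.l x0 + k * (x - x0)) :
    K.j x1 k = K.j x0 k := by
  refine j_const K h k (K.l x0 - k * x0) x0 x1 h01 fun x hx => ?_
  rw [hl x hx]
  ring

private theorem CA1_mono (K : Dat) (h : K.Reg) {z : ℝ} (h3 : K.a ≤ K.Xl z) : MonotoneOn K.Phi (Ici z) := by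
  have cr := K.rl_cont h.cl
  have cX := K.Xl_cont h.cl
  have cF : Continuous (fun t : ℝ => (K.a - K.Xl t) / K.rl t) :=
    (continuous_const.sub cX).div cr fun t => (K.rl_pos t).ne'
  have hd : ∀ x : ℝ, HasDerivAt K.Phi (0 - (K.a - K.Xl x) / K.rl x) x := by
    intro x
    have h1 : HasDerivAt K.Xi ((K.a - K.Xl x) / K.rl x) x :=
      (cF.integral_hasStrictDerivAt 0 x).hasDerivAt
    exact (hasDerivAt_const x K.psi).sub h1
  have hXm : Monotone K.Xl := by
    refine monotone_of_deriv_nonneg (fun x => (K.Xl_deriv h.cl x).differentiableAt) fun x => ?_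
    rw [(K.Xl_deriv h.cl x).deriv]
    exact (K.rl_pos x).le
  refine monotoneOn_of_deriv_nonneg (convex_Ici z) (fun x _ => (hd x).continuousAt.continuousWithinAt)
    (fun x _ => (hd x).differentiableAt.differentiableWithinAt) fun x hx => ?_
  rw [interior_Ici] at hx
  rw [(hd x).deriv]
  have h1 : K.a - K.Xl x ≤ 0 := by
    have := hXm (le_of_lt hx)
    linarith
  have h2 : (K.a - K.Xl x) / K.rl x ≤ 0 := div_nonpos_of_nonpos_of_nonneg h1 (K.rl_pos x).le
  linarith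

private theorem CA1_le (K : Dat) (h : K.Cx) {z : ℝ} (hz : z ∈ Icc 0 K.w) (h3 : K.a ≤ K.Xl z) : K.Phi z ≤ 0 :=
  (CA1_mono K h.toReg h3 self_mem_Ici (mem_Ici.2 hz.2) hz.2).trans (opp_gen K h.toReg h.vl h.vu)

theorem es_of_phi (K : Dat) (h : K.Cx) {z : ℝ} (hz : z ∈ Icc 0 K.w) (h3 : 0 < K.Phi z) : K.Xl z < K.a := by
  by_contra h4
  rw [not_lt] at h4
  exact absurd (CA1_le K h hz h4) (not_le.2 h3)

theorem phi_le (K : Dat) (h : K.Cx) {z : ℝ} (hz : z ∈ Icc 0 K.w) (h3 : K.a ≤ K.Xl z) : K.Phi z ≤ 0 := by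
  exact CA1_le K h hz h3

theorem posK_zero (hP : CFPos) : PosK 0 := by
  intro K T z kt h hT hA
  have hT0 : T = ∅ := Finset.card_eq_zero.1 (Nat.le_zero.1 hT)
  have hcov : ∀ x ∈ Icc 0 z, K.l x = K.l z + kt * (x - z) := by
    intro x hx
    rcases hA.cov x hx with h1 | ⟨e, he, -⟩
    · exact h1
    · rw [hT0] at he
      exact absurd he (Finset.notMem_empty e)
  have h0 : K.l 0 = K.l z + kt * (0 - z) := hcov 0 ⟨le_rfl, hA.z0⟩
  have hj : K.j z kt = K.j 0 kt := by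
    refine j_aff K h.toReg hA.z0 fun x hx => ?_
    rw [hcov x hx, h0]
    ring
  have hsup : ∀ x ∈ Icc 0 K.w, K.l 0 + kt * x ≤ K.l x := by
    intro x hx
    have h1 := hA.sup x hx
    rw [h0]
    linarith
  rw [hj]
  by_cases hp : K.p + K.q * kt = 0
  · have key : ∀ δ : ℝ, 0 < δ → 0 ≤ K.j 0 kt + δ * K.Phi 0 := by
      intro δ hδ
      have hk' : ∀ x ∈ Icc 0 K.w, K.l 0 + (kt - δ) * x ≤ K.l x := by
        intro x hx
        have h1 := hsup x hx
        have h2 : 0 ≤ δ * x := mul_nonneg hδ.le hx.1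
        linarith
      have hp' : K.p + K.q * (kt - δ) ≠ 0 := by
        have h1 : K.p + K.q * (kt - δ) = - (K.q * δ) := by linear_combination hp
        rw [h1]
        exact neg_ne_zero.2 (mul_ne_zero h.hq hδ.ne')
      have h1 := j0_nonneg hP K h.toReg h.vl h.vu (kt - δ) hk' hp'
      rw [j_step K h.hq 0 kt (kt - δ)] at h1
      linarith
    by_contra hneg
    rw [not_le] at hneg
    rcases le_or_gt (K.Phi 0) 0 with h1 | h1
    · have h2 := key 1 one_pos
      linarith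
    · have h2 := key (- K.j 0 kt / (2 * K.Phi 0)) (div_pos (by linarith) (by linarith))
      have h3 : - K.j 0 kt / (2 * K.Phi 0) * K.Phi 0 = - K.j 0 kt / 2 := by
        field_simp
      rw [h3] at h2
      linarith
  · exact j0_nonneg hP K h.toReg h.vl h.vu kt hsup hp

end Pool.Agent.Lib.MP_1dedaf_gt.DK
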