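import Pool.Agent.Lib.MP_1dedaf_gt.Mg.G027

/-!
# TASK EP CB1: members of the class are convex bodies with near arcs

Write `X = c + x`, `e X = ke X + he`, `t X = kt X + ht`, `l x = max (L X) (max (e X) (t X))`. `in_cx`: on `[c, w]`: `e ≤ u` because `u` is concave, `e` affine, `e c ≤ u c` (`ec`) and `e w ≤ L w ≤ u w` (`ew`, `Lu`); the same for `t`. Convexity: maximum of convex functions composed with a translation
(`ConvexOn.sup`, `ConvexOn.translate_right` or directly from the definition). `l (z - c) = t z` by `Lz`, `ez`. `(B.dat θ).w = w - c > 0`. `fat`.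
Near arcs. The lines `S` in the shifted coordinate: `(s.1, s.1 * c + s.2)` (`Finset.image`, `Finset.card_image_le`).
(key) If `x0 ∈ [c, w]`, a line `g` of slope `k ≤ k0` has `L x0 ≤ g x0`, and `X ∈ [c, x0]` has `g X < L X`, then `L X = s X` for some `s ∈ S` (`cov`: otherwise `L x0 - L X ≥ k0 (x0 - X) ≥ k (x0 - X) = g x0 - g X`, so `L X ≤ L x0 - g x0 + g X ≤ g X`).
`in_arc`: (near set `S ∪ {e}`) `x0 = z`, `g = t`: on `[c, z]` the value `l` is `t X`, `e X` or `L X > t X`, the last is on a line of `S`. `sup`: `t X ≤ l x`, `l (z - c) = t z`. Slopes: `ke ≤ kt`, `s.1 ≤ ke ≤ kt`. `le`: `s X ≤ L X` (`Ok.le`).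
`in_arc0`: if `e X ≤ max (L X) (t X)` on `[c, z]` the line `e` is not needed: near set `S`. `in_arc1`: if `s0 ∈ S` has the slope `ke` and `L x' < e x'` somewhere then `s0 < e` everywhere (parallel), so `L X = s0 X` implies `L X < e X`: near set `(S \ {s0}) ∪ {e}`, `Finset.card_erase_of_mem`.
`in_arcE`: the line `e` touches at `x0` (`x0 ∈ [c, z]`, `e x0 = t x0`, `L x0 ≤ e x0`, `ke < kt`): `l (x0 - c) = e x0`; for `X ≤ x0`: `t X ≤ e X`; (key) with `g = e`; near set `S`.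
-/

set_option autoImplicit false

open MeasureTheory Set Filter Topology

namespace Pool.Agent.Lib.MP_1dedaf_gt.DK

/-- An affine function below a concave function at the ends. -/
private theorem CB1_lin {B : EB} (hB : B.Ok) {c : ℝ} (hc0 : 0 ≤ c) (hcw : c < B.w) {k m : ℝ} (h1 : k * c + m ≤ B.u c)
    (h2 : k * B.w + m ≤ B.u B.w) {X : ℝ} (hX : X ∈ Icc c B.w) : k * X + m ≤ B.u X := by
  have hd : 0 < B.w - c := by linarith
  have hcc : c ∈ Icc 0 B.w := ⟨hc0, hcw.le⟩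
  have hww : B.w ∈ Icc 0 B.w := ⟨hB.hw.le, le_refl _⟩
  have ha : 0 ≤ (B.w - X) / (B.w - c) := div_nonneg (by linarith [hX.2]) hd.le
  have hb : 0 ≤ (X - c) / (B.w - c) := div_nonneg (by linarith [hX.1]) hd.le
  have hab : (B.w - X) / (B.w - c) + (X - c) / (B.w - c) = 1 := by
    rw [← add_div]
    rw [show B.w - X + (X - c) = B.w - c by ring]
    exact div_self hd.ne'
  have h3 := hB.vu.2 hcc hww ha hb hab
  simp only [smul_eq_mul] at h3
  have h4 : (B.w - X) / (B.w - c) * c + (X - c) / (B.w - c) * B.w = X := by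
    field_simp
    ring
  rw [h4] at h3
  have h5 : k * X + m = (B.w - X) / (B.w - c) * (k * c + m) + (X - c) / (B.w - c) * (k * B.w + m) := by
    have h6 : k * X + m = k * ((B.w - X) / (B.w - c) * c + (X - c) / (B.w - c) * B.w) +
        m * ((B.w - X) / (B.w - c) + (X - c) / (B.w - c)) := by rw [h4, hab, mul_one]
    rw [h6]
    ring
  rw [h5]
  refine le_trans ?_ h3
  exact add_le_add (mul_le_mul_of_nonneg_left h1 ha) (mul_le_mul_of_nonneg_left h2 hb)

private theorem CB1_aff (c k m : ℝ) (s : Set ℝ) (hs : Convex ℝ s) : ConvexOn ℝ s fun x => k * (c + x) + m := by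
  refine ⟨hs, fun x _ y _ a b _ _ hab => le_of_eq ?_⟩
  simp only [smul_eq_mul]
  have h1 : k * (c + (a * x + b * y)) + m = k * ((a + b) * c + (a * x + b * y)) + (a + b) * m := by
    rw [hab]
    ring
  rw [h1]
  ring

theorem in_cx (B : EB) (hB : B.Ok) (θ : Th) (h : B.In θ) : (B.dat θ).Cx ∧ (B.dat θ).l (θ.z - θ.c) = θ.kt * θ.z + θ.ht := by
  have hww : B.w ∈ Icc 0 B.w := ⟨hB.hw.le, le_refl _⟩
  have hLw := hB.Lu B.w hww
  have hsub : Icc 0 (B.w - θ.c) ⊆ (fun z => θ.c + z) ⁻¹' Icc 0 B.w := by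
    intro x hx
    show θ.c + x ∈ Icc 0 B.w
    exact ⟨by linarith [h.c0, hx.1], by linarith [hx.2]⟩
  constructor
  · refine ⟨⟨hB.hq, ?_, ?_, ?_, ?_, ?_⟩, ?_, ?_⟩
    · show 0 < B.w - θ.c
      linarith [h.cw]
    · show Continuous fun x => max (B.L (θ.c + x)) (max (θ.ke * (θ.c + x) + θ.he) (θ.kt * (θ.c + x) + θ.ht))
      exact (hB.cL.comp (continuous_const.add continuous_id)).max (by fun_prop)
    · show Continuous fun x => B.u (θ.c + x)
      exact hB.cu.comp (continuous_const.add continuous_id)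
    · intro x hx
      have hx' : x ∈ Icc 0 (B.w - θ.c) := hx
      have hX : θ.c + x ∈ Icc θ.c B.w := ⟨by linarith [hx'.1], by linarith [hx'.2]⟩
      show max (B.L (θ.c + x)) (max (θ.ke * (θ.c + x) + θ.he) (θ.kt * (θ.c + x) + θ.ht)) ≤ B.u (θ.c + x)
      refine max_le (hB.Lu _ (hsub hx')) (max_le ?_ ?_)
      · exact CB1_lin hB h.c0 h.cw h.ec (h.ew.trans hLw) hX
      · exact CB1_lin hB h.c0 h.cw h.tc (h.tw.trans hLw) hX
    · obtain ⟨x, hx, hx2⟩ := h.fat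
      refine ⟨x - θ.c, ?_, ?_⟩
      · show x - θ.c ∈ Icc 0 (B.w - θ.c)
        exact ⟨by linarith [hx.1], by linarith [hx.2]⟩
      · show max (B.L (θ.c + (x - θ.c))) (max (θ.ke * (θ.c + (x - θ.c)) + θ.he) (θ.kt * (θ.c + (x - θ.c)) + θ.ht)) < B.u (θ.c + (x - θ.c))
        rw [show θ.c + (x - θ.c) = x by ring]
        exact hx2
    · show ConvexOn ℝ (Icc 0 (B.w - θ.c)) fun x => max (B.L (θ.c + x)) (max (θ.ke * (θ.c + x) + θ.he) (θ.kt * (θ.c + x) + θ.ht))
      have h1 : ConvexOn ℝ (Icc 0 (B.w - θ.c)) (B.L ∘ fun z => θ.c + z) :=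
        (hB.vL.translate_right θ.c).subset hsub (convex_Icc _ _)
      exact h1.sup ((CB1_aff θ.c θ.ke θ.he _ (convex_Icc _ _)).sup (CB1_aff θ.c θ.kt θ.ht _ (convex_Icc _ _)))
    · show ConcaveOn ℝ (Icc 0 (B.w - θ.c)) fun x => B.u (θ.c + x)
      exact (hB.vu.translate_right θ.c).subset hsub (convex_Icc _ _)
  · show max (B.L (θ.c + (θ.z - θ.c))) (max (θ.ke * (θ.c + (θ.z - θ.c)) + θ.he) (θ.kt * (θ.c + (θ.z - θ.c)) + θ.ht)) = θ.kt * θ.z + θ.ht
    rw [show θ.c + (θ.z - θ.c) = θ.z by ring, max_eq_right h.ez, max_eq_right h.Lz]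

private theorem CB1_key {B : EB} (hB : B.Ok) {c x0 k m X : ℝ} (hc : 0 ≤ c) (hx0 : x0 ≤ B.w) (hk : k ≤ B.k0)
    (h0 : B.L x0 ≤ k * x0 + m) (hX : X ∈ Icc c x0) (hg : k * X + m < B.L X) : ∃ s ∈ B.S, B.L X = s.1 * X + s.2 := by
  rcases hB.cov X ⟨hc.trans hX.1, hX.2.trans hx0⟩ with h | h
  · exact h
  · exfalso
    have h1 := h x0 ⟨hX.2, hx0⟩
    have h2 : k * (x0 - X) ≤ B.k0 * (x0 - X) := mul_le_mul_of_nonneg_right hk (by linarith [hX.2])
    nlinarith

/-- The lower boundary in the coordinate `X`. -/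
private noncomputable def CB1_l (B : EB) (θ : Th) (X : ℝ) : ℝ := max (B.L X) (max (θ.ke * X + θ.he) (θ.kt * X + θ.ht))

private theorem CB1_dl (B : EB) (θ : Th) (x : ℝ) : (B.dat θ).l x = CB1_l B θ (θ.c + x) := rfl

private theorem CB1_mk (B : EB) (θ : Th) (R : Finset (ℝ × ℝ)) {x0 k m : ℝ} (hc : θ.c ≤ x0) (hw : x0 ≤ B.w)
    (h0 : CB1_l B θ x0 = k * x0 + m) (hsup : ∀ X ∈ Icc θ.c B.w, k * X + m ≤ CB1_l B θ X) (hsl : ∀ s ∈ R, s.1 ≤ k)
    (hle : ∀ s ∈ R, ∀ X ∈ Icc θ.c x0, s.1 * X + s.2 ≤ CB1_l B θ X)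
    (hcov : ∀ X ∈ Icc θ.c x0, CB1_l B θ X = k * X + m ∨ ∃ s ∈ R, CB1_l B θ X = s.1 * X + s.2) :
    ∃ T : Finset (ℝ × ℝ), T.card ≤ R.card ∧ (B.dat θ).Arc T (x0 - θ.c) k := by
  classical
  have h1 : (B.dat θ).l (x0 - θ.c) = k * x0 + m := by
    rw [CB1_dl, show θ.c + (x0 - θ.c) = x0 by ring, h0]
  refine ⟨R.image fun s => (s.1, s.1 * θ.c + s.2), Finset.card_image_le, ?_, ?_, ?_, ?_, ?_, ?_⟩
  · linarith
  · show x0 - θ.c ≤ B.w - θ.c
    linarith
  · intro x hx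
    have hx' : x ∈ Icc 0 (B.w - θ.c) := hx
    rw [h1, CB1_dl]
    have h2 := hsup (θ.c + x) ⟨by linarith [hx'.1], by linarith [hx'.2]⟩
    have h3 : k * x0 + m + k * (x - (x0 - θ.c)) = k * (θ.c + x) + m := by ring
    rw [h3]
    exact h2
  · intro e he
    obtain ⟨s, hs, rfl⟩ := Finset.mem_image.1 he
    exact hsl s hs
  · intro e he x hx
    obtain ⟨s, hs, rfl⟩ := Finset.mem_image.1 he
    rw [CB1_dl]
    have h2 := hle s hs (θ.c + x) ⟨by linarith [hx.1], by linarith [hx.2]⟩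
    have h3 : s.1 * x + (s.1 * θ.c + s.2) = s.1 * (θ.c + x) + s.2 := by ring
    show s.1 * x + (s.1 * θ.c + s.2) ≤ _
    rw [h3]
    exact h2
  · intro x hx
    rw [h1, CB1_dl]
    rcases hcov (θ.c + x) ⟨by linarith [hx.1], by linarith [hx.2]⟩ with h2 | ⟨s, hs, h2⟩
    · left
      rw [h2]
      ring
    · right
      refine ⟨(s.1, s.1 * θ.c + s.2), Finset.mem_image.2 ⟨s, hs, rfl⟩, ?_⟩
      rw [h2]
      show s.1 * (θ.c + x) + s.2 = s.1 * x + (s.1 * θ.c + s.2)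
      ring

private theorem CB1_le_L {B : EB} {θ : Th} {X y : ℝ} (h : y ≤ B.L X) : y ≤ CB1_l B θ X := h.trans (le_max_left _ _)

private theorem CB1_le_e (B : EB) (θ : Th) (X : ℝ) : θ.ke * X + θ.he ≤ CB1_l B θ X :=
  (le_max_left _ _).trans (le_max_right _ _)

private theorem CB1_le_t (B : EB) (θ : Th) (X : ℝ) : θ.kt * X + θ.ht ≤ CB1_l B θ X :=
  (le_max_right _ _).trans (le_max_right _ _)

private theorem CB1_z {B : EB} {θ : Th} (h : B.In θ) : CB1_l B θ θ.z = θ.kt * θ.z + θ.ht := by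
  unfold CB1_l
  rw [max_eq_right h.ez, max_eq_right h.Lz]

private theorem CB1_leS {B : EB} (hB : B.Ok) {θ : Th} (h : B.In θ) {x0 : ℝ} (hx0 : x0 ≤ B.w) {s : ℝ × ℝ} (hs : s ∈ B.S) {X : ℝ}
    (hX : X ∈ Icc θ.c x0) : s.1 * X + s.2 ≤ CB1_l B θ X :=
  CB1_le_L (hB.le s hs X ⟨h.c0.trans hX.1, hX.2.trans hx0⟩)

theorem in_arc (B : EB) (hB : B.Ok) (θ : Th) (h : B.In θ) : ∃ T : Finset (ℝ × ℝ), T.card ≤ B.S.card + 1 ∧ (B.dat θ).Arc T (θ.z - θ.c) θ.kt := by
  classical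
  obtain ⟨T, hT1, hT2⟩ := CB1_mk B θ (insert (θ.ke, θ.he) B.S) h.cz h.zw (CB1_z h) (fun X _ => CB1_le_t B θ X) (by
      intro s hs
      rcases Finset.mem_insert.1 hs with rfl | hs
      · exact h.et
      · exact (h.sS s hs).trans h.et) (by
      intro s hs X hX
      rcases Finset.mem_insert.1 hs with rfl | hs
      · exact CB1_le_e B θ X
      · exact CB1_leS hB h h.zw hs hX) (by
      intro X hX
      by_cases h1 : max (θ.ke * X + θ.he) (θ.kt * X + θ.ht) < B.L X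
      · right
        obtain ⟨s, hs, h2⟩ := CB1_key hB h.c0 h.zw h.t0 h.Lz hX ((le_max_right _ _).trans_lt h1)
        refine ⟨s, Finset.mem_insert_of_mem hs, ?_⟩
        rw [← h2]
        exact max_eq_left h1.le
      · have h2 : CB1_l B θ X = max (θ.ke * X + θ.he) (θ.kt * X + θ.ht) := max_eq_right (not_lt.1 h1)
        rw [h2]
        rcases le_total (θ.ke * X + θ.he) (θ.kt * X + θ.ht) with h3 | h3
        · left
          exact max_eq_right h3
        · right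
          exact ⟨(θ.ke, θ.he), Finset.mem_insert_self _ _, max_eq_left h3⟩)
  exact ⟨T, hT1.trans (Finset.card_insert_le _ _), hT2⟩

theorem in_arc0 (B : EB) (hB : B.Ok) (θ : Th) (h : B.In θ) (he : ∀ x ∈ Icc θ.c θ.z, θ.ke * x + θ.he ≤ max (B.L x) (θ.kt * x + θ.ht)) :
    ∃ T : Finset (ℝ × ℝ), T.card ≤ B.S.card ∧ (B.dat θ).Arc T (θ.z - θ.c) θ.kt := by
  refine CB1_mk B θ B.S h.cz h.zw (CB1_z h) (fun X _ => CB1_le_t B θ X) (fun s hs => (h.sS s hs).trans h.et)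
    (fun s hs X hX => CB1_leS hB h h.zw hs hX) ?_
  intro X hX
  by_cases h1 : θ.kt * X + θ.ht < B.L X
  · right
    obtain ⟨s, hs, h2⟩ := CB1_key hB h.c0 h.zw h.t0 h.Lz hX h1
    refine ⟨s, hs, ?_⟩
    rw [← h2]
    have h3 := he X hX
    rw [max_eq_left h1.le] at h3
    exact max_eq_left (max_le h3 h1.le)
  · left
    have h3 := he X hX
    rw [max_eq_right (not_lt.1 h1)] at h3
    show max (B.L X) (max (θ.ke * X + θ.he) (θ.kt * X + θ.ht)) = _
    rw [max_eq_right h3]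
    exact max_eq_right (not_lt.1 h1)

theorem in_arc1 (B : EB) (hB : B.Ok) (θ : Th) (h : B.In θ) {x' : ℝ} (hx : x' ∈ Icc 0 B.w) (he : B.L x' < θ.ke * x' + θ.he) {s : ℝ × ℝ} (hs : s ∈ B.S) (hs1 : s.1 = θ.ke) :
    ∃ T : Finset (ℝ × ℝ), T.card ≤ B.S.card ∧ (B.dat θ).Arc T (θ.z - θ.c) θ.kt := by
  classical
  have hs2 : s.2 < θ.he := by
    have h1 := hB.le s hs x' hx
    rw [hs1] at h1
    linarith
  obtain ⟨T, hT1, hT2⟩ := CB1_mk B θ (insert (θ.ke, θ.he) (B.S.erase s)) h.cz h.zw (CB1_z h) (fun X _ => CB1_le_t B θ X) (by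
      intro s' hs'
      rcases Finset.mem_insert.1 hs' with rfl | hs'
      · exact h.et
      · exact (h.sS s' (Finset.mem_of_mem_erase hs')).trans h.et) (by
      intro s' hs' X hX
      rcases Finset.mem_insert.1 hs' with rfl | hs'
      · exact CB1_le_e B θ X
      · exact CB1_leS hB h h.zw (Finset.mem_of_mem_erase hs') hX) (by
      intro X hX
      by_cases h1 : max (θ.ke * X + θ.he) (θ.kt * X + θ.ht) < B.L X
      · right
        obtain ⟨s', hs', h2⟩ := CB1_key hB h.c0 h.zw h.t0 h.Lz hX ((le_max_right _ _).trans_lt h1)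
        have hne : s' ≠ s := by
          rintro rfl
          have h3 : θ.ke * X + θ.he < B.L X := (le_max_left _ _).trans_lt h1
          rw [h2, hs1] at h3
          linarith
        refine ⟨s', Finset.mem_insert_of_mem (Finset.mem_erase.2 ⟨hne, hs'⟩), ?_⟩
        rw [← h2]
        exact max_eq_left h1.le
      · have h2 : CB1_l B θ X = max (θ.ke * X + θ.he) (θ.kt * X + θ.ht) := max_eq_right (not_lt.1 h1)
        rw [h2]
        rcases le_total (θ.ke * X + θ.he) (θ.kt * X + θ.ht) with h3 | h3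
        · left
          exact max_eq_right h3
        · right
          exact ⟨(θ.ke, θ.he), Finset.mem_insert_self _ _, max_eq_left h3⟩)
  refine ⟨T, hT1.trans ((Finset.card_insert_le _ _).trans ?_), hT2⟩
  rw [Finset.card_erase_of_mem hs]
  have h1 : 0 < B.S.card := Finset.card_pos.2 ⟨s, hs⟩
  omega

theorem in_arcE (B : EB) (hB : B.Ok) (θ : Th) (h : B.In θ) (hk : θ.ke < θ.kt) {x0 : ℝ} (hc : θ.c ≤ x0) (hz : x0 ≤ θ.z)
    (h0 : θ.ke * x0 + θ.he = θ.kt * x0 + θ.ht) (hL : B.L x0 ≤ θ.kt * x0 + θ.ht) :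
    ∃ T : Finset (ℝ × ℝ), T.card ≤ B.S.card ∧ (B.dat θ).Arc T (x0 - θ.c) θ.ke := by
  have hxw : x0 ≤ B.w := hz.trans h.zw
  refine CB1_mk B θ B.S (m := θ.he) hc hxw ?_ (fun X _ => CB1_le_e B θ X) h.sS
    (fun s hs X hX => CB1_leS hB h hxw hs hX) ?_
  · show max (B.L x0) (max (θ.ke * x0 + θ.he) (θ.kt * x0 + θ.ht)) = _
    rw [← h0, max_self]
    rw [← h0] at hL
    exact max_eq_right hL
  · intro X hX
    have ht : θ.kt * X + θ.ht ≤ θ.ke * X + θ.he := by nlinarith [hX.2]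
    by_cases h1 : θ.ke * X + θ.he < B.L X
    · right
      obtain ⟨s, hs, h2⟩ := CB1_key hB h.c0 hxw (h.et.trans h.t0) (by rw [h0]; exact hL) hX h1
      refine ⟨s, hs, ?_⟩
      rw [← h2]
      exact max_eq_left (max_le h1.le (ht.trans h1.le))
    · left
      show max (B.L X) (max (θ.ke * X + θ.he) (θ.kt * X + θ.ht)) = _
      rw [max_eq_left ht]
      exact max_eq_right (not_lt.1 h1)

end Pool.Agent.Lib.MP_1dedaf_gt.DK
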