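import Pool.Agent.Lib.MP_1dedaf_gt.DK.EP.CA1
import Pool.Agent.Lib.MP_1dedaf_gt.DK.EP.CB1

/-!
# TASK EP CB2: facts at a negative member

`j := (B.dat θ).j (z - c) kt < 0` (`M > 0`: `M_pos`, `exp > 0`). (1) If `e X ≤ max (L X) (t X)` for all `X ∈ [c, z]`, then `in_arc0` and `PosK m` give `0 ≤ j`. So there is `x' ∈ [c, z]` with `e x' > L x'`, `e x' > t x'`. (2) `in_arc1` and `PosK m`: no `s ∈ S` has slope `ke`, so all slopes are `< ke` (`sS`).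
(3) `e x' > t x'`, `e z ≤ t z` (`ez`), `x' ≤ z`: so `ke < kt` (`et`, if `ke = kt` both are parallel) and there is `x0 ∈ (x', z]` with `e x0 = t x0` (`x0 = (ht - he)/(ke - kt)`). (4) `L x0 ≤ t x0`: by `Ok.cov` at `x0`: if `L x0 = s x0`, `s ∈ S`: `s x' ≤ L x' < e x'` and `s.1 < ke` give `s x0 < e x0`. Otherwise `L z - L x0 ≥ k0 (z - x0) ≥ kt (z - x0) = t z - t x0`
and `L z ≤ t z` (`Lz`) give `L x0 ≤ t x0`. (5) on `[x0, z]`: `l = t`: `e ≤ t` there, and `L X ≤ t X` by the same argument as in (4) (at `X ∈ [x0, z]`: `L X = s X` with `s x' < e x'`, slope `< ke`: `s X < e X ≤ t X`). So `j_aff`: `j (x0 - c) kt = j (z - c) kt`.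
(6) `in_arcE` and `PosK m`: `0 ≤ (B.dat θ).j (x0 - c) ke = j (x0 - c) kt - (ke - kt) Phi` (`j_step`), so `(kt - ke) Phi ≥ - j > 0`. (7) `es_of_phi`.
-/

set_option autoImplicit false

open MeasureTheory Set Filter Topology

namespace Pool.Agent.Lib.MP_1dedaf_gt.DK

theorem neg_facts {m : ℕ} (hm : PosK m) (B : EB) (hB : B.Ok) (hS : B.S.card ≤ m) (θ : Th) (h : B.In θ) (hn : B.val θ < 0) :
    (∀ e ∈ B.S, e.1 < θ.ke) ∧ θ.ke < θ.kt ∧ ∃ x0 : ℝ, θ.c < x0 ∧ x0 ≤ θ.z ∧ θ.ke * x0 + θ.he = θ.kt * x0 + θ.ht ∧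
      (∃ x ∈ Ico θ.c x0, B.L x < θ.ke * x + θ.he) ∧ (∀ x ∈ Icc x0 θ.z, B.L x ≤ θ.kt * x + θ.ht) ∧
      (B.dat θ).j (x0 - θ.c) θ.kt = (B.dat θ).j (θ.z - θ.c) θ.kt ∧ 0 < (B.dat θ).Phi (x0 - θ.c) ∧ (B.dat θ).Xl (x0 - θ.c) < (B.dat θ).a := by
  obtain ⟨hCx, -⟩ := in_cx B hB θ h
  have hReg : (B.dat θ).Reg := hCx.toReg
  have hM : 0 < (B.dat θ).M := Dat.M_pos _ hReg
  have hj : (B.dat θ).j (θ.z - θ.c) θ.kt < 0 := by
    have h1 : (B.dat θ).M * (B.dat θ).j (θ.z - θ.c) θ.kt < 0 := by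
      by_contra hh
      push Not at hh
      have h2 : 0 ≤ B.val θ := mul_nonneg (Real.exp_pos _).le hh
      linarith
    by_contra hh
    push Not at hh
    have h2 := mul_nonneg hM.le hh
    linarith
  have hx' : ∃ x ∈ Icc θ.c θ.z, max (B.L x) (θ.kt * x + θ.ht) < θ.ke * x + θ.he := by
    by_contra hh
    push Not at hh
    obtain ⟨T, hT, hA⟩ := in_arc0 B hB θ h hh
    have h2 := hm (B.dat θ) T (θ.z - θ.c) θ.kt hCx (hT.trans hS) hA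
    linarith
  obtain ⟨x', hx', hx'e⟩ := hx'
  have hL' : B.L x' < θ.ke * x' + θ.he := lt_of_le_of_lt (le_max_left _ _) hx'e
  have ht' : θ.kt * x' + θ.ht < θ.ke * x' + θ.he := lt_of_le_of_lt (le_max_right _ _) hx'e
  have h0x' : 0 ≤ x' := h.c0.trans hx'.1
  have hx'w : x' ≤ B.w := hx'.2.trans h.zw
  have hsl : ∀ e ∈ B.S, e.1 < θ.ke := by
    intro s hs
    refine lt_of_le_of_ne (h.sS s hs) fun he => ?_
    obtain ⟨T, hT, hA⟩ := in_arc1 B hB θ h ⟨h0x', hx'w⟩ hL' hs he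
    have h2 := hm (B.dat θ) T (θ.z - θ.c) θ.kt hCx (hT.trans hS) hA
    linarith
  have hkk : θ.ke < θ.kt := by
    refine lt_of_le_of_ne h.et fun he => ?_
    have h1 := h.ez
    rw [he] at h1 ht'
    linarith
  have hd : 0 < θ.kt - θ.ke := by linarith
  obtain ⟨x0, hx0⟩ : ∃ x0 : ℝ, (θ.kt - θ.ke) * x0 = θ.he - θ.ht :=
    ⟨(θ.he - θ.ht) / (θ.kt - θ.ke), by field_simp⟩
  have hx0e : θ.ke * x0 + θ.he = θ.kt * x0 + θ.ht := by linarith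
  have hx'x0 : x' < x0 := by
    by_contra hh
    push Not at hh
    have h1 := mul_nonneg hd.le (sub_nonneg.2 hh)
    nlinarith
  have hx0z : x0 ≤ θ.z := by
    by_contra hh
    push Not at hh
    have h1 := mul_pos hd (sub_pos.2 hh)
    have h2 := h.ez
    nlinarith
  have hcx0 : θ.c < x0 := lt_of_le_of_lt hx'.1 hx'x0
  have het : ∀ x, x0 ≤ x → θ.ke * x + θ.he ≤ θ.kt * x + θ.ht := by
    intro x hx
    have h1 := mul_nonneg hd.le (sub_nonneg.2 hx)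
    nlinarith
  have hLt : ∀ x ∈ Icc x0 θ.z, B.L x ≤ θ.kt * x + θ.ht := by
    intro x hx
    have hx0' : 0 ≤ x := (h0x'.trans hx'x0.le).trans hx.1
    have hxw : x ≤ B.w := hx.2.trans h.zw
    rcases hB.cov x ⟨hx0', hxw⟩ with ⟨s, hs, hsx⟩ | hc
    · have h1 := hB.le s hs x' ⟨h0x', hx'w⟩
      have h2 := hsl s hs
      have h3 : 0 < x - x' := by linarith [hx.1]
      have h4 := mul_pos (sub_pos.2 h2) h3
      have h5 := het x hx.1
      rw [hsx]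
      nlinarith
    · have h1 := hc θ.z ⟨hx.2, h.zw⟩
      have h2 := h.Lz
      have h3 := mul_nonneg (sub_nonneg.2 h.t0) (sub_nonneg.2 hx.2)
      nlinarith
  have hl : ∀ x ∈ Icc (x0 - θ.c) (θ.z - θ.c), (B.dat θ).l x = θ.kt * (θ.c + x) + θ.ht := by
    intro x hx
    have h1 : θ.c + x ∈ Icc x0 θ.z := ⟨by linarith [hx.1], by linarith [hx.2]⟩
    show max (B.L (θ.c + x)) (max (θ.ke * (θ.c + x) + θ.he) (θ.kt * (θ.c + x) + θ.ht)) = _
    rw [max_eq_right (het _ h1.1), max_eq_right (hLt _ h1)]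
  have hjj : (B.dat θ).j (θ.z - θ.c) θ.kt = (B.dat θ).j (x0 - θ.c) θ.kt := by
    refine j_aff (B.dat θ) hReg (by linarith) ?_
    intro x hx
    rw [hl x hx, hl (x0 - θ.c) ⟨le_refl _, by linarith⟩]
    ring
  have hz0 : x0 - θ.c ∈ Icc 0 (B.dat θ).w := ⟨by linarith, by
    show x0 - θ.c ≤ B.w - θ.c
    linarith [h.zw]⟩
  have hPhi : 0 < (B.dat θ).Phi (x0 - θ.c) := by
    obtain ⟨T, hT, hA⟩ := in_arcE B hB θ h hkk hcx0.le hx0z hx0e (hLt x0 ⟨le_refl _, hx0z⟩)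
    have h2 := hm (B.dat θ) T (x0 - θ.c) θ.ke hCx (hT.trans hS) hA
    have h3 := j_step (B.dat θ) hB.hq (x0 - θ.c) θ.kt θ.ke
    by_contra hh
    push Not at hh
    have h4 := mul_nonneg hd.le (neg_nonneg.2 hh)
    rw [hjj] at hj
    nlinarith
  exact ⟨hsl, hkk, x0, hcx0, hx0z, hx0e, ⟨x', ⟨hx'.1, hx'x0⟩, hL'⟩, hLt, hjj.symm, hPhi,
    es_of_phi (B.dat θ) hCx hz0 hPhi⟩

end Pool.Agent.Lib.MP_1dedaf_gt.DK
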