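import Pool.Agent.Lib.MP_1dedaf_gt.Mg.G034
import Pool.Agent.Lib.MP_1dedaf_gt.Mg.G035

/-!
# TASK EP CC2: limits of members

All non-strict conditions of `In` pass to the limit (`le_of_tendsto_of_tendsto'`, continuity of `L`, `u`). `K := B.dat θ` is continuous data with `(B.dat θ).w = w - c ≥ 0`, and `DLim (fun n => B.dat (θs n)) (B.dat θ)` (all functions converge pointwise by continuity, bounds `cl_bd` with `k1 = B.k1`; `B.wk B.k1 = B` by `rfl` or `cases`).
`M n → M (B.dat θ)` (`te_M`), `|val n| ≤ C M n` (`val_bd` with `K0 = max |k0| |k1|`), so `M (B.dat θ) ≥ δ/C > 0`. So `c < w` (else `M = ∫ over [0, 0] = 0`) and there is `x ∈ [0, w - c]` with `l x ≠ u x`, `l ≤ u` (limits of `Cx.lu` at interior points, then continuity), so `fat` (`x ↦ c + x`). So `B.In θ`; `in_cx`: `Reg`, `te_j` with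
`zs n = z n - c n`, `l n (zs n) = kt n z n + ht n → kt z + ht = l (z - c)`. `val = exp (p c) * (M * j)` converges.
-/

set_option autoImplicit false

open MeasureTheory Set Filter Topology

namespace Pool.Agent.Lib.MP_1dedaf_gt.DK

private theorem CC2_M (B : EB) (hB : B.Ok) (θ : Th) (hcw : θ.c ≤ B.w)
    (h : ∀ x ∈ Icc θ.c B.w, B.u x ≤ max (B.L x) (max (θ.ke * x + θ.he) (θ.kt * x + θ.ht))) : (B.dat θ).M ≤ 0 := by
  have h0 : (0 : ℝ) ≤ (B.dat θ).w := by
    show 0 ≤ B.w - θ.c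
    linarith
  have h1 : 0 ≤ ∫ t in (0:ℝ)..(B.dat θ).w, - (B.dat θ).mu t := by
    refine intervalIntegral.integral_nonneg h0 fun t ht => ?_
    have ht2 : t ≤ B.w - θ.c := ht.2
    have h2 : (B.dat θ).u t ≤ (B.dat θ).l t := h (θ.c + t) ⟨by linarith [ht.1], by linarith⟩
    have h3 : (B.dat θ).mu t ≤ 0 := by
      rcases lt_or_gt_of_ne hB.hq with hq | hq
      · refine div_nonpos_of_nonneg_of_nonpos ?_ hq.le
        refine sub_nonneg.2 (Real.exp_le_exp.2 ?_)
        have : (B.dat θ).q * (B.dat θ).l t ≤ (B.dat θ).q * (B.dat θ).u t := mul_le_mul_of_nonpos_left h2 hq.le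
        linarith
      · refine div_nonpos_of_nonpos_of_nonneg ?_ hq.le
        refine sub_nonpos.2 (Real.exp_le_exp.2 ?_)
        have : (B.dat θ).q * (B.dat θ).u t ≤ (B.dat θ).q * (B.dat θ).l t := mul_le_mul_of_nonneg_left h2 hq.le
        linarith
    linarith
  rw [intervalIntegral.integral_neg] at h1
  show (∫ t in (0:ℝ)..(B.dat θ).w, (B.dat θ).mu t) ≤ 0
  linarith

theorem lim_in (B : EB) (hB : B.Ok) (θs : ℕ → Th) (hθ : ∀ n, B.In (θs n)) {δ : ℝ} (hδ : 0 < δ) (hv : ∀ n, B.val (θs n) ≤ - δ) (θ : Th)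
    (t1 : Tendsto (fun n => (θs n).ke) atTop (𝓝 θ.ke)) (t2 : Tendsto (fun n => (θs n).he) atTop (𝓝 θ.he))
    (t3 : Tendsto (fun n => (θs n).kt) atTop (𝓝 θ.kt)) (t4 : Tendsto (fun n => (θs n).ht) atTop (𝓝 θ.ht))
    (t5 : Tendsto (fun n => (θs n).z) atTop (𝓝 θ.z)) (t6 : Tendsto (fun n => (θs n).c) atTop (𝓝 θ.c)) :
    B.In θ ∧ Tendsto (fun n => B.val (θs n)) atTop (𝓝 (B.val θ)) := by
  have hcw : θ.c ≤ B.w := le_of_tendsto' t6 fun n => (hθ n).cw.le
  have tx : ∀ x : ℝ, Tendsto (fun n => (θs n).c + x) atTop (𝓝 (θ.c + x)) := fun x => t6.add_const x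
  have hwk : B.wk B.k1 = B := by
    cases B
    rfl
  obtain ⟨H, hH0, -, -, -, -, -, hH⟩ := cl_bd B hB
  have hD : DLim (fun n => B.dat (θs n)) (B.dat θ) := by
    refine ⟨hB.hq, ?_, ?_, ?_, ?_, ?_, ?_, ?_, ?_, ?_, ?_, ?_, ?_⟩
    · show 0 ≤ B.w - θ.c
      linarith
    · show Continuous fun x : ℝ => max (B.L (θ.c + x)) (max (θ.ke * (θ.c + x) + θ.he) (θ.kt * (θ.c + x) + θ.ht))
      exact (hB.cL.comp (continuous_const.add continuous_id)).max (by fun_prop)
    · show Continuous fun x : ℝ => B.u (θ.c + x)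
      exact hB.cu.comp (continuous_const.add continuous_id)
    · intro j
      show 0 ≤ B.w - (θs j).c
      linarith [(hθ j).cw]
    · intro j
      show Continuous fun x : ℝ => max (B.L ((θs j).c + x)) (max ((θs j).ke * ((θs j).c + x) + (θs j).he) ((θs j).kt * ((θs j).c + x) + (θs j).ht))
      exact (hB.cL.comp (continuous_const.add continuous_id)).max (by fun_prop)
    · intro j
      show Continuous fun x : ℝ => B.u ((θs j).c + x)
      exact hB.cu.comp (continuous_const.add continuous_id)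
    · exact tendsto_const_nhds
    · exact tendsto_const_nhds
    · exact tendsto_const_nhds.sub t6
    · refine ⟨H, fun j x hx => ?_⟩
      exact hH B.k1 (θs j) (by rw [hwk]; exact hθ j) x hx
    · intro x _
      exact ((hB.cL.tendsto _).comp (tx x)).max (((t1.mul (tx x)).add t2).max ((t3.mul (tx x)).add t4))
    · intro x _
      exact (hB.cu.tendsto _).comp (tx x)
  have hM := te_M hD
  obtain ⟨C, hC0, hC⟩ := val_bd B hB (max |B.k1| |B.k0|)
  have hMn : ∀ n, δ ≤ C * (B.dat (θs n)).M := by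
    intro n
    have h1 := hC (θs n) (hθ n) (abs_le_max_abs_abs (hθ n).t1 (hθ n).t0)
    have h2 := hv n
    have h3 := neg_le_abs (B.val (θs n))
    linarith
  have hMl : δ ≤ C * (B.dat θ).M := ge_of_tendsto' (hM.const_mul C) hMn
  have hMp : 0 < (B.dat θ).M := by
    by_contra hc
    have : C * (B.dat θ).M ≤ 0 := mul_nonpos_of_nonneg_of_nonpos hC0 (not_lt.1 hc)
    linarith
  have hclt : θ.c < B.w := by
    refine lt_of_le_of_ne hcw fun he => ?_
    have h1 : (B.dat θ).M = 0 := by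
      show (∫ t in (0:ℝ)..(B.w - θ.c), (B.dat θ).mu t) = 0
      rw [he, sub_self, intervalIntegral.integral_same]
    linarith
  have hin : B.In θ := by
    refine ⟨?_, ?_, ?_, ?_, ?_, ?_, ?_, ?_, ?_, ?_, ?_, ?_, ?_, hclt, ?_⟩
    · exact fun e he => ge_of_tendsto' t1 fun n => (hθ n).sS e he
    · exact le_of_tendsto_of_tendsto' t1 t3 fun n => (hθ n).et
    · exact le_of_tendsto' t3 fun n => (hθ n).t0
    · exact ge_of_tendsto' t3 fun n => (hθ n).t1
    · exact ge_of_tendsto' t6 fun n => (hθ n).c0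
    · exact le_of_tendsto_of_tendsto' t6 t5 fun n => (hθ n).cz
    · exact le_of_tendsto' t5 fun n => (hθ n).zw
    · exact le_of_tendsto' ((t1.mul_const B.w).add t2) fun n => (hθ n).ew
    · exact le_of_tendsto' ((t3.mul_const B.w).add t4) fun n => (hθ n).tw
    · exact le_of_tendsto_of_tendsto' ((t1.mul t6).add t2) ((hB.cu.tendsto _).comp t6) fun n => (hθ n).ec
    · exact le_of_tendsto_of_tendsto' ((t3.mul t6).add t4) ((hB.cu.tendsto _).comp t6) fun n => (hθ n).tc
    · exact le_of_tendsto_of_tendsto' ((hB.cL.tendsto _).comp t5) ((t3.mul t5).add t4) fun n => (hθ n).Lz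
    · exact le_of_tendsto_of_tendsto' ((t1.mul t5).add t2) ((t3.mul t5).add t4) fun n => (hθ n).ez
    · by_contra hf
      push Not at hf
      have := CC2_M B hB θ hcw hf
      linarith
  refine ⟨hin, ?_⟩
  obtain ⟨hcx, hlz⟩ := in_cx B hB θ hin
  have hj := te_j hD hcx.toReg (zs := fun n => (θs n).z - (θs n).c) (z := θ.z - θ.c) (t5.sub t6)
    (fun n => ⟨sub_nonneg.2 (hθ n).cz, sub_le_sub_right (hθ n).zw _⟩)
    (by
      rw [hlz]
      refine Tendsto.congr (fun n => ((in_cx B hB (θs n) (hθ n)).2).symm) ?_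
      exact (t3.mul t5).add t4) (ks := fun n => (θs n).kt) (k := θ.kt) t3
  exact ((Real.continuous_exp.tendsto _).comp (t6.const_mul B.p)).mul (hM.mul hj)

end Pool.Agent.Lib.MP_1dedaf_gt.DK
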