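import Pool.Agent.Lib.MP_1dedaf_gt.Mg.G026
import Pool.Agent.Lib.MP_1dedaf_gt.Mg.G003

/-!
# EP U1: the pivot lies beyond the opposite vertex

`∫_z^w rl ≤ ∫_z^w e^{p t} dt < e^{p z} / |p| = rl z / |p| ≤ a - Xl z`.
-/

set_option autoImplicit false

open MeasureTheory Set Filter Topology

namespace Pool.Agent.Lib.MP_1dedaf_gt.DK

theorem Xl_w_lt (K : Dat) (h : K.Reg) (hp : K.p < 0) (hq : K.q < 0) (hl : ∀ x ∈ Icc 0 K.w, 0 ≤ K.l x) {z : ℝ} (hz : z ∈ Icc 0 K.w)
    (hlz : K.l z = 0) (ha : K.al 0 z ≤ 0) : K.Xl K.w < K.a := by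
  have hX : K.Xl K.w - K.Xl z = ∫ t in z..K.w, K.rl t := by
    unfold Dat.Xl
    rw [intervalIntegral.integral_interval_sub_left] <;>
    exact (K.rl_cont h.cl).intervalIntegrable _ _
  have hd : ∀ t ∈ uIcc z K.w, HasDerivAt (fun t => Real.exp (K.p * t) / K.p) (Real.exp (K.p * t)) t := by
    intro t _
    have h1 : HasDerivAt (fun t => K.p * t) K.p t := by simpa using (hasDerivAt_id t).const_mul K.p
    have h2 := h1.exp.div_const K.p
    rwa [mul_div_cancel_right₀ _ hp.ne] at h2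
  have hi : IntervalIntegrable (fun t => Real.exp (K.p * t)) volume z K.w := Continuous.intervalIntegrable (by fun_prop) _ _
  have h0 := intervalIntegral.integral_eq_sub_of_hasDerivAt hd hi
  have h1 : (∫ t in z..K.w, K.rl t) ≤ ∫ t in z..K.w, Real.exp (K.p * t) := by
    refine intervalIntegral.integral_mono_on hz.2 ((K.rl_cont h.cl).intervalIntegrable _ _) hi fun t ht => ?_
    unfold Dat.rl
    refine Real.exp_le_exp.2 ?_
    have := hl t ⟨hz.1.trans ht.1, ht.2⟩
    nlinarith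
  rw [h0] at h1
  have h2 : K.rl z = Real.exp (K.p * z) := by
    unfold Dat.rl
    rw [hlz, mul_zero, add_zero]
  have h3 : K.al 0 z = K.rl z + K.p * (K.a - K.Xl z) := by
    unfold Dat.al
    ring
  rw [h3, h2] at ha
  have h4 : - (Real.exp (K.p * z) / K.p) ≤ K.a - K.Xl z := by
    rw [← div_neg, div_le_iff₀ (by linarith)]
    linarith
  have h5 : Real.exp (K.p * K.w) / K.p < 0 := div_neg_of_pos_of_neg (Real.exp_pos _) hp
  linarith

end Pool.Agent.Lib.MP_1dedaf_gt.DK
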