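import Pool.Agent.Lib.MP_1dedaf_gt.Mg.G026
import Pool.Agent.Lib.MP_1dedaf_gt.Mg.G003

/-!
# EP MONO: the first variation density along the edges

`Gt' = 2 HH / rl ^ 2` and `HH' = - 2 q ν rl ^ 2` on an edge of slope `k - ν`. `end_t`: the end of the line `t`; `near_e`: the contradiction on the last near edge.
-/

set_option autoImplicit false

open MeasureTheory Set Filter Topology

namespace Pool.Agent.Lib.MP_1dedaf_gt.DK

theorem rl_deriv (K : Dat) {x m : ℝ} (h : HasDerivAt K.l m x) : HasDerivAt K.rl ((K.p + K.q * m) * K.rl x) x := by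
  have h1 : HasDerivAt (fun t => K.p * t + K.q * K.l t) (K.p + K.q * m) x := by
    have h2 : HasDerivAt (fun t => K.p * t) K.p x := by simpa using (hasDerivAt_id x).const_mul K.p
    exact h2.add (h.const_mul K.q)
  have h2 := h1.exp
  unfold Dat.rl
  rw [mul_comm]
  exact h2

theorem Fl_deriv (K : Dat) (cl : Continuous K.l) {x m : ℝ} (h : HasDerivAt K.l m x) :
    HasDerivAt K.Fl (-1 - (K.p + K.q * m) * K.Fl x) x := by
  have h1 := ((K.Xl_deriv cl x).const_sub K.a).div (rl_deriv K h) (K.rl_pos x).ne'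
  have h0 := (K.rl_pos x).ne'
  have e : (-K.rl x * K.rl x - (K.a - K.Xl x) * ((K.p + K.q * m) * K.rl x)) / K.rl x ^ 2 = -1 - (K.p + K.q * m) * K.Fl x := by
    unfold Dat.Fl
    field_simp
  rw [e] at h1
  exact h1

theorem Fl_cont (K : Dat) (cl : Continuous K.l) : Continuous K.Fl :=
  (continuous_const.sub (K.Xl_cont cl)).div (K.rl_cont cl) fun x => (K.rl_pos x).ne'

theorem Xi_deriv (K : Dat) (cl : Continuous K.l) (x : ℝ) : HasDerivAt K.Xi (K.Fl x) x :=
  ((Fl_cont K cl).integral_hasStrictDerivAt 0 x).hasDerivAt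

theorem Ri_deriv (K : Dat) (cl : Continuous K.l) (x : ℝ) : HasDerivAt K.Ri (1 / K.rl x) x := by
  have hc : Continuous fun t => 1 / K.rl t := continuous_const.div (K.rl_cont cl) fun t => (K.rl_pos t).ne'
  exact (hc.integral_hasStrictDerivAt 0 x).hasDerivAt

theorem Xi_cont (K : Dat) (cl : Continuous K.l) : Continuous K.Xi :=
  continuous_iff_continuousAt.mpr fun x => (Xi_deriv K cl x).continuousAt

theorem Ri_cont (K : Dat) (cl : Continuous K.l) : Continuous K.Ri :=
  continuous_iff_continuousAt.mpr fun x => (Ri_deriv K cl x).continuousAt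

theorem Gt_cont (K : Dat) (cl : Continuous K.l) (z k : ℝ) : Continuous (K.Gt z k) := by
  have h1 := Fl_cont K cl
  have h2 := Xi_cont K cl
  have h3 := Ri_cont K cl
  have h4 : Continuous fun x => K.Fl x / K.rl x := h1.div (K.rl_cont cl) fun x => (K.rl_pos x).ne'
  unfold Dat.Gt
  fun_prop

theorem Gt_deriv (K : Dat) (cl : Continuous K.l) (z k : ℝ) {x m : ℝ} (h : HasDerivAt K.l m x) :
    HasDerivAt (K.Gt z k) (2 * K.HH z k (k - m) x / K.rl x ^ 2) x := by
  have h0 := (K.rl_pos x).ne'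
  have hF := Fl_deriv K cl h
  have hX := Xi_deriv K cl x
  have hR := Ri_deriv K cl x
  have hr := rl_deriv K h
  have h1 : HasDerivAt (fun x => 2 * x - z - K.Fl z) 2 x := by
    have := (((hasDerivAt_id x).const_mul (2:ℝ)).sub_const z).sub_const (K.Fl z)
    simpa using this
  have h2 := ((hX.const_mul 2).sub_const (K.Xi z)).sub (hF.pow 2)
  have h3 := (hF.div hr h0).sub hR
  have h4 := (h1.add (h2.const_mul (K.p + K.q * k))).add (h3.const_mul (K.Lam z k))
  refine h4.congr_deriv ?_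
  have e2 : K.Fl x ^ (2 - 1) = K.Fl x := pow_one _
  rw [e2]
  unfold Dat.HH Dat.qE Dat.al Dat.Fl
  generalize K.Lam z k = L
  generalize K.Xl x = X
  generalize K.rl x = r at h0
  push_cast
  field_simp
  ring

theorem al_deriv (K : Dat) (cl : Continuous K.l) (k ν : ℝ) {x : ℝ} (h : HasDerivAt K.l (k - ν) x) :
    HasDerivAt (K.al k) (-(K.q * ν * K.rl x)) x := by
  have h1 := (rl_deriv K h).add (((K.Xl_deriv cl x).const_sub K.a).const_mul (K.p + K.q * k))
  refine h1.congr_deriv ?_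
  ring

theorem qE_deriv (K : Dat) (cl : Continuous K.l) (z k ν : ℝ) {x : ℝ} (h : HasDerivAt K.l (k - ν) x) :
    HasDerivAt (K.qE z k) (K.q * ν * K.rl x) x := by
  have h1 := (al_deriv K cl k ν h).const_sub (K.Lam z k)
  refine h1.congr_deriv ?_
  ring

theorem HH_deriv (K : Dat) (cl : Continuous K.l) (z k ν : ℝ) {x : ℝ} (h : HasDerivAt K.l (k - ν) x) :
    HasDerivAt (K.HH z k ν) (-(2 * K.q * ν * K.rl x ^ 2)) x := by
  have hr := rl_deriv K h
  have ha := al_deriv K cl k ν h
  have hq := qE_deriv K cl z k ν h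
  have h1 := (((K.Xl_deriv cl x).const_sub K.a).const_mul (K.q * ν)).mul (hq.add hr)
  have h2 := h1.sub (ha.mul hq)
  refine h2.congr_deriv ?_
  simp only [Pi.add_apply]
  unfold Dat.qE Dat.al
  ring

theorem al_cont (K : Dat) (cl : Continuous K.l) (k : ℝ) : Continuous (K.al k) := by
  have h1 := K.Xl_cont cl
  have h2 := K.rl_cont cl
  unfold Dat.al
  fun_prop

theorem qE_cont (K : Dat) (cl : Continuous K.l) (z k : ℝ) : Continuous (K.qE z k) :=
  continuous_const.sub (al_cont K cl k)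

theorem HH_cont (K : Dat) (cl : Continuous K.l) (z k ν : ℝ) : Continuous (K.HH z k ν) := by
  have h1 := K.Xl_cont cl
  have h2 := K.rl_cont cl
  have h3 := al_cont K cl k
  have h4 := qE_cont K cl z k
  unfold Dat.HH
  fun_prop

theorem l_deriv (K : Dat) {x1 x2 m : ℝ} (h : ∀ x ∈ Icc x1 x2, K.l x = K.l x2 + m * (x - x2)) {x : ℝ} (hx : x ∈ Ioo x1 x2) :
    HasDerivAt K.l m x := by
  have h1 : HasDerivAt (fun x => K.l x2 + m * (x - x2)) m x := by
    have := (((hasDerivAt_id x).sub_const x2).const_mul m).const_add (K.l x2)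
    simpa using this
  refine h1.congr_of_eventuallyEq ?_
  filter_upwards [Ioo_mem_nhds hx.1 hx.2] with y hy
  exact h y ⟨hy.1.le, hy.2.le⟩

/-- `al` and `qE` are constant on the line `t`. -/
theorem al_t (K : Dat) (cl : Continuous K.l) {x1 x2 k : ℝ} (h : ∀ x ∈ Icc x1 x2, K.l x = K.l x2 + k * (x - x2)) {x : ℝ}
    (hx : x ∈ Icc x1 x2) : K.al k x = K.al k x1 := by
  refine constant_of_has_deriv_right_zero (a := x1) (b := x2) (f := K.al k) (al_cont K cl k).continuousOn (fun y hy => ?_) x hx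
  rcases hy.1.eq_or_lt with h1 | h1
  · subst h1
    have hl : HasDerivWithinAt K.l k (Ici x1) x1 := by
      have h2 : HasDerivAt (fun x => K.l x2 + k * (x - x2)) k x1 := by
        have := (((hasDerivAt_id x1).sub_const x2).const_mul k).const_add (K.l x2)
        simpa using this
      refine h2.hasDerivWithinAt.congr_of_eventuallyEq ?_ (h x1 ⟨le_rfl, hy.2.le⟩)
      filter_upwards [Icc_mem_nhdsGE hy.2] with y hy
      exact h y hy
    have h3 : HasDerivWithinAt (fun t => K.p * t + K.q * K.l t) (K.p + K.q * k) (Ici x1) x1 := by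
      have h2 : HasDerivWithinAt (fun t => K.p * t) K.p (Ici x1) x1 := by simpa using (hasDerivWithinAt_id x1 (Ici x1)).const_mul K.p
      exact h2.add (hl.const_mul K.q)
    have h4 := h3.exp
    have h5 := h4.add (((K.Xl_deriv cl x1).hasDerivWithinAt (s := Ici x1)).const_sub K.a |>.const_mul (K.p + K.q * k))
    refine h5.congr_deriv ?_
    unfold Dat.rl
    ring
  · have h2 := al_deriv K cl k 0 (x := y) (by rw [sub_zero]; exact l_deriv K h ⟨h1, hy.2⟩)
    rw [mul_zero, zero_mul, neg_zero] at h2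
    exact h2.hasDerivWithinAt

/-- On `t` the density `Gt / q` is antitone. -/
theorem Gt_anti (K : Dat) (cl : Continuous K.l) {x0 z k : ℝ} (hl : ∀ x ∈ Icc x0 z, K.l x = K.l z + k * (x - z))
    (he : 0 ≤ K.qE z k x0 / K.q) (ha : 0 ≤ K.al k x0) : AntitoneOn (fun x => K.Gt z k x / K.q) (Icc x0 z) := by
  have hd : ∀ x ∈ Ioo x0 z, HasDerivAt (fun x => K.Gt z k x / K.q) (-(2 * K.al k x0 * (K.qE z k x0 / K.q) / K.rl x ^ 2)) x := by
    intro x hx
    have h1 := (Gt_deriv K cl z k (l_deriv K hl hx)).div_const K.q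
    refine h1.congr_deriv ?_
    have h2 : K.al k x = K.al k x0 := al_t K cl hl ⟨hx.1.le, hx.2.le⟩
    have h3 : K.qE z k x = K.qE z k x0 := by
      unfold Dat.qE
      rw [h2]
    unfold Dat.HH
    rw [h2, h3]
    ring
  refine antitoneOn_of_deriv_nonpos (convex_Icc _ _) ((Gt_cont K cl z k).div_const _).continuousOn ?_ ?_
  · rw [interior_Icc]
    exact fun x hx => (hd x hx).differentiableAt.differentiableWithinAt
  · rw [interior_Icc]
    intro x hx
    rw [(hd x hx).deriv]
    have : 0 ≤ 2 * K.al k x0 * (K.qE z k x0 / K.q) / K.rl x ^ 2 := by positivity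
    linarith

/-- The near end of the line `t`: it is enough to have one of the two moves. -/
theorem end_t2 (K : Dat) (h : K.Reg) {x0 z k : ℝ} (hlt : x0 < z) (hl : ∀ x ∈ Icc x0 z, K.l x = K.l z + k * (x - z))
    (he : 0 ≤ K.qE z k x0 / K.q) (ha : 0 ≤ K.al k x0)
    (hpr : (K.Xl z ≤ K.a ∧ 0 ≤ (∫ x in x0..z, K.rl x * K.Gt z k x) / K.q - K.M * K.Fl z) ∨
      (K.Phi z ≤ 0 ∧ 0 ≤ (∫ x in x0..z, K.rl x * K.Gt z k x * (z - x)) / K.q + K.M * K.Phi z)) : 0 ≤ K.Gt z k x0 / K.q := by
  have hM := K.M_pos h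
  by_contra hneg
  push Not at hneg
  have hanti := Gt_anti K h.cl hl he ha
  have hg : ∀ x ∈ Icc x0 z, K.Gt z k x / K.q < 0 := fun x hx =>
    lt_of_le_of_lt (hanti ⟨le_rfl, hlt.le⟩ hx hx.1) hneg
  have hcr := K.rl_cont h.cl
  have hcG := Gt_cont K h.cl z k
  rcases hpr with ⟨hc, hpar⟩ | ⟨h3, hrot⟩
  · have h4 : 0 < ∫ x in x0..z, -(K.rl x * (K.Gt z k x / K.q)) := by
      refine intervalIntegral.integral_pos hlt ?_ (fun x hx => ?_) ⟨x0, ⟨le_rfl, hlt.le⟩, ?_⟩
      · exact Continuous.continuousOn (by fun_prop)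
      · have h5 := hg x ⟨hx.1.le, hx.2⟩
        have h6 := K.rl_pos x
        nlinarith
      · have h5 := hg x0 ⟨le_rfl, hlt.le⟩
        have h6 := K.rl_pos x0
        nlinarith
    have h5 : (∫ x in x0..z, K.rl x * K.Gt z k x) / K.q = - ∫ x in x0..z, -(K.rl x * (K.Gt z k x / K.q)) := by
      rw [intervalIntegral.integral_neg, neg_neg, ← intervalIntegral.integral_div]
      congr 1
      funext x
      ring
    rw [h5] at hpar
    have h3 : 0 ≤ K.Fl z := div_nonneg (by linarith) (K.rl_pos z).le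
    have h6 : 0 ≤ K.M * K.Fl z := mul_nonneg hM.le h3
    linarith
  · have h4 : 0 < ∫ x in x0..z, -(K.rl x * (K.Gt z k x / K.q) * (z - x)) := by
      refine intervalIntegral.integral_pos hlt ?_ (fun x hx => ?_) ⟨x0, ⟨le_rfl, hlt.le⟩, ?_⟩
      · exact Continuous.continuousOn (by fun_prop)
      · have h5 := hg x ⟨hx.1.le, hx.2⟩
        have h6 := K.rl_pos x
        have h7 : 0 ≤ z - x := by linarith [hx.2]
        have h8 : K.rl x * (K.Gt z k x / K.q) ≤ 0 := by nlinarith
        nlinarith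
      · have h5 := hg x0 ⟨le_rfl, hlt.le⟩
        have h6 := K.rl_pos x0
        have h7 : 0 < z - x0 := by linarith
        have h8 : K.rl x0 * (K.Gt z k x0 / K.q) < 0 := by nlinarith
        nlinarith
    have h5 : (∫ x in x0..z, K.rl x * K.Gt z k x * (z - x)) / K.q = - ∫ x in x0..z, -(K.rl x * (K.Gt z k x / K.q) * (z - x)) := by
      rw [intervalIntegral.integral_neg, neg_neg, ← intervalIntegral.integral_div]
      congr 1
      funext x
      ring
    rw [h5] at hrot
    have h6 : K.M * K.Phi z ≤ 0 := mul_nonpos_of_nonneg_of_nonpos hM.le h3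
    linarith

/-- The near end of the line `t`. -/
theorem end_t (K : Dat) (h : K.Reg) {x0 z k : ℝ} (h1 : x0 ≤ z) (hl : ∀ x ∈ Icc x0 z, K.l x = K.l z + k * (x - z))
    (hs : K.Xl x0 < K.a) (he : 0 ≤ K.qE z k x0 / K.q) (ha : 0 ≤ K.al k x0)
    (hpar : 0 ≤ (∫ x in x0..z, K.rl x * K.Gt z k x) / K.q - K.M * K.Fl z)
    (hrot : 0 ≤ (∫ x in x0..z, K.rl x * K.Gt z k x * (z - x)) / K.q + K.M * K.Phi z)
    (hPhi : K.a ≤ K.Xl z → K.Phi z ≤ 0) : x0 < z ∧ 0 ≤ K.Gt z k x0 / K.q := by
  have hM := K.M_pos h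
  have hlt : x0 < z := by
    rcases h1.eq_or_lt with h2 | h2
    · subst h2
      rw [intervalIntegral.integral_same, zero_div, zero_sub] at hpar
      have h3 : 0 < K.Fl x0 := div_pos (by linarith) (K.rl_pos x0)
      have := mul_pos hM h3
      linarith
    · exact h2
  refine ⟨hlt, end_t2 K h hlt hl he ha ?_⟩
  rcases le_total K.a (K.Xl z) with hc | hc
  · exact Or.inr ⟨hPhi hc, hrot⟩
  · exact Or.inl ⟨hc, hpar⟩

/-- No minimum: the last near edge. -/
theorem near_e (K : Dat) (h : K.Reg) {z1 x0 z k ν : ℝ} (h1 : z1 < x0) (hν : 0 < ν)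
    (hl : ∀ x ∈ Icc z1 x0, K.l x = K.l x0 + (k - ν) * (x - x0))
    (hc : 0 ≤ K.Gt z k x0 / K.q ∨ 0 ≤ K.HH z k ν x0 / K.q)
    (hpar : (∫ x in z1..x0, K.rl x * K.Gt z k x) = 0)
    (hrot : ∃ c, (∫ x in z1..x0, K.rl x * K.Gt z k x * (x - c)) / K.q ≤ 0) : False := by
  have hq := h.hq
  have hcr := K.rl_cont h.cl
  have hcG := Gt_cont K h.cl z k
  set g : ℝ → ℝ := fun x => K.Gt z k x / K.q with hgdef
  set H : ℝ → ℝ := fun x => K.HH z k ν x / K.q with hHdef
  have hgc : Continuous g := hcG.div_const _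
  have hHc : Continuous H := (HH_cont K h.cl z k ν).div_const _
  have hgd : ∀ x ∈ Ioo z1 x0, HasDerivAt g (2 * H x / K.rl x ^ 2) x := by
    intro x hx
    have h2 := (Gt_deriv K h.cl z k (l_deriv K hl hx)).div_const K.q
    refine h2.congr_deriv ?_
    simp only [hHdef, sub_sub_cancel]
    ring
  have hHd : ∀ x ∈ Ioo z1 x0, HasDerivAt H (-(2 * ν * K.rl x ^ 2)) x := by
    intro x hx
    have h2 := (HH_deriv K h.cl z k ν (l_deriv K hl hx)).div_const K.q
    refine h2.congr_deriv ?_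
    field_simp
  have hHanti : StrictAntiOn H (Icc z1 x0) := by
    refine strictAntiOn_of_deriv_neg (convex_Icc _ _) hHc.continuousOn ?_
    rw [interior_Icc]
    intro x hx
    rw [(hHd x hx).deriv]
    have := K.rl_pos x
    have : 0 < 2 * ν * K.rl x ^ 2 := by positivity
    linarith
  -- the set where `g` is negative is an initial segment
  have hP : ∀ y0 ∈ Icc z1 x0, ∀ y1 ∈ Icc z1 x0, y0 ≤ y1 → 0 ≤ g y0 → 0 ≤ g y1 := by
    intro y0 hy0 y1 hy1 hy h0
    by_contra hneg
    push Not at hneg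
    have hlt : y0 < y1 := by
      rcases hy.eq_or_lt with h2 | h2
      · subst h2
        linarith
      · exact h2
    obtain ⟨ξ1, hξ1, e1⟩ := exists_hasDerivAt_eq_slope g _ hlt hgc.continuousOn
      (fun x hx => hgd x ⟨lt_of_le_of_lt hy0.1 hx.1, lt_of_lt_of_le hx.2 hy1.2⟩)
    have hr1 := K.rl_pos ξ1
    have hH1 : H ξ1 < 0 := by
      have h2 : 2 * H ξ1 / K.rl ξ1 ^ 2 < 0 := by
        rw [e1]
        exact div_neg_of_neg_of_pos (by linarith) (by linarith)
      by_contra h3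
      push Not at h3
      have : 0 ≤ 2 * H ξ1 / K.rl ξ1 ^ 2 := by positivity
      linarith
    rcases hc with hc | hc
    · have hlt2 : y1 < x0 := by
        rcases hy1.2.eq_or_lt with h2 | h2
        · subst h2
          exact absurd hc (not_le.2 hneg)
        · exact h2
      obtain ⟨ξ2, hξ2, e2⟩ := exists_hasDerivAt_eq_slope g _ hlt2 hgc.continuousOn
        (fun x hx => hgd x ⟨lt_of_le_of_lt hy1.1 hx.1, hx.2⟩)
      have hr2 := K.rl_pos ξ2
      have hH2 : 0 < H ξ2 := by
        have h2 : 0 < 2 * H ξ2 / K.rl ξ2 ^ 2 := by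
          rw [e2]
          have hgx : 0 ≤ g x0 := hc
          exact div_pos (by linarith) (by linarith)
        by_contra h3
        push Not at h3
        have : 2 * H ξ2 / K.rl ξ2 ^ 2 ≤ 0 := div_nonpos_of_nonpos_of_nonneg (by linarith) (by positivity)
        linarith
      have := hHanti (a := ξ1) (b := ξ2) ⟨by linarith [hy0.1, hξ1.1], by linarith [hy1.2, hξ1.2]⟩
        ⟨by linarith [hy1.1, hξ2.1], hξ2.2.le⟩ (by linarith [hξ1.2, hξ2.1])
      linarith
    · have := hHanti (a := ξ1) (b := x0) ⟨by linarith [hy0.1, hξ1.1], by linarith [hy1.2, hξ1.2]⟩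
        ⟨h1.le, le_rfl⟩ (by linarith [hy1.2, hξ1.2])
      have hHx : 0 ≤ H x0 := hc
      linarith
  -- the point where the sign changes
  obtain ⟨c, hcm, hc1, hc2⟩ : ∃ c ∈ Icc z1 x0, (∀ x ∈ Icc z1 x0, x < c → g x ≤ 0) ∧ (∀ x ∈ Icc z1 x0, c < x → 0 ≤ g x) := by
    by_cases hS : ∃ y ∈ Icc z1 x0, 0 ≤ g y
    · set S : Set ℝ := {y | y ∈ Icc z1 x0 ∧ 0 ≤ g y} with hSdef
      have hne : S.Nonempty := by
        obtain ⟨y, hy, hy2⟩ := hS
        exact ⟨y, hy, hy2⟩
      have hbd : BddBelow S := ⟨z1, fun y hy => hy.1.1⟩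
      have hcs : z1 ≤ sInf S := le_csInf hne fun y hy => hy.1.1
      obtain ⟨y, hy⟩ := hne
      refine ⟨sInf S, ⟨hcs, (csInf_le hbd hy).trans hy.1.2⟩, fun x hx hxc => ?_, fun x hx hxc => ?_⟩
      · by_contra h3
        push Not at h3
        exact absurd (csInf_le hbd ⟨hx, h3.le⟩) (not_le.2 hxc)
      · obtain ⟨y', hy', hy2'⟩ := exists_lt_of_csInf_lt ⟨y, hy⟩ hxc
        exact hP y' hy'.1 x hx hy2'.le hy'.2
    · push Not at hS
      exact ⟨x0, ⟨h1.le, le_rfl⟩, fun x hx _ => (hS x hx).le, fun x hx hx2 => absurd hx.2 (not_le.2 hx2)⟩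
  -- all rotations are equivalent
  obtain ⟨c', hc'⟩ := hrot
  have i1 : (∫ x in z1..x0, K.rl x * K.Gt z k x * (x - c')) = (∫ x in z1..x0, K.rl x * K.Gt z k x * (x - c)) +
      (c - c') * ∫ x in z1..x0, K.rl x * K.Gt z k x := by
    rw [← intervalIntegral.integral_const_mul, ← intervalIntegral.integral_add]
    · congr 1
      funext x
      ring
    · exact Continuous.intervalIntegrable (by fun_prop) _ _
    · exact Continuous.intervalIntegrable (by fun_prop) _ _
  rw [hpar, mul_zero, add_zero] at i1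
  rw [i1] at hc'
  have i2 : (∫ x in z1..x0, K.rl x * K.Gt z k x * (x - c)) / K.q = ∫ x in z1..x0, K.rl x * (g x * (x - c)) := by
    rw [← intervalIntegral.integral_div]
    congr 1
    funext x
    simp only [hgdef]
    ring
  rw [i2] at hc'
  have hnn : ∀ x ∈ Icc z1 x0, 0 ≤ K.rl x * (g x * (x - c)) := by
    intro x hx
    refine mul_nonneg (K.rl_pos x).le ?_
    rcases lt_trichotomy x c with h3 | h3 | h3
    · exact mul_nonneg_of_nonpos_of_nonpos (hc1 x hx h3) (by linarith)
    · rw [h3, sub_self, mul_zero]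
    · exact mul_nonneg (hc2 x hx h3) (by linarith)
  -- `g` vanishes
  have hz : ∀ x ∈ Icc z1 x0, K.rl x * (g x * (x - c)) = 0 := by
    intro x hx
    by_contra h3
    have h4 : 0 < K.rl x * (g x * (x - c)) := lt_of_le_of_ne (hnn x hx) (Ne.symm h3)
    have h5 : 0 < ∫ x in z1..x0, K.rl x * (g x * (x - c)) := by
      refine intervalIntegral.integral_pos h1 ?_ (fun y hy => hnn y ⟨hy.1.le, hy.2⟩) ⟨x, hx, h4⟩
      exact Continuous.continuousOn (by fun_prop)
    linarith
  have hg0 : ∀ x ∈ Icc z1 x0, x ≠ c → g x = 0 := by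
    intro x hx hne
    have h3 := hz x hx
    rcases mul_eq_zero.1 h3 with h4 | h4
    · exact absurd h4 (K.rl_pos x).ne'
    · rcases mul_eq_zero.1 h4 with h5 | h5
      · exact h5
      · exact absurd (sub_eq_zero.1 h5) hne
  -- two points where `H = 0`
  have hH0 : ∀ x ∈ Ioo z1 x0, x ≠ c → H x = 0 := by
    intro x hx hne
    have h3 : HasDerivAt g 0 x := by
      refine (hasDerivAt_const x (0:ℝ)).congr_of_eventuallyEq ?_
      have h4 : ∀ᶠ y in 𝓝 x, y ≠ c := isOpen_ne.mem_nhds hne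
      filter_upwards [Ioo_mem_nhds hx.1 hx.2, h4] with y hy hy2
      exact hg0 y ⟨hy.1.le, hy.2.le⟩ hy2
    have h5 := h3.unique (hgd x hx)
    have h6 := K.rl_pos x
    have h7 : 2 * H x = 0 := by
      rcases div_eq_zero_iff.1 h5.symm with h8 | h8
      · exact h8
      · exact absurd h8 (by positivity)
    linarith
  obtain ⟨a, ha, b, hb, hab, hac, hbc⟩ : ∃ a ∈ Ioo z1 x0, ∃ b ∈ Ioo z1 x0, a < b ∧ a ≠ c ∧ b ≠ c := by
    set d := x0 - z1 with hd
    have hd0 : 0 < d := by linarith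
    by_cases e1 : z1 + d / 4 = c
    · exact ⟨z1 + d / 2, ⟨by linarith, by linarith⟩, z1 + 3 * d / 4, ⟨by linarith, by linarith⟩, by linarith,
        fun h => by linarith, fun h => by linarith⟩
    · by_cases e2 : z1 + d / 2 = c
      · exact ⟨z1 + d / 4, ⟨by linarith, by linarith⟩, z1 + 3 * d / 4, ⟨by linarith, by linarith⟩, by linarith,
          e1, fun h => by linarith⟩
      · exact ⟨z1 + d / 4, ⟨by linarith, by linarith⟩, z1 + d / 2, ⟨by linarith, by linarith⟩, by linarith, e1, e2⟩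
  have e3 := hHanti (a := a) (b := b) ⟨ha.1.le, ha.2.le⟩ ⟨hb.1.le, hb.2.le⟩ hab
  rw [hH0 a ha hac, hH0 b hb hbc] at e3
  exact lt_irrefl _ e3

/-- `0 ≤ HH / q` in the case `al < 0 < q`. -/
theorem HH_nonneg (K : Dat) (hq : 0 < K.q) {z k ν x : ℝ} (hν : 0 ≤ ν) (hs : K.Xl x ≤ K.a) (he : 0 ≤ K.qE z k x / K.q) (ha : K.al k x ≤ 0) :
    0 ≤ K.HH z k ν x / K.q := by
  have h1 : 0 ≤ K.qE z k x := by
    have := mul_nonneg he hq.le
    rwa [div_mul_cancel₀ _ hq.ne'] at this
  refine div_nonneg ?_ hq.le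
  unfold Dat.HH
  have h2 := K.rl_pos x
  have h3 : 0 ≤ K.q * ν * (K.a - K.Xl x) * (K.qE z k x + K.rl x) := by
    refine mul_nonneg (mul_nonneg (mul_nonneg hq.le hν) (by linarith)) (by linarith)
  have h4 : K.al k x * K.qE z k x ≤ 0 := mul_nonpos_of_nonpos_of_nonneg ha h1
  linarith

private theorem exp_anti {b : ℝ → ℝ} (hb : Continuous b) {x y : ℝ} (hxy : x ≤ y) (ha : AntitoneOn b (Icc x y)) (c : ℝ) :
    0 ≤ Real.exp (c * x) * b x - Real.exp (c * y) * b y + c * ∫ t in x..y, Real.exp (c * t) * b t := by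
  have hd : ∀ t ∈ uIcc x y, HasDerivAt (fun t => Real.exp (c * t)) (Real.exp (c * t) * c) t := by
    intro t _
    have h1 : HasDerivAt (fun t => c * t) c t := by simpa using (hasDerivAt_id t).const_mul c
    exact h1.exp
  have hi : IntervalIntegrable (fun t => Real.exp (c * t) * c) volume x y := Continuous.intervalIntegrable (by fun_prop) _ _
  have h0 := intervalIntegral.integral_eq_sub_of_hasDerivAt hd hi
  have hi2 : IntervalIntegrable (fun t => c * (Real.exp (c * t) * b t)) volume x y := Continuous.intervalIntegrable (by fun_prop) _ _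
  rw [← intervalIntegral.integral_const_mul]
  rcases le_total 0 c with hc | hc
  · have h1 : (∫ t in x..y, Real.exp (c * t) * c * b y) ≤ ∫ t in x..y, c * (Real.exp (c * t) * b t) := by
      refine intervalIntegral.integral_mono_on hxy (hi.mul_const _) hi2 fun t ht => ?_
      have h2 := ha ht ⟨hxy, le_rfl⟩ ht.2
      have h3 := Real.exp_pos (c * t)
      have h4 : 0 ≤ Real.exp (c * t) * c := by positivity
      nlinarith
    rw [intervalIntegral.integral_mul_const, h0] at h1
    have h5 := ha ⟨le_rfl, hxy⟩ ⟨hxy, le_rfl⟩ hxy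
    have h6 := Real.exp_pos (c * x)
    nlinarith
  · have h1 : (∫ t in x..y, Real.exp (c * t) * c * b x) ≤ ∫ t in x..y, c * (Real.exp (c * t) * b t) := by
      refine intervalIntegral.integral_mono_on hxy (hi.mul_const _) hi2 fun t ht => ?_
      have h2 := ha ⟨le_rfl, hxy⟩ ht ht.1
      have h3 := Real.exp_pos (c * t)
      have h4 : Real.exp (c * t) * c ≤ 0 := mul_nonpos_of_nonneg_of_nonpos h3.le hc
      nlinarith
    rw [intervalIntegral.integral_mul_const, h0] at h1
    have h5 := ha ⟨le_rfl, hxy⟩ ⟨hxy, le_rfl⟩ hxy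
    have h6 := Real.exp_pos (c * y)
    nlinarith

/-- `qE / q` is monotone where the slope of `l` is at most `k`. -/
theorem qE_mono (K : Dat) (h : K.Reg) {z k x y : ℝ} (hxy : x ≤ y)
    (hl : ∀ t ∈ Icc x y, ∀ s ∈ Icc x y, t ≤ s → K.l s - k * s ≤ K.l t - k * t) : K.qE z k x / K.q ≤ K.qE z k y / K.q := by
  have hr : ∀ t, K.rl t = Real.exp ((K.p + K.q * k) * t) * Real.exp (K.q * (K.l t - k * t)) := by
    intro t
    unfold Dat.rl
    rw [← Real.exp_add]
    congr 1
    ring
  have hX : K.Xl y - K.Xl x = ∫ t in x..y, K.rl t := by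
    unfold Dat.Xl
    rw [intervalIntegral.integral_interval_sub_left] <;>
    exact (K.rl_cont h.cl).intervalIntegrable _ _
  have hcl := h.cl
  have e : K.qE z k y - K.qE z k x = K.rl x - K.rl y + (K.p + K.q * k) * ∫ t in x..y, K.rl t := by
    rw [← hX]
    unfold Dat.qE Dat.al
    ring
  have e2 : (∫ t in x..y, K.rl t) = ∫ t in x..y, Real.exp ((K.p + K.q * k) * t) * Real.exp (K.q * (K.l t - k * t)) := by
    congr 1
    funext t
    exact hr t
  rw [e2, hr x, hr y] at e
  rcases lt_or_gt_of_ne h.hq with hq | hq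
  · have h1 := exp_anti (b := fun t => - Real.exp (K.q * (K.l t - k * t))) (by fun_prop) hxy (fun t ht s hs hts => by
      have h2 := hl t ht s hs hts
      have h3 : Real.exp (K.q * (K.l t - k * t)) ≤ Real.exp (K.q * (K.l s - k * s)) := Real.exp_le_exp.2 (by nlinarith)
      simpa using h3) (K.p + K.q * k)
    have e3 : (∫ t in x..y, Real.exp ((K.p + K.q * k) * t) * (fun t => - Real.exp (K.q * (K.l t - k * t))) t) =
        - ∫ t in x..y, Real.exp ((K.p + K.q * k) * t) * Real.exp (K.q * (K.l t - k * t)) := by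
      rw [← intervalIntegral.integral_neg]
      congr 1
      funext t
      ring
    rw [e3] at h1
    have h4 : K.qE z k y - K.qE z k x ≤ 0 := by linarith
    rw [← sub_nonneg, ← sub_div]
    exact div_nonneg_of_nonpos h4 hq.le
  · have h1 := exp_anti (b := fun t => Real.exp (K.q * (K.l t - k * t))) (by fun_prop) hxy (fun t ht s hs hts => by
      have h2 := hl t ht s hs hts
      exact Real.exp_le_exp.2 (by nlinarith)) (K.p + K.q * k)
    have h4 : 0 ≤ K.qE z k y - K.qE z k x := by linarith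
    rw [← sub_nonneg, ← sub_div]
    exact div_nonneg h4 hq.le

end Pool.Agent.Lib.MP_1dedaf_gt.DK
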