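import Pool.Agent.Lib.MP_1dedaf_gt.DK.EP.U2a
import Pool.Agent.Lib.MP_1dedaf_gt.DK.EP.MONO

/-!
# EP U2: the residual of the edge `x = 0` is smaller than the integral over the near arc

Frame `t = {y = 0}`, `z = g 0`, `R = K.row`, `al = K.col.al 0 z ≤ 0`, `p, q < 0`. With `C = al + p q M`:
`p (Nz - ms) = ∫_0^h (C + q R.Xu) / R.ru - ∫_{u 0}^h (C + q R.Xl) / R.rl - u 0` and the right side is `≤ - u 0`.
-/

set_option autoImplicit false

open MeasureTheory Set Filter Topology

namespace Pool.Agent.Lib.MP_1dedaf_gt.DK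

private theorem exp_d (c : ℝ) (t : ℝ) : HasDerivAt (fun t => Real.exp (c * t)) (Real.exp (c * t) * c) t := by
  have h1 : HasDerivAt (fun t => c * t) c t := by simpa using (hasDerivAt_id t).const_mul c
  exact h1.exp

theorem Xl_sub (K : Dat) (cl : Continuous K.l) (x y : ℝ) : K.Xl y - K.Xl x = ∫ t in x..y, K.rl t := by
  unfold Dat.Xl
  rw [intervalIntegral.integral_interval_sub_left] <;>
  exact (K.rl_cont cl).intervalIntegrable _ _

/-- The mass of the near arc by rows. -/
theorem near_W (K : Bd) (h : K.Ok) (hg : 0 < K.g 0) (hl : 0 < K.l 0) {x : ℝ} (hx : x ∈ Icc 0 (K.g 0)) :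
    K.q * K.row.Xl (K.l x) = K.col.rl x - K.col.rl (K.g 0) + K.p * (K.col.Xl (K.g 0) - K.col.Xl x) := by
  have h0 := near_arc K h hg hl (A := fun t => Real.exp (K.p * t)) (B := fun t => Real.exp (K.q * t)) (exp_d K.p) (exp_d K.q)
    (by fun_prop) (by fun_prop) hx
  obtain ⟨-, -, -, -, h5, -⟩ := near_facts K h
  have hcl := h.cl
  have hcg := h.cg
  have e1 : (∫ t in x..(K.g 0), Real.exp (K.p * t) * K.p * Real.exp (K.q * K.l t)) = K.p * (K.col.Xl (K.g 0) - K.col.Xl x) := by
    rw [Xl_sub K.col hcl, ← intervalIntegral.integral_const_mul]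
    congr 1
    funext t
    have : K.col.rl t = Real.exp (K.p * t) * Real.exp (K.q * K.l t) := by
      rw [← Real.exp_add]
      rfl
    rw [this]
    ring
  have e2 : (∫ y in (0:ℝ)..(K.l x), Real.exp (K.p * K.g y) * (Real.exp (K.q * y) * K.q)) = K.q * K.row.Xl (K.l x) := by
    have : K.row.Xl (K.l x) = ∫ y in (0:ℝ)..(K.l x), K.row.rl y := rfl
    rw [this, ← intervalIntegral.integral_const_mul]
    congr 1
    funext y
    have : K.row.rl y = Real.exp (K.q * y) * Real.exp (K.p * K.g y) := by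
      rw [← Real.exp_add]
      rfl
    rw [this]
    ring
  have e3 : K.col.rl (K.g 0) = Real.exp (K.p * K.g 0) := by
    change Real.exp (K.p * K.g 0 + K.q * K.l (K.g 0)) = _
    rw [h5, mul_zero, add_zero]
  have e4 : K.col.rl x = Real.exp (K.p * x) * Real.exp (K.q * K.l x) := by
    rw [← Real.exp_add]
    rfl
  rw [e1, e2, mul_zero, Real.exp_zero, mul_one, ← e3, ← e4] at h0
  linarith

theorem near_I0 (K : Bd) (h : K.Ok) (hg : 0 < K.g 0) (hl : 0 < K.l 0) :
    K.q * (∫ y in (0:ℝ)..(K.l 0), 1 / K.row.rl y) = 1 / K.col.rl (K.g 0) - 1 / K.col.rl 0 + K.p * K.col.Ri (K.g 0) := by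
  have h0 := near_arc K h hg hl (A := fun t => Real.exp (-K.p * t)) (B := fun t => Real.exp (-K.q * t)) (exp_d (-K.p)) (exp_d (-K.q))
    (by fun_prop) (by fun_prop) (x := 0) ⟨le_rfl, hg.le⟩
  obtain ⟨-, -, -, -, h5, -⟩ := near_facts K h
  have e1 : (∫ t in (0:ℝ)..(K.g 0), Real.exp (-K.p * t) * -K.p * Real.exp (-K.q * K.l t)) = -K.p * K.col.Ri (K.g 0) := by
    unfold Dat.Ri
    rw [← intervalIntegral.integral_const_mul]
    congr 1
    funext t
    have : 1 / K.col.rl t = Real.exp (-K.p * t) * Real.exp (-K.q * K.l t) := by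
      rw [← Real.exp_add, one_div]
      change (Real.exp (K.p * t + K.q * K.l t))⁻¹ = _
      rw [← Real.exp_neg]
      congr 1
      ring
    rw [this]
    ring
  have e2 : (∫ y in (0:ℝ)..(K.l 0), Real.exp (-K.p * K.g y) * (Real.exp (-K.q * y) * -K.q)) = -K.q * (∫ y in (0:ℝ)..(K.l 0), 1 / K.row.rl y) := by
    rw [← intervalIntegral.integral_const_mul]
    congr 1
    funext y
    have : 1 / K.row.rl y = Real.exp (-K.q * y) * Real.exp (-K.p * K.g y) := by
      rw [← Real.exp_add, one_div]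
      change (Real.exp (K.q * y + K.p * K.g y))⁻¹ = _
      rw [← Real.exp_neg]
      congr 1
      ring
    rw [this]
    ring
  have e3 : 1 / K.col.rl (K.g 0) = Real.exp (-K.p * K.g 0) := by
    rw [one_div]
    change (Real.exp (K.p * K.g 0 + K.q * K.l (K.g 0)))⁻¹ = _
    rw [h5, mul_zero, add_zero, ← Real.exp_neg]
    congr 1
    ring
  have e4 : 1 / K.col.rl 0 = Real.exp (-K.q * K.l 0) := by
    rw [one_div]
    change (Real.exp (K.p * 0 + K.q * K.l 0))⁻¹ = _
    rw [mul_zero, zero_add, ← Real.exp_neg]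
    congr 1
    ring
  rw [e1, e2, mul_zero, mul_zero, Real.exp_zero, mul_one, one_mul, ← e3, ← e4] at h0
  linarith

theorem near_I1 (K : Bd) (h : K.Ok) (hg : 0 < K.g 0) (hl : 0 < K.l 0) :
    K.q * (∫ y in (0:ℝ)..(K.l 0), K.row.Xl y / K.row.rl y) =
      K.l 0 - K.row.Xl (K.l 0) / K.col.rl 0 + K.p * ∫ t in (0:ℝ)..(K.g 0), K.row.Xl (K.l t) / K.col.rl t := by
  have hcg : Continuous K.row.l := h.cg
  have hXd := K.row.Xl_deriv hcg
  have hXc := K.row.Xl_cont hcg
  have hrc := K.row.rl_cont hcg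
  have h0 := near_arc K h hg hl (A := fun t => Real.exp (-K.p * t)) (B := fun t => K.row.Xl t * Real.exp (-K.q * t))
    (A' := fun t => Real.exp (-K.p * t) * -K.p)
    (B' := fun t => K.row.rl t * Real.exp (-K.q * t) + K.row.Xl t * (Real.exp (-K.q * t) * -K.q)) (exp_d (-K.p))
    (fun t => (hXd t).mul (exp_d (-K.q) t))
    (by fun_prop) (by fun_prop) (x := 0) ⟨le_rfl, hg.le⟩
  obtain ⟨-, -, -, -, h5, -⟩ := near_facts K h
  have e1 : (∫ t in (0:ℝ)..(K.g 0), Real.exp (-K.p * t) * -K.p * (K.row.Xl (K.l t) * Real.exp (-K.q * K.l t))) =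
      -K.p * ∫ t in (0:ℝ)..(K.g 0), K.row.Xl (K.l t) / K.col.rl t := by
    rw [← intervalIntegral.integral_const_mul]
    congr 1
    funext t
    have : (K.col.rl t)⁻¹ = Real.exp (-K.p * t) * Real.exp (-K.q * K.l t) := by
      rw [← Real.exp_add]
      change (Real.exp (K.p * t + K.q * K.l t))⁻¹ = _
      rw [← Real.exp_neg]
      congr 1
      ring
    rw [div_eq_mul_inv, this]
    ring
  have e5 : ∀ y, (K.row.rl y)⁻¹ = Real.exp (-K.q * y) * Real.exp (-K.p * K.g y) := by
    intro y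
    rw [← Real.exp_add]
    change (Real.exp (K.q * y + K.p * K.g y))⁻¹ = _
    rw [← Real.exp_neg]
    congr 1
    ring
  have hi2 : IntervalIntegrable (fun y => K.q * (K.row.Xl y / K.row.rl y)) volume 0 (K.l 0) :=
    Continuous.intervalIntegrable (continuous_const.mul (hXc.div hrc fun y => (K.row.rl_pos y).ne')) _ _
  have e2 : (∫ y in (0:ℝ)..(K.l 0), Real.exp (-K.p * K.g y) *
      (K.row.rl y * Real.exp (-K.q * y) + K.row.Xl y * (Real.exp (-K.q * y) * -K.q))) =
      K.l 0 - K.q * (∫ y in (0:ℝ)..(K.l 0), K.row.Xl y / K.row.rl y) := by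
    have e6 : K.l 0 - K.q * (∫ y in (0:ℝ)..(K.l 0), K.row.Xl y / K.row.rl y) =
        ∫ y in (0:ℝ)..(K.l 0), ((1:ℝ) - K.q * (K.row.Xl y / K.row.rl y)) := by
      rw [intervalIntegral.integral_sub (by simp) hi2, intervalIntegral.integral_const_mul, intervalIntegral.integral_const]
      simp
    rw [e6]
    congr 1
    funext y
    have h7 : K.row.rl y * (K.row.rl y)⁻¹ = 1 := mul_inv_cancel₀ (K.row.rl_pos y).ne'
    rw [div_eq_mul_inv, ← h7, e5 y]
    ring
  have e4 : (K.col.rl 0)⁻¹ = Real.exp (-K.q * K.l 0) := by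
    change (Real.exp (K.p * 0 + K.q * K.l 0))⁻¹ = _
    rw [mul_zero, zero_add, ← Real.exp_neg]
    congr 1
    ring
  rw [e1, e2, K.row.Xl_zero, zero_mul, mul_zero, mul_zero, Real.exp_zero, one_mul, ← e4, ← div_eq_mul_inv] at h0
  linarith

/-- `ms < Nz` (frame `t = {y = 0}`), given the symmetry of `et`. -/
theorem ms_lt_Nz (K : Bd) (h : K.Ok) (hg : 0 < K.g 0) (hl : 0 < K.l 0) (hp : K.p < 0) (hq : K.q < 0)
    (hs : K.col.et (K.g 0) = K.row.a - K.row.Xl (K.l 0)) (ha : K.col.al 0 (K.g 0) ≤ 0) :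
    K.col.ms < K.col.Nz (K.g 0) := by
  obtain ⟨hln, hgn, hzw, hlh, hlz, hgz⟩ := near_facts K h
  have hw := h.hw
  have hh := h.hh
  have hcl : Continuous K.col.l := h.cl
  have hcu : Continuous K.col.u := h.cu
  have hcg : Continuous K.row.l := h.cg
  have hcr : Continuous K.row.u := h.cr
  have hregR : K.row.Reg := by
    refine ⟨h.hp, hh, h.cg, h.cr, h.gr, ?_⟩
    by_contra hf
    push Not at hf
    have hM : K.row.M = K.col.M := Bd.row_M K h
    have hM1 : 0 < K.col.M := K.col.M_pos ⟨h.hq, hw, h.cl, h.cu, h.lu, h.fat⟩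
    have hM2 : K.row.M = 0 := by
      unfold Dat.M
      rw [intervalIntegral.integral_congr (g := fun _ => (0:ℝ)) ?_, intervalIntegral.integral_zero]
      intro y hy
      rw [uIcc_of_le (show (0:ℝ) ≤ K.row.w from hh.le)] at hy
      have e1 : K.g y = K.r y := le_antisymm (h.gr y hy) (hf y hy)
      have e2 : K.row.l y = K.row.u y := e1
      simp only [Dat.mu, Dat.ru, Dat.rl, e2, sub_self, zero_div]
    linarith
  have hM : K.row.M = K.col.M := Bd.row_M K h
  have hD : K.row.D = K.col.D := Bd.row_D K h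
  have hregC : K.col.Reg := ⟨h.hq, hw, h.cl, h.cu, h.lu, h.fat⟩
  have hDpos := K.col.D_pos hregC
  have hMpos := K.col.M_pos hregC
  -- continuity
  have cRl := K.row.rl_cont hcg
  have cRu := K.row.ru_cont hcr
  have cXl := K.row.Xl_cont hcg
  have cXu := K.row.Xu_cont hcg hcr
  have c1 : Continuous fun y => 1 / K.row.rl y := continuous_const.div cRl fun y => (K.row.rl_pos y).ne'
  have c2 : Continuous fun y => K.row.Xl y / K.row.rl y := cXl.div cRl fun y => (K.row.rl_pos y).ne'
  have c3 : Continuous fun y => 1 / K.row.ru y := continuous_const.div cRu fun y => (K.row.ru_pos y).ne'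
  have c4 : Continuous fun y => K.row.Xu y / K.row.ru y := cXu.div cRu fun y => (K.row.ru_pos y).ne'
  -- the edge `x = 0`
  have hlu : K.l 0 ≤ K.u 0 := h.lu 0 ⟨le_rfl, hw.le⟩
  have huh : K.u 0 ≤ K.h := ((h.iff 0 (K.u 0)).1 ⟨le_rfl, hw.le, hlu, le_rfl⟩).2.1
  have hgs : ∀ y ∈ Icc (K.l 0) (K.u 0), K.g y = 0 := by
    intro y hy
    have h1 := (h.iff 0 y).1 ⟨le_rfl, hw.le, hy.1, hy.2⟩
    exact le_antisymm h1.2.2.1 (hgn y ⟨h1.1, h1.2.1⟩)
  have hrs : ∀ y ∈ Icc (K.l 0) (K.u 0), K.row.rl y = Real.exp (K.q * y) := by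
    intro y hy
    change Real.exp (K.q * y + K.p * K.g y) = _
    rw [hgs y hy, mul_zero, add_zero]
  have hr0 : K.col.rl 0 = Real.exp (K.q * K.l 0) := by
    change Real.exp (K.p * 0 + K.q * K.l 0) = _
    rw [mul_zero, zero_add]
  have hs0 : K.col.ru 0 = Real.exp (K.q * K.u 0) := by
    change Real.exp (K.p * 0 + K.q * K.u 0) = _
    rw [mul_zero, zero_add]
  have dinv : ∀ y, HasDerivAt (fun y => Real.exp (-K.q * y) / (-K.q)) (Real.exp (-K.q * y)) y := by
    intro y
    have h2 := (exp_d (-K.q) y).div_const (-K.q)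
    rwa [mul_div_cancel_right₀ _ (neg_ne_zero.2 h.hq)] at h2
  have I0s : K.q * (∫ y in (K.l 0)..(K.u 0), 1 / K.row.rl y) = 1 / K.col.rl 0 - 1 / K.col.ru 0 := by
    have e1 : (∫ y in (K.l 0)..(K.u 0), 1 / K.row.rl y) = ∫ y in (K.l 0)..(K.u 0), Real.exp (-K.q * y) := by
      refine intervalIntegral.integral_congr fun y hy => ?_
      rw [uIcc_of_le hlu] at hy
      rw [hrs y hy, one_div, ← Real.exp_neg]
      congr 1
      ring
    rw [e1, intervalIntegral.integral_eq_sub_of_hasDerivAt (fun y _ => dinv y) (Continuous.intervalIntegrable (by fun_prop) _ _),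
      hr0, hs0, one_div, one_div, ← Real.exp_neg, ← Real.exp_neg]
    have := h.hq
    field_simp
    ring
  have Xls : ∀ y ∈ Icc (K.l 0) (K.u 0), K.row.Xl y = K.row.Xl (K.l 0) - K.col.rl 0 / K.q + Real.exp (K.q * y) / K.q := by
    intro y hy
    have e1 := Xl_sub K.row hcg (K.l 0) y
    have e2 : (∫ t in (K.l 0)..y, K.row.rl t) = ∫ t in (K.l 0)..y, Real.exp (K.q * t) := by
      refine intervalIntegral.integral_congr fun t ht => ?_
      rw [uIcc_of_le hy.1] at ht
      exact hrs t ⟨ht.1, ht.2.trans hy.2⟩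
    have dq : ∀ y, HasDerivAt (fun y => Real.exp (K.q * y) / K.q) (Real.exp (K.q * y)) y := by
      intro y
      have h2 := (exp_d K.q y).div_const K.q
      rwa [mul_div_cancel_right₀ _ h.hq] at h2
    rw [e2, intervalIntegral.integral_eq_sub_of_hasDerivAt (fun y _ => dq y) (Continuous.intervalIntegrable (by fun_prop) _ _), ← hr0] at e1
    linarith
  have I1s : (∫ y in (K.l 0)..(K.u 0), K.row.Xl y / K.row.rl y) =
      (K.row.Xl (K.l 0) - K.col.rl 0 / K.q) * (∫ y in (K.l 0)..(K.u 0), 1 / K.row.rl y) + (K.u 0 - K.l 0) / K.q := by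
    have i1 : IntervalIntegrable (fun y => (K.row.Xl (K.l 0) - K.col.rl 0 / K.q) * (1 / K.row.rl y)) volume (K.l 0) (K.u 0) :=
      Continuous.intervalIntegrable (continuous_const.mul c1) _ _
    have e1 : (∫ y in (K.l 0)..(K.u 0), K.row.Xl y / K.row.rl y) =
        ∫ y in (K.l 0)..(K.u 0), ((K.row.Xl (K.l 0) - K.col.rl 0 / K.q) * (1 / K.row.rl y) + 1 / K.q) := by
      refine intervalIntegral.integral_congr fun y hy => ?_
      rw [uIcc_of_le hlu] at hy
      rw [Xls y hy, hrs y hy]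
      have h1 := h.hq
      have h2 := (Real.exp_pos (K.q * y)).ne'
      field_simp
    rw [e1, intervalIntegral.integral_add i1 (by simp), intervalIntegral.integral_const_mul, intervalIntegral.integral_const]
    simp only [smul_eq_mul]
    ring
  have I0n := near_I0 K h hg hl
  have I1n := near_I1 K h hg hl
  have W0 := near_W K h hg hl (x := 0) ⟨le_rfl, hg.le⟩
  rw [K.col.Xl_zero, sub_zero] at W0
  -- the loop integrals of the row view
  have hN0 : K.row.N 0 = K.p * K.col.D := by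
    rw [← hD]
    unfold Dat.D
    have : K.row.q = K.p := rfl
    rw [this, mul_div_cancel₀ _ h.hp]
  have hN1 : K.row.N 1 = K.row.a * (K.p * K.col.D) := by
    rw [← hN0]
    unfold Dat.a
    rw [div_mul_cancel₀ _ (K.row.N0_ne hregR)]
  have hP0 : (∫ y in (0:ℝ)..K.h, 1 / K.row.rl y) - (∫ y in (0:ℝ)..K.h, 1 / K.row.ru y) = K.p * K.col.D := by
    rw [← hN0, ← intervalIntegral.integral_sub (c1.intervalIntegrable _ _) (c3.intervalIntegrable _ _)]
    unfold Dat.N
    refine intervalIntegral.integral_congr fun y _ => ?_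
    simp only [pow_zero]
  have hP1 : (∫ y in (0:ℝ)..K.h, K.row.Xl y / K.row.rl y) - (∫ y in (0:ℝ)..K.h, K.row.Xu y / K.row.ru y) = K.row.a * (K.p * K.col.D) := by
    rw [← hN1, ← intervalIntegral.integral_sub (c2.intervalIntegrable _ _) (c4.intervalIntegrable _ _)]
    unfold Dat.N
    refine intervalIntegral.integral_congr fun y _ => ?_
    simp only [pow_one]
  -- `p * Xi z`
  set z := K.g 0 with hz
  set al := K.col.al 0 z with hal
  set IW := ∫ t in (0:ℝ)..z, K.row.Xl (K.l t) / K.col.rl t with hIW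
  have hal' : al = K.col.rl z + K.p * (K.col.a - K.col.Xl z) := by
    rw [hal]
    unfold Dat.al
    change K.col.rl z + (K.p + K.q * 0) * (K.col.a - K.col.Xl z) = _
    ring
  have cC := K.col.rl_cont hcl
  have hcol1 : Continuous fun t => 1 / K.col.rl t := continuous_const.div cC fun y => (K.col.rl_pos y).ne'
  have hXi : K.p * K.col.Xi z = al * K.col.Ri z + K.q * IW - z := by
    unfold Dat.Xi Dat.Ri
    have c5 : Continuous fun t => K.row.Xl (K.l t) / K.col.rl t :=
      (cXl.comp h.cl).div cC fun y => (K.col.rl_pos y).ne'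
    have i1 : IntervalIntegrable (fun t => al * (1 / K.col.rl t)) volume 0 z := Continuous.intervalIntegrable (continuous_const.mul hcol1) _ _
    have i2 : IntervalIntegrable (fun t => K.q * (K.row.Xl (K.l t) / K.col.rl t)) volume 0 z :=
      Continuous.intervalIntegrable (continuous_const.mul c5) _ _
    have e1 : al * (∫ t in (0:ℝ)..z, 1 / K.col.rl t) + K.q * IW - z =
        ∫ t in (0:ℝ)..z, (al * (1 / K.col.rl t) + K.q * (K.row.Xl (K.l t) / K.col.rl t) - 1) := by
      rw [intervalIntegral.integral_sub (i1.add i2) (by simp), intervalIntegral.integral_add i1 i2, intervalIntegral.integral_const_mul,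
        intervalIntegral.integral_const_mul, intervalIntegral.integral_const]
      simp [hIW]
    rw [e1, ← intervalIntegral.integral_const_mul]
    refine intervalIntegral.integral_congr fun t ht => ?_
    rw [uIcc_of_le hg.le] at ht
    have h7 := near_W K h hg hl ht
    have h8 := (K.col.rl_pos t).ne'
    have h9 : K.q * (K.row.Xl (K.l t) / K.col.rl t) = (K.q * K.row.Xl (K.l t)) / K.col.rl t := by ring
    rw [h9, h7, hal']
    field_simp
    ring
  -- the identity
  have hq' := h.hq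
  have hp' := h.hp
  have nZ := (K.col.rl_pos z).ne'
  have nr := (K.col.rl_pos 0).ne'
  have ns := (K.col.ru_pos 0).ne'
  have j0 : (∫ y in (K.u 0)..K.h, 1 / K.row.rl y) = (∫ y in (0:ℝ)..K.h, 1 / K.row.rl y) - (∫ y in (0:ℝ)..(K.l 0), 1 / K.row.rl y) -
      ∫ y in (K.l 0)..(K.u 0), 1 / K.row.rl y := by
    rw [← intervalIntegral.integral_add_adjacent_intervals (c1.intervalIntegrable 0 (K.l 0)) (c1.intervalIntegrable (K.l 0) K.h),
      ← intervalIntegral.integral_add_adjacent_intervals (c1.intervalIntegrable (K.l 0) (K.u 0)) (c1.intervalIntegrable (K.u 0) K.h)]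
    ring
  have j1 : (∫ y in (K.u 0)..K.h, K.row.Xl y / K.row.rl y) = (∫ y in (0:ℝ)..K.h, K.row.Xl y / K.row.rl y) -
      (∫ y in (0:ℝ)..(K.l 0), K.row.Xl y / K.row.rl y) - ∫ y in (K.l 0)..(K.u 0), K.row.Xl y / K.row.rl y := by
    rw [← intervalIntegral.integral_add_adjacent_intervals (c2.intervalIntegrable 0 (K.l 0)) (c2.intervalIntegrable (K.l 0) K.h),
      ← intervalIntegral.integral_add_adjacent_intervals (c2.intervalIntegrable (K.l 0) (K.u 0)) (c2.intervalIntegrable (K.u 0) K.h)]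
    ring
  set C := al + K.p * K.q * K.col.M with hC
  have key : K.p * (K.col.Nz z - K.col.ms) =
      (∫ y in (0:ℝ)..K.h, (C + K.q * K.row.Xu y) / K.row.ru y) - (∫ y in (K.u 0)..K.h, (C + K.q * K.row.Xl y) / K.row.rl y) - K.u 0 := by
    have s1 : (∫ y in (0:ℝ)..K.h, (C + K.q * K.row.Xu y) / K.row.ru y) =
        C * (∫ y in (0:ℝ)..K.h, 1 / K.row.ru y) + K.q * ∫ y in (0:ℝ)..K.h, K.row.Xu y / K.row.ru y := by
      have i1 : IntervalIntegrable (fun y => C * (1 / K.row.ru y)) volume 0 K.h := Continuous.intervalIntegrable (continuous_const.mul c3) _ _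
      have i2 : IntervalIntegrable (fun y => K.q * (K.row.Xu y / K.row.ru y)) volume 0 K.h :=
        Continuous.intervalIntegrable (continuous_const.mul c4) _ _
      rw [← intervalIntegral.integral_const_mul, ← intervalIntegral.integral_const_mul, ← intervalIntegral.integral_add i1 i2]
      congr 1
      funext y
      ring
    have s2 : (∫ y in (K.u 0)..K.h, (C + K.q * K.row.Xl y) / K.row.rl y) =
        C * (∫ y in (K.u 0)..K.h, 1 / K.row.rl y) + K.q * ∫ y in (K.u 0)..K.h, K.row.Xl y / K.row.rl y := by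
      have i1 : IntervalIntegrable (fun y => C * (1 / K.row.rl y)) volume (K.u 0) K.h := Continuous.intervalIntegrable (continuous_const.mul c1) _ _
      have i2 : IntervalIntegrable (fun y => K.q * (K.row.Xl y / K.row.rl y)) volume (K.u 0) K.h :=
        Continuous.intervalIntegrable (continuous_const.mul c2) _ _
      rw [← intervalIntegral.integral_const_mul, ← intervalIntegral.integral_const_mul, ← intervalIntegral.integral_add i1 i2]
      congr 1
      funext y
      ring
    rw [s1, s2, j0, j1]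
    have hNz : K.q * K.col.Nz z = K.col.Fl z - K.col.a / K.col.rl 0 + z + K.p * K.col.Xi z := by
      unfold Dat.Nz Dat.Fl
      change K.q * (((K.col.a - K.col.Xl z) / K.col.rl z - K.col.a / K.col.rl 0 + z + K.p * K.col.Xi z) / K.q) = _
      rw [mul_div_cancel₀ _ hq']
    have hms : K.q * K.col.ms = K.q * K.col.M / K.col.ru 0 - (1 / K.col.rl 0 - 1 / K.col.ru 0) * K.col.a := by
      unfold Dat.ms Dat.n0
      change K.q * (K.col.M / K.col.ru 0 - (1 / K.col.rl 0 - 1 / K.col.ru 0) / K.q * K.col.a) = _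
      field_simp
    have hF : K.p * K.col.Fl z = al / K.col.rl z - 1 := by
      rw [hal']
      unfold Dat.Fl
      field_simp
      ring
    have hRa : K.q * K.row.a = K.col.M / K.col.D * (1 / K.col.rl z + K.p * K.col.Ri z) - al - K.p * K.q * K.col.M := by
      have e1 : K.q * K.col.et z = K.col.M / K.col.D * (1 / K.col.rl z + K.p * K.col.Ri z) - K.col.rl 0 - K.p * K.col.a -
          K.p * K.q * K.col.M := by
        unfold Dat.et Dat.Ri
        change K.q * ((K.col.M / K.col.D * (1 / K.col.rl z + K.p * ∫ t in (0:ℝ)..z, 1 / K.col.rl t) - K.col.rl 0 - K.p * K.col.a -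
          K.p * K.q * K.col.M) / K.q) = _
        rw [mul_div_cancel₀ _ hq']
      rw [hs, mul_sub, W0] at e1
      rw [hal']
      linarith
    have hDn := hDpos.ne'
    -- eliminate
    have t1 : K.p * K.q * (K.col.Nz z - K.col.ms) = al / K.col.rl z - 1 + K.p * (al * K.col.Ri z + K.q * IW) -
        (K.p * K.col.a + K.p * K.q * K.col.M) / K.col.ru 0 := by
      have e1 : K.p * K.q * (K.col.Nz z - K.col.ms) = K.p * (K.q * K.col.Nz z) - K.p * (K.q * K.col.ms) := by ring
      rw [e1, hNz, hms, hXi]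
      have e2 : K.p * (K.col.Fl z - K.col.a / K.col.rl 0 + z + (al * K.col.Ri z + K.q * IW - z)) -
          K.p * (K.q * K.col.M / K.col.ru 0 - (1 / K.col.rl 0 - 1 / K.col.ru 0) * K.col.a) =
          K.p * K.col.Fl z + K.p * (al * K.col.Ri z + K.q * IW) - (K.p * K.col.a + K.p * K.q * K.col.M) / K.col.ru 0 := by
        ring
      rw [e2, hF]
    set i0 := ∫ y in (0:ℝ)..(K.l 0), 1 / K.row.rl y with hi0
    set i1 := ∫ y in (0:ℝ)..(K.l 0), K.row.Xl y / K.row.rl y with hi1
    set k0 := ∫ y in (K.l 0)..(K.u 0), 1 / K.row.rl y with hk0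
    set k1 := ∫ y in (K.l 0)..(K.u 0), K.row.Xl y / K.row.rl y with hk1
    set P0 := ∫ y in (0:ℝ)..K.h, 1 / K.row.rl y with hP0'
    set P1 := ∫ y in (0:ℝ)..K.h, K.row.Xl y / K.row.rl y with hP1'
    set Q0 := ∫ y in (0:ℝ)..K.h, 1 / K.row.ru y with hQ0'
    set Q1 := ∫ y in (0:ℝ)..K.h, K.row.Xu y / K.row.ru y with hQ1'
    have u1 : K.q * k1 = (K.row.Xl (K.l 0) - K.col.rl 0 / K.q) * (1 / K.col.rl 0 - 1 / K.col.ru 0) + (K.u 0 - K.l 0) := by
      rw [I1s, ← I0s]
      field_simp
    have e3 : Q0 - (P0 - i0 - k0) = i0 + k0 - K.p * K.col.D := by linarith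
    have e4 : Q1 - (P1 - i1 - k1) = i1 + k1 - K.row.a * (K.p * K.col.D) := by linarith
    have e5 : C * Q0 + K.q * Q1 - (C * (P0 - i0 - k0) + K.q * (P1 - i1 - k1)) - K.u 0 =
        C * (i0 + k0 - K.p * K.col.D) + K.q * (i1 + k1 - K.row.a * (K.p * K.col.D)) - K.u 0 := by
      rw [← e3, ← e4]
      ring
    rw [e5]
    have e6 : K.q * (C * (i0 + k0 - K.p * K.col.D) + K.q * (i1 + k1 - K.row.a * (K.p * K.col.D)) - K.u 0) =
        C * (K.q * i0 + K.q * k0) + K.q * (K.q * i1 + K.q * k1) - K.p * K.q * K.col.D * (C + K.q * K.row.a) - K.q * K.u 0 := by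
      ring
    have e7 : K.q * (K.p * (K.col.Nz z - K.col.ms)) = K.p * K.q * (K.col.Nz z - K.col.ms) := by ring
    apply mul_left_cancel₀ hq'
    rw [e6, e7, t1, I0n, I0s, I1n, u1, hRa, hC]
    have W0' : K.row.Xl (K.l 0) = (K.col.rl 0 - K.col.rl z + K.p * K.col.Xl z) / K.q := by
      rw [← W0, mul_div_cancel_left₀ _ hq']
    rw [W0', hal']
    field_simp
    ring
  -- the sign
  have hXum : ∀ y ∈ Icc 0 K.h, 0 ≤ K.row.Xu y + K.p * K.col.M := by
    intro y hy
    have hmono : Monotone K.row.Xu := by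
      refine monotone_of_deriv_nonneg (fun x => (K.row.Xu_deriv h.hp hcg hcr x).differentiableAt) fun x => ?_
      rw [(K.row.Xu_deriv h.hp hcg hcr x).deriv]
      exact (K.row.ru_pos x).le
    have e1 := hmono hy.1
    have e2 : K.row.Xu 0 = - (K.p * K.row.M) := K.row.Xu_zero
    rw [e2, hM] at e1
    linarith
  have hneg : ∀ y ∈ Icc 0 K.h, C + K.q * K.row.Xu y ≤ 0 := by
    intro y hy
    have e1 := hXum y hy
    have e2 : C + K.q * K.row.Xu y = al + K.q * (K.row.Xu y + K.p * K.col.M) := by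
      rw [hC]
      ring
    rw [e2]
    have := mul_nonpos_of_nonpos_of_nonneg hq.le e1
    linarith
  have cA : Continuous fun y => (C + K.q * K.row.Xu y) / K.row.ru y := by
    refine Continuous.div (by fun_prop) cRu fun y => (K.row.ru_pos y).ne'
  have cB : Continuous fun y => (C + K.q * K.row.Xl y) / K.row.rl y := by
    refine Continuous.div (by fun_prop) cRl fun y => (K.row.rl_pos y).ne'
  have f1 : (∫ y in (0:ℝ)..K.h, (C + K.q * K.row.Xu y) / K.row.ru y) ≤ ∫ y in (K.u 0)..K.h, (C + K.q * K.row.Xl y) / K.row.rl y := by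
    rw [← intervalIntegral.integral_add_adjacent_intervals (cA.intervalIntegrable 0 (K.u 0)) (cA.intervalIntegrable (K.u 0) K.h)]
    have g1 : (∫ y in (0:ℝ)..(K.u 0), (C + K.q * K.row.Xu y) / K.row.ru y) ≤ 0 := by
      have g2 : 0 ≤ ∫ y in (0:ℝ)..(K.u 0), - ((C + K.q * K.row.Xu y) / K.row.ru y) := by
        refine intervalIntegral.integral_nonneg (hl.le.trans hlu) fun y hy => ?_
        have := hneg y ⟨hy.1, hy.2.trans huh⟩
        have g3 := div_nonpos_of_nonpos_of_nonneg this (K.row.ru_pos y).le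
        linarith
      rw [intervalIntegral.integral_neg] at g2
      linarith
    have g4 : (∫ y in (K.u 0)..K.h, (C + K.q * K.row.Xu y) / K.row.ru y) ≤ ∫ y in (K.u 0)..K.h, (C + K.q * K.row.Xl y) / K.row.rl y := by
      refine intervalIntegral.integral_mono_on huh (cA.intervalIntegrable _ _) (cB.intervalIntegrable _ _) fun y hy => ?_
      have hy' : y ∈ Icc 0 K.h := ⟨(hl.le.trans hlu).trans hy.1, hy.2⟩
      have g5 := hneg y hy'
      have g6 := K.row.mr_nonneg hregR y hy'
      have g7 : K.row.Xl y = K.row.Xu y + K.p * K.row.mr y := by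
        have : K.row.Xu y = K.row.Xl y - K.p * K.row.mr y := rfl
        rw [this]
        ring
      have g8 : C + K.q * K.row.Xu y ≤ C + K.q * K.row.Xl y := by
        rw [g7]
        have := mul_nonneg (mul_nonneg_of_nonpos_of_nonpos hq.le hp.le) g6
        nlinarith
      have g9 : K.row.ru y ≤ K.row.rl y := by
        change Real.exp (K.q * y + K.p * K.r y) ≤ Real.exp (K.q * y + K.p * K.g y)
        refine Real.exp_le_exp.2 ?_
        have := h.gr y hy'
        nlinarith
      calc (C + K.q * K.row.Xu y) / K.row.ru y ≤ (C + K.q * K.row.Xu y) / K.row.rl y := by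
            rw [div_le_div_iff₀ (K.row.ru_pos y) (K.row.rl_pos y)]
            exact mul_le_mul_of_nonpos_left g9 g5
        _ ≤ (C + K.q * K.row.Xl y) / K.row.rl y := by
            exact div_le_div_of_nonneg_right g8 (K.row.rl_pos y).le
    linarith
  have hu0 : 0 < K.u 0 := lt_of_lt_of_le hl hlu
  have f2 : K.p * (K.col.Nz z - K.col.ms) < 0 := by
    rw [key]
    linarith
  by_contra hcon
  push Not at hcon
  have : 0 ≤ K.p * (K.col.Nz z - K.col.ms) := mul_nonneg_of_nonpos_of_nonpos hp.le (by linarith)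
  linarith

end Pool.Agent.Lib.MP_1dedaf_gt.DK
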