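import Pool.Agent.Lib.MP_1dedaf_gt.DK.EP.MV4
import Pool.Agent.Lib.MP_1dedaf_gt.Mg.G034
import Pool.Agent.Lib.MP_1dedaf_gt.DK.EP.U1
import Pool.Agent.Lib.MP_1dedaf_gt.DK.EP.U2
import Pool.Agent.Lib.MP_1dedaf_gt.Mg.G026
import Pool.Agent.Lib.MP_1dedaf_gt.Mg.G041
import Pool.Agent.Lib.MP_1dedaf_gt.DK.A3

/-!
# Campaign EP, EG: there is no negative minimiser in normal position
-/

set_option autoImplicit false

open MeasureTheory Set Filter Topology

namespace Pool.Agent.Lib.MP_1dedaf_gt.DK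

/-- The inequality from the other view. -/
def ESO : Prop := ∀ (k : ℕ), PosK k → ∀ (K : Dat), K.Cx → ∀ (T : Finset (ℝ × ℝ)) (z kt : ℝ), T.card ≤ k + 1 → K.Arc T z kt → K.j z kt < 0 →
  0 < K.qE z kt 0 / K.q

/-- `j` is constant along the line `y = 0`, and so is `Nz`. -/
theorem EG_Nz (K : Dat) (h : K.Reg) {x0 x1 : ℝ} (h01 : x0 ≤ x1) (hl : ∀ x ∈ Icc x0 x1, K.l x = 0) : K.Nz x1 = K.Nz x0 := by
  have h1 : K.j x1 0 = K.j x0 0 := by
    refine j_aff K h h01 fun x hx => ?_
    rw [hl x hx, hl x0 ⟨le_rfl, h01⟩]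
    ring
  have h2 : ∀ x, K.Nz x = K.j x 0 + (2 * K.xb / K.M + K.p * K.psi - K.a / K.rl 0) / K.q := by
    intro x
    unfold Dat.Nz Dat.j Dat.Phi
    rw [← add_div]
    congr 1
    ring
  rw [h2, h2, h1]

/-- `qE` does not depend on the contact point. -/
theorem EG_qE (K : Dat) (h : K.Reg) {x0 x1 : ℝ} (h01 : x0 ≤ x1) (hl : ∀ x ∈ Icc x0 x1, K.l x = 0) (x : ℝ) : K.qE x1 0 x = K.qE x0 0 x := by
  -- `1 / rl z + p Ri z` is constant
  have hcl := h.cl
  have key : 1 / K.rl x1 + K.p * K.Ri x1 = 1 / K.rl x0 + K.p * K.Ri x0 := by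
    have hr : ∀ t ∈ Icc x0 x1, K.rl t = Real.exp (K.p * t) := by
      intro t ht
      unfold Dat.rl
      rw [hl t ht, mul_zero, add_zero]
    have hR : K.Ri x1 - K.Ri x0 = ∫ t in x0..x1, Real.exp (-(K.p * t)) := by
      unfold Dat.Ri
      have hc : Continuous fun t => 1 / K.rl t := continuous_const.div (K.rl_cont hcl) fun x => (K.rl_pos x).ne'
      rw [intervalIntegral.integral_interval_sub_left (hc.intervalIntegrable _ _) (hc.intervalIntegrable _ _)]
      refine intervalIntegral.integral_congr fun t ht => ?_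
      rw [uIcc_of_le h01] at ht
      show 1 / K.rl t = _
      rw [hr t ht, Real.exp_neg, one_div]
    have hd : ∀ t ∈ uIcc x0 x1, HasDerivAt (fun t => -Real.exp (-(K.p * t))) (K.p * Real.exp (-(K.p * t))) t := by
      intro t _
      have h1 : HasDerivAt (fun t : ℝ => -(K.p * t)) (-(K.p * 1)) t := ((hasDerivAt_id t).const_mul K.p).neg
      exact h1.exp.neg.congr_deriv (by ring)
    have hI := intervalIntegral.integral_eq_sub_of_hasDerivAt hd ((by fun_prop : Continuous fun t => K.p * Real.exp (-(K.p * t))).intervalIntegrable _ _)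
    rw [intervalIntegral.integral_const_mul, ← hR] at hI
    rw [hr x1 ⟨h01, le_rfl⟩, hr x0 ⟨le_rfl, h01⟩, one_div, one_div, ← Real.exp_neg, ← Real.exp_neg]
    linarith
  unfold Dat.qE Dat.Lam
  have hD := (K.D_pos h).ne'
  have e : ∀ z, K.M * (1 / (K.D * K.rl z) + (K.p + K.q * 0) * (K.Ri z / K.D - K.q)) =
      K.M / K.D * (1 / K.rl z + K.p * K.Ri z) - K.M * K.p * K.q := by
    intro z
    have := (K.rl_pos z).ne'
    field_simp
    ring
  rw [e, e, key]

/-- `et` in terms of `qE`. -/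
theorem EG_et (K : Dat) (h : K.Reg) (z : ℝ) : K.et z = K.qE z 0 0 / K.q := by
  unfold Dat.et Dat.qE Dat.Lam Dat.al
  rw [K.Xl_zero]
  have hD := (K.D_pos h).ne'
  have h0 := (K.rl_pos z).ne'
  congr 1
  change K.M / K.D * (1 / K.rl z + K.p * K.Ri z) - K.rl 0 - K.p * K.a - K.p * K.q * K.M = _
  field_simp
  ring

theorem nf_false {m : ℕ} (hm : PosK m) (hES : ESO) (B : EB) (hS : B.S.card ≤ m) {nu xs xt x1 : ℝ} (h : B.Nf nu xs xt x1)
    (hn : B.Min (nth nu xt x1)) (hg : B.k1 < 0 ∨ (x1 < B.w ∧ (B.nd nu xt).Xl x1 < (B.nd nu xt).a)) : False := by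
  classical
  set K := B.nd nu xt with hK
  have hKw : K.w = B.w := rfl
  have hKq : K.q = B.q := rfl
  have hcx : K.Cx := nf_cx B h
  have hreg : K.Reg := hcx.toReg
  obtain ⟨l1, l2, l3, -, -⟩ := nf_l B h
  have harc := nf_arc B h
  obtain ⟨hj, hPhi, hE⟩ := nf_phi hm B hS h hn
  rw [← hK] at l1 l2 l3 harc hj hPhi hE
  have hM := K.M_pos hreg
  have hxt := h.xt0
  have hxw := h.xtw
  have hmx : ∀ {x : ℝ}, 0 ≤ x → x ≤ B.w → x ∈ Icc 0 K.w := fun a b => ⟨a, b⟩
  -- `xt < x1`
  have hlt : xt < x1 := by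
    rcases h.ht1.lt_or_eq with h1 | h1
    · exact h1
    · exfalso
      rcases h.hx1.lt_or_eq with h2 | h2
      · have h3 := EB.nf_par h hn h2
        rw [← hK, h1, intervalIntegral.integral_same, zero_div, zero_sub] at h3
        have h4 : 0 < K.Fl x1 := by
          rw [← h1]
          exact div_pos (by linarith) (K.rl_pos xt)
        have := mul_pos hM h4
        linarith
      · have h3 := opp_gen K hreg hcx.vl hcx.vu
        rw [hKw, ← h2, ← h1] at h3
        linarith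
  -- the other view
  have het : 0 < K.qE x1 0 0 / K.q := hES m hm K hcx _ x1 0 ((Finset.card_insert_le _ _).trans (by omega)) harc hj
  have hSd : 0 ≤ K.Sd x1 := nf_sd h hn
  have het' : K.et x1 = K.qE x1 0 0 / K.q := EG_et K hreg x1
  have m0 : (0:ℝ) ∈ Icc 0 K.w := ⟨le_rfl, hreg.hw.le⟩
  -- the side `x = 0` is not degenerate
  have hu0 : K.l 0 < K.u 0 := by
    rcases (hreg.lu 0 m0).lt_or_eq with h1 | h1
    · exact h1
    · exfalso
      have e1 : K.ru 0 = K.rl 0 := by
        unfold Dat.ru Dat.rl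
        rw [h1]
      have e2 : K.mu 0 = 0 := by
        unfold Dat.mu
        rw [e1, sub_self, zero_div]
      have e3 : K.n0 = 0 := by
        unfold Dat.n0
        rw [e1, sub_self, zero_div]
      have e4 : K.ms = K.M / K.ru 0 := by
        unfold Dat.ms
        rw [e3, zero_mul, sub_zero]
      have e5 : 0 < K.ms := by
        rw [e4]
        exact div_pos hM (K.ru_pos 0)
      have e6 : K.Sd x1 = - (K.et x1 * K.ms) := by
        unfold Dat.Sd
        rw [e2]
        ring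
      rw [e6, het'] at hSd
      have := mul_pos het e5
      linarith
  have hmu : 0 < K.mu 0 := Dat.A1_mu_pos K hreg.hq 0 hu0
  have hlu : nu * xt < B.u 0 := by
    have h1 : nu * xt ≤ K.l 0 := by
      show nu * xt ≤ max (B.L 0) (max (nu * (xt - 0)) 0)
      rw [sub_zero]
      exact (le_max_left _ _).trans (le_max_right _ _)
    exact lt_of_le_of_lt h1 hu0
  obtain ⟨he1, he2⟩ := EB.nf_e h hn hlu hlt
  rw [← hK] at he1 he2
  -- slopes
  have hl_e : ∀ x ∈ Icc xs xt, K.l x = K.l xt + (0 - nu) * (x - xt) := by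
    intro x hx
    rw [l1 x hx, l1 xt ⟨h.hst.le, le_rfl⟩]
    ring
  have hl_t : ∀ x ∈ Icc xt x1, K.l x = K.l x1 + 0 * (x - x1) := by
    intro x hx
    rw [l2 x hx, l2 x1 ⟨hlt.le, le_rfl⟩]
    ring
  have hlxt : K.l xt = 0 := l2 xt ⟨le_rfl, hlt.le⟩
  -- `l` is antitone on `[0, xt]`
  have hanti : ∀ t ∈ Icc 0 xt, ∀ s ∈ Icc 0 xt, t ≤ s → K.l s - 0 * s ≤ K.l t - 0 * t := by
    intro t ht s hs hts
    rw [zero_mul, zero_mul, sub_zero, sub_zero]
    have hseg : s ∈ segment ℝ t xt := by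
      rw [segment_eq_Icc (ht.2)]
      exact ⟨hts, hs.2⟩
    have h1 := hcx.vl.le_max_of_mem_segment (hmx ht.1 (ht.2.trans hxw)) (hmx hxt.le hxw) hseg
    rw [hlxt, max_eq_left (l3 t ⟨ht.1, ht.2.trans hxw⟩)] at h1
    exact h1
  have hqxt : 0 ≤ K.qE x1 0 xt / K.q := het.le.trans (qE_mono K hreg hxt.le hanti)
  have hrot : ∃ c, (∫ x in xs..xt, K.rl x * K.Gt x1 0 x * (x - c)) / K.q ≤ 0 := ⟨0, he2 0⟩
  have hal : ∀ x ∈ Icc xt x1, K.al 0 x = K.al 0 xt := fun x hx => al_t K hreg.cl hl_t hx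
  rcases le_or_gt 0 (K.al 0 xt) with ha | ha
  · -- the end of `t`
    have hpr : (K.Xl x1 ≤ K.a ∧ 0 ≤ (∫ x in xt..x1, K.rl x * K.Gt x1 0 x) / K.q - K.M * K.Fl x1) ∨
        (K.Phi x1 ≤ 0 ∧ 0 ≤ (∫ x in xt..x1, K.rl x * K.Gt x1 0 x * (x1 - x)) / K.q + K.M * K.Phi x1) := by
      rcases h.hx1.lt_or_eq with h1 | h1
      · rcases le_or_gt (K.Xl x1) K.a with h2 | h2
        · exact Or.inl ⟨h2, EB.nf_par h hn h1⟩
        · rcases hg with h3 | h3
          · exact Or.inr ⟨phi_le K hcx (hmx (hxt.le.trans hlt.le) h.hx1) h2.le, EB.nf_rot h hn h3⟩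
          · exact absurd h3.2 (not_lt.2 h2.le)
      · rcases hg with h3 | h3
        · have h4 := opp_gen K hreg hcx.vl hcx.vu
          rw [hKw, ← h1] at h4
          exact Or.inr ⟨h4, EB.nf_rot h hn h3⟩
        · exact absurd h3.1 (not_lt.2 h1.ge)
    have hG := end_t2 K hreg hlt hl_t hqxt ha hpr
    exact near_e K hreg h.hst h.hnu hl_e (Or.inl hG) he1 hrot
  · rcases lt_or_gt_of_ne hreg.hq with hq | hq
    · -- `q < 0`
      have hp : K.p < 0 := by
        by_contra hp
        push Not at hp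
        have h1 : 0 ≤ (K.p + K.q * 0) * (K.a - K.Xl xt) := mul_nonneg (by simpa using hp) (by linarith)
        have h2 := K.rl_pos xt
        unfold Dat.al at ha
        linarith
      have h1 : K.Xl K.w < K.a := Xl_w_lt K hreg hp hq l3 (hmx hxt.le hxw) hlxt ha.le
      have h2 : 0 ≤ K.ms := ms_nonneg K hreg hq hcx.vl hcx.vu h1.le
      obtain ⟨C, hC, hcol, -⟩ := exists_bd K.p K.q K.w K.l K.u hp.ne hreg.hq hreg.hw hreg.cl hreg.cu hcx.vl hcx.vu hreg.lu hreg.fat l3 ⟨xt, hmx hxt.le hxw, hlxt⟩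
      have hCc : C.col = K := hcol
      have hCl : C.l = K.l := congrArg Dat.l hCc
      have hCw : C.w = K.w := congrArg Dat.w hCc
      have hCu : C.u = K.u := congrArg Dat.u hCc
      have hCp : C.p = K.p := congrArg Dat.p hCc
      have hCq : C.q = K.q := congrArg Dat.q hCc
      obtain ⟨f1, f2, f3, f4, f5, f6⟩ := near_facts C hC
      have hg0 : C.g 0 = xt := by
        have a1 : xt ≤ C.g 0 := by
          by_contra hlt'
          push Not at hlt'
          have b1 : 0 ≤ C.g 0 := f2 0 ⟨le_rfl, hC.hh.le⟩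
          have b2 : nu * (xt - C.g 0) ≤ K.l (C.g 0) := by
            show nu * (xt - C.g 0) ≤ max (B.L (C.g 0)) (max (nu * (xt - C.g 0)) 0)
            exact (le_max_left _ _).trans (le_max_right _ _)
          rw [← hCl, f5] at b2
          nlinarith [h.hnu]
        have a2 : C.g 0 ≤ xt := by
          have b1 : C.mem xt 0 := by
            refine ⟨hxt.le, ?_, ?_, ?_⟩
            · rw [hCw]; exact hxw
            · rw [hCl, hlxt]
            · rw [hCu]
              have := hreg.lu xt (hmx hxt.le hxw)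
              rw [hlxt] at this
              exact this
          exact ((hC.iff xt 0).1 b1).2.2.1
        exact le_antisymm a2 a1
      have hl0 : 0 < C.l 0 := by
        rw [hCl]
        have b2 : nu * (xt - 0) ≤ K.l 0 := by
          show nu * (xt - 0) ≤ max (B.L 0) (max (nu * (xt - 0)) 0)
          exact (le_max_left _ _).trans (le_max_right _ _)
        have := mul_pos h.hnu hxt
        linarith
      have h3 := ms_lt_Nz C hC (by rw [hg0]; exact hxt) hl0 (by rw [hCp]; exact hp) (by rw [hCq]; exact hq)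
        (sym C hC (by rw [hg0]; exact hxt) hl0).2 (by rw [hCc, hg0]; exact ha.le)
      rw [hCc, hg0] at h3
      have h4 : K.Nz x1 = K.Nz xt := EG_Nz K hreg hlt.le l2
      have h5 : K.Sd x1 < 0 := by
        unfold Dat.Sd
        rw [h4, het']
        have h6 : K.mu 0 * (K.ms - K.Nz xt) < 0 := mul_neg_of_pos_of_neg hmu (by linarith)
        have h7 : 0 ≤ K.qE x1 0 0 / K.q * K.ms := mul_nonneg het.le h2
        linarith
      linarith
    · -- `q > 0`
      have hH := HH_nonneg K hq (z := x1) (k := 0) (ν := nu) (x := xt) h.hnu.le hE.le hqxt ha.le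
      exact near_e K hreg h.hst h.hnu hl_e (Or.inr hH) he1 hrot

end Pool.Agent.Lib.MP_1dedaf_gt.DK
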