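import Pool.Agent.Lib.MP_1dedaf_gt.Mg.G039

/-!
# Campaign EP, FV3: moving one line of the lower boundary

The lower boundary is `max B m` on `[0, w]`; the line `m` is replaced by `m + ε φ`. `[x0, x1]` is the edge of `m`.
-/

set_option autoImplicit false

open MeasureTheory Set Filter Topology

namespace Pool.Agent.Lib.MP_1dedaf_gt.DK

/-- The one-sided derivative at a minimum is `≥ 0`. -/
theorem der_nonneg {f : ℝ → ℝ} {f' : ℝ} (h : HasDerivWithinAt f f' (Ici 0) 0) (hm : ∀ᶠ ε in 𝓝[>] (0:ℝ), f 0 ≤ f ε) : 0 ≤ f' := by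
  have h1 : HasDerivWithinAt f f' (Ioi 0) 0 := h.mono Ioi_subset_Ici_self
  rw [hasDerivWithinAt_iff_tendsto_slope' (by simp)] at h1
  refine ge_of_tendsto h1 ?_
  filter_upwards [hm, self_mem_nhdsWithin] with ε h2 h3
  rw [slope_def_field]
  have h4 : (0:ℝ) < ε := h3
  exact div_nonneg (by linarith) (by linarith)

/-- The lower boundary with the line `m` moved. -/
noncomputable def mvl (B m φ : ℝ → ℝ) (ε x : ℝ) : ℝ := max (B x) (m x + ε * φ x)

theorem mvl_lip (B m φ : ℝ → ℝ) (ε x : ℝ) : |mvl B m φ ε x - max (B x) (m x)| ≤ |ε * φ x| := by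
  unfold mvl
  have h2 : |max (B x) (m x + ε * φ x) - max (B x) (m x)| ≤ |(m x + ε * φ x) - m x| := by
    have h := abs_max_sub_max_le_max (B x) (m x + ε * φ x) (B x) (m x)
    rw [sub_self, abs_zero] at h
    rwa [max_eq_right (abs_nonneg (m x + ε * φ x - m x))] at h
  refine h2.trans (le_of_eq ?_)
  rw [add_sub_cancel_left]

theorem mvl_lim (m φ : ℝ → ℝ) (x : ℝ) : Tendsto (fun ε : ℝ => m x + ε * φ x) (𝓝[Ici 0] 0) (𝓝 (m x)) := by
  have h1 : Tendsto (fun ε : ℝ => m x + ε * φ x) (𝓝 0) (𝓝 (m x + 0 * φ x)) := (Continuous.tendsto (by fun_prop) 0)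
  rw [zero_mul, add_zero] at h1
  exact h1.mono_left nhdsWithin_le_nhds

/-- Points where the moving line does not matter. -/
theorem mvl_out (B m φ : ℝ → ℝ) (x : ℝ) (h : m x < B x) :
    HasDerivWithinAt (fun ε => mvl B m φ ε x) 0 (Ici 0) 0 := by
  have h1 : ∀ᶠ ε : ℝ in 𝓝[Ici 0] 0, m x + ε * φ x < B x := (mvl_lim m φ x).eventually_lt_const h
  refine (hasDerivWithinAt_const (0:ℝ) (Ici 0) (B x)).congr_of_eventuallyEq ?_ ?_
  · filter_upwards [h1] with ε hε
    show max (B x) (m x + ε * φ x) = _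
    rw [max_eq_left hε.le]
  · show max (B x) (m x + 0 * φ x) = _
    rw [zero_mul, add_zero, max_eq_left h.le]

/-- Points on the moving edge; where the fixed part touches, the motion must be inward. -/
theorem mvl_in (B m φ : ℝ → ℝ) (x : ℝ) (h1 : B x < m x ∨ (B x = m x ∧ 0 ≤ φ x)) :
    HasDerivWithinAt (fun ε => mvl B m φ ε x) (φ x) (Ici 0) 0 := by
  have h3 : ∀ᶠ ε : ℝ in 𝓝[Ici 0] 0, B x ≤ m x + ε * φ x := by
    rcases h1 with h1 | ⟨h1, h4⟩
    · filter_upwards [(mvl_lim m φ x).eventually_const_lt h1] with ε hε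
      exact hε.le
    · filter_upwards [self_mem_nhdsWithin] with ε hε
      rw [h1]
      have : 0 ≤ ε * φ x := mul_nonneg hε h4
      linarith
  have h4 : HasDerivWithinAt (fun ε : ℝ => m x + ε * φ x) (φ x) (Ici 0) 0 := by
    have := ((hasDerivAt_id (0:ℝ)).mul_const (φ x)).const_add (m x)
    rw [one_mul] at this
    exact this.hasDerivWithinAt
  refine h4.congr_of_eventuallyEq ?_ ?_
  · filter_upwards [h3] with ε hε'
    show max (B x) (m x + ε * φ x) = _
    rw [max_eq_right hε']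
  · have h5 : B x ≤ m x := by rcases h1 with h1 | h1; exacts [h1.le, h1.1.le]
    show max (B x) (m x + 0 * φ x) = _
    rw [zero_mul, add_zero, max_eq_right h5]

/-- Points which do not move. -/
theorem mvl_fix (B m φ : ℝ → ℝ) (x : ℝ) (h : φ x = 0) :
    HasDerivWithinAt (fun ε => mvl B m φ ε x) 0 (Ici 0) 0 := by
  refine (hasDerivWithinAt_const (0:ℝ) (Ici 0) (max (B x) (m x))).congr (fun ε _ => ?_) ?_
  · show max (B x) (m x + ε * φ x) = _
    rw [h, mul_zero, add_zero]
  · show max (B x) (m x + 0 * φ x) = _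
    rw [h, mul_zero, add_zero]

/-- The lower boundary is `max B m`, `[x0, x1]` is the edge of the line `m`, which moves with the velocity `φ`. -/
structure OnEdge (K : Dat) (B m φ : ℝ → ℝ) (x0 x1 : ℝ) : Prop where
  reg : K.Reg
  cB : Continuous B
  cm : Continuous m
  cφ : Continuous φ
  h0 : 0 ≤ x0
  h01 : x0 ≤ x1
  h1w : x1 ≤ K.w
  hl : ∀ x ∈ Icc 0 K.w, K.l x = max (B x) (m x)
  hin : ∀ x ∈ Ioo x0 x1, B x < m x ∨ (B x = m x ∧ 0 ≤ φ x)
  out : ∀ x ∈ Icc 0 K.w, x < x0 ∨ x1 < x → m x < B x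

theorem OnEdge.lvar {K : Dat} {B m φ : ℝ → ℝ} {x0 x1 : ℝ} (h : OnEdge K B m φ x0 x1) (z ηz : ℝ)
    (hz : x1 ≤ z) (hzw : z ≤ K.w) (dz : HasDerivWithinAt (fun ε => mvl B m φ ε z) ηz (Ici 0) 0) :
    LVar K {x0, x1} (mvl B m φ) (fun x => if x0 ≤ x ∧ x < x1 then φ x else 0) z ηz := by
  have cφ := h.cφ
  refine ⟨h.reg, (Set.finite_singleton x1).insert x0 |>.countable, ⟨fun ε => ?_, h.reg.cl, ?_, fun x hx hxS => ?_⟩,
    h.h0.trans (h.h01.trans hz), hzw, fun x hx => ?_, fun x => ?_, fun a b => ?_, dz⟩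
  · exact h.cB.max (h.cm.add (continuous_const.mul cφ))
  · obtain ⟨C, hC⟩ := isCompact_Icc.exists_bound_of_continuousOn (cφ.continuousOn (s := Icc 0 K.w))
    refine ⟨C, fun ε hε x hx => ?_⟩
    rw [h.hl x hx]
    refine (mvl_lip B m φ ε x).trans ?_
    rw [abs_mul, abs_of_nonneg hε.1, mul_comm]
    exact mul_le_mul_of_nonneg_right (hC x hx) hε.1
  · have hx0 : x ≠ x0 := fun e => hxS (by rw [e]; exact Set.mem_insert _ _)
    have hx1 : x ≠ x1 := fun e => hxS (by rw [e]; exact Set.mem_insert_of_mem _ rfl)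
    by_cases h1 : x0 ≤ x ∧ x < x1
    · rw [if_pos h1]
      exact mvl_in B m φ x (h.hin x ⟨lt_of_le_of_ne h1.1 (Ne.symm hx0), h1.2⟩)
    · rw [if_neg h1]
      refine mvl_out B m φ x (h.out x hx ?_)
      rcases lt_or_ge x x0 with h2 | h2
      · exact Or.inl h2
      · right
        have h3 : ¬ x < x1 := fun h3 => h1 ⟨h2, h3⟩
        exact lt_of_le_of_ne (not_lt.1 h3) (Ne.symm hx1)
  · exact if_neg fun h1 => absurd (hz.trans_lt hx) (not_lt.2 h1.2.le)
  · rcases lt_or_ge x x0 with h1 | h1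
    · have h2 : (fun x => if x0 ≤ x ∧ x < x1 then φ x else 0) =ᶠ[𝓝[Ici x] x] fun _ => 0 := by
        filter_upwards [mem_nhdsWithin_of_mem_nhds (Iio_mem_nhds h1)] with y hy
        exact if_neg fun h3 => absurd h3.1 (not_le.2 hy)
      exact (continuousWithinAt_const (b := (0:ℝ))).congr_of_eventuallyEq h2 (if_neg fun h3 => absurd h3.1 (not_le.2 h1))
    · rcases lt_or_ge x x1 with h4 | h4
      · have h2 : (fun x => if x0 ≤ x ∧ x < x1 then φ x else 0) =ᶠ[𝓝[Ici x] x] φ := by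
          filter_upwards [mem_nhdsWithin_of_mem_nhds (Iio_mem_nhds h4), self_mem_nhdsWithin] with y hy hy'
          exact if_pos ⟨h1.trans hy', hy⟩
        exact cφ.continuousWithinAt.congr_of_eventuallyEq h2 (if_pos ⟨h1, h4⟩)
      · have h2 : (fun x => if x0 ≤ x ∧ x < x1 then φ x else 0) =ᶠ[𝓝[Ici x] x] fun _ => 0 := by
          filter_upwards [self_mem_nhdsWithin] with y hy
          exact if_neg fun h3 => absurd h3.2 (not_lt.2 (h4.trans hy))
        exact (continuousWithinAt_const (b := (0:ℝ))).congr_of_eventuallyEq h2 (if_neg fun h3 => absurd h3.2 (not_lt.2 h4))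
  · have h1 : (fun x => if x0 ≤ x ∧ x < x1 then φ x else 0) = (Ico x0 x1).indicator φ := by
      funext x
      rw [Set.indicator_apply]
      rfl
    rw [h1, intervalIntegrable_iff]
    exact ((cφ.intervalIntegrable a b).def').indicator measurableSet_Ico

/-- The derivative of `mass * j` when the line `m` moves with the velocity `φ` and the slope of the line `t` with the velocity `k'`. -/
theorem OnEdge.dMj {K : Dat} {B m φ : ℝ → ℝ} {x0 x1 : ℝ} (h : OnEdge K B m φ x0 x1) (z ηz : ℝ)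
    (hz : x1 ≤ z) (hzw : z ≤ K.w) (dz : HasDerivWithinAt (fun ε => mvl B m φ ε z) ηz (Ici 0) 0) (k k' : ℝ) :
    HasDerivWithinAt (fun ε => (K.low (mvl B m φ ε)).M * (K.low (mvl B m φ ε)).j z (k + ε * k'))
      ((∫ x in x0..x1, K.rl x * K.Gt z k x * φ x) / K.q - K.M * (ηz * K.Fl z + k' * K.Phi z)) (Ici 0) 0 := by
  have h1 := (h.lvar z ηz hz hzw dz).dMj k k'
  have h2 : (∫ x in (0:ℝ)..z, (if x0 ≤ x ∧ x < x1 then φ x else 0) * (K.rl x * K.Gt z k x)) =
      ∫ x in x0..x1, K.rl x * K.Gt z k x * φ x := by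
    have hv := h.lvar z ηz hz hzw dz
    have hg : Continuous fun x => K.rl x * K.Gt z k x := hv.rlc.mul (Gt_cont K h.reg.cl z k)
    have i1 := fun a b => hv.iis _ hg a b
    rw [← intervalIntegral.integral_add_adjacent_intervals (i1 0 x0) (i1 x0 z),
      ← intervalIntegral.integral_add_adjacent_intervals (i1 x0 x1) (i1 x1 z)]
    have e1 : (∫ x in (0:ℝ)..x0, (if x0 ≤ x ∧ x < x1 then φ x else 0) * (K.rl x * K.Gt z k x)) = 0 := by
      rw [intervalIntegral.integral_congr_ae (g := fun _ => (0:ℝ)), intervalIntegral.integral_zero]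
      have h3 : ∀ᵐ x : ℝ, x ≠ x0 := by
        have := (Set.countable_singleton x0).ae_notMem volume
        exact this
      filter_upwards [h3] with x h4 hx
      rw [Set.uIoc_of_le h.h0] at hx
      have h5 : x < x0 := lt_of_le_of_ne hx.2 h4
      rw [if_neg fun h6 => absurd h6.1 (not_le.2 h5), zero_mul]
    have e2 : (∫ x in x1..z, (if x0 ≤ x ∧ x < x1 then φ x else 0) * (K.rl x * K.Gt z k x)) = 0 := by
      rw [intervalIntegral.integral_congr_ae (g := fun _ => (0:ℝ)), intervalIntegral.integral_zero]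
      refine Eventually.of_forall fun x hx => ?_
      rw [Set.uIoc_of_le hz] at hx
      rw [if_neg fun h6 => absurd h6.2 (not_lt.2 hx.1.le), zero_mul]
    have e3 : (∫ x in x0..x1, (if x0 ≤ x ∧ x < x1 then φ x else 0) * (K.rl x * K.Gt z k x)) =
        ∫ x in x0..x1, K.rl x * K.Gt z k x * φ x := by
      refine intervalIntegral.integral_congr_ae ?_
      have h3 : ∀ᵐ x : ℝ, x ≠ x1 := by
        have := (Set.countable_singleton x1).ae_notMem volume
        exact this
      filter_upwards [h3] with x h4 hx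
      rw [Set.uIoc_of_le h.h01] at hx
      rw [if_pos ⟨hx.1.le, lt_of_le_of_ne hx.2 h4⟩]
      ring
    rw [e1, e2, e3]
    ring
  rw [h2] at h1
  exact h1

end Pool.Agent.Lib.MP_1dedaf_gt.DK
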