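import Pool.Agent.Lib.MP_1dedaf_gt.Mg.G027
import Pool.Agent.Lib.MP_1dedaf_gt.DK.EP.FV3

/-!
# Campaign EP, FV4: the moves of the lines `t` and `e` at a minimiser in normal position
-/

set_option autoImplicit false

open MeasureTheory Set Filter Topology

namespace Pool.Agent.Lib.MP_1dedaf_gt.DK

/-- An affine function below a concave function at both end points is below it. -/
theorem lin_le {u : ℝ → ℝ} {w a b : ℝ} (hw : 0 < w) (vu : ConcaveOn ℝ (Icc 0 w) u) (h0 : b ≤ u 0) (h1 : a * w + b ≤ u w) {x : ℝ}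
    (hx : x ∈ Icc 0 w) : a * x + b ≤ u x := by
  have m0 : (0:ℝ) ∈ Icc 0 w := ⟨le_rfl, hw.le⟩
  have mw : w ∈ Icc 0 w := ⟨hw.le, le_rfl⟩
  have q0 : 0 ≤ 1 - x / w := by rw [sub_nonneg, div_le_one hw]; exact hx.2
  have q1 : 0 ≤ x / w := div_nonneg hx.1 hw.le
  have q2 : 1 - x / w + x / w = 1 := by ring
  have h2 := vu.2 m0 mw q0 q1 q2
  have h3 : (1 - x / w) • (0:ℝ) + (x / w) • w = x := by
    simp only [smul_eq_mul, mul_zero, zero_add]
    field_simp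
  rw [h3, smul_eq_mul, smul_eq_mul] at h2
  have h4 : 0 ≤ x / w := div_nonneg hx.1 hw.le
  have h5 : 0 ≤ 1 - x / w := by rw [sub_nonneg, div_le_one hw]; exact hx.2
  have h6 : a * x + b = (1 - x / w) * b + x / w * (a * w + b) := by field_simp; ring
  rw [h6]
  have h7 := mul_le_mul_of_nonneg_left h0 h5
  have h8 := mul_le_mul_of_nonneg_left h1 h4
  linarith

/-- Small perturbations of strict inequalities. -/
theorem ev_lt {f : ℝ → ℝ} (hf : Continuous f) {c : ℝ} (h : f 0 < c) : ∀ᶠ ε in 𝓝[>] (0:ℝ), f ε < c :=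
  ((hf.tendsto 0).mono_left nhdsWithin_le_nhds).eventually_lt_const h

namespace EB

variable {B : EB} {nu xs xt x1 : ℝ}

theorem Nf.xt0 (h : B.Nf nu xs xt x1) : 0 < xt := lt_of_le_of_lt h.hxs h.hst

theorem Nf.u0 (h : B.Nf nu xs xt x1) : 0 < B.u 0 := lt_of_lt_of_le (mul_pos h.hnu h.xt0) h.eu

theorem Nf.xtw (h : B.Nf nu xs xt x1) : xt ≤ B.w := h.ht1.trans h.hx1

theorem Nf.uw (h : B.Nf nu xs xt x1) : 0 ≤ B.u B.w := h.Lw.trans (h.ok.Lu B.w ⟨h.ok.hw.le, le_rfl⟩)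

theorem Nf.reg (h : B.Nf nu xs xt x1) : (B.nd nu xt).Reg := by
  have hok := h.ok
  refine ⟨hok.hq, hok.hw, ?_, hok.cu, fun x hx => ?_, h.fat⟩
  · exact hok.cL.max ((by fun_prop : Continuous fun x : ℝ => nu * (xt - x)).max continuous_const)
  · have h1 : (-nu) * x + nu * xt ≤ B.u x :=
      lin_le hok.hw hok.vu h.eu (by nlinarith [h.xtw, h.hnu, h.uw]) hx
    have h2 : 0 * x + 0 ≤ B.u x := lin_le hok.hw hok.vu h.u0.le (by simpa using h.uw) hx
    show max (B.L x) (max (nu * (xt - x)) 0) ≤ B.u x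
    refine max_le (hok.Lu x hx) (max_le (by linarith) (by simpa using h2))

/-- The lower boundary of a member with `c = 0`. -/
theorem dat0 (B : EB) (ke he kt ht z : ℝ) : B.dat ⟨ke, he, kt, ht, z, 0⟩ =
    ⟨B.p, B.q, B.w, fun x => max (B.L x) (max (ke * x + he) (kt * x + ht)), B.u⟩ := by
  simp [EB.dat]

theorem val0 (B : EB) (ke he kt ht z : ℝ) (K : Dat) (hK : B.dat ⟨ke, he, kt, ht, z, 0⟩ = K) :
    B.val ⟨ke, he, kt, ht, z, 0⟩ = K.M * K.j z kt := by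
  unfold EB.val
  rw [hK]
  simp

/-- Moves of the line `t`: inward, the slope does not increase. -/
theorem t_move (h : B.Nf nu xs xt x1) (hm : B.Min (nth nu xt x1)) (α β : ℝ) (hβ : β ≤ 0) (hβ1 : β = 0 ∨ B.k1 < 0) (h1 : 0 ≤ β * x1 + α)
    (hw : ∀ᶠ ε in 𝓝[>] (0:ℝ), ε * β * B.w + ε * α ≤ B.L B.w) (ηz : ℝ)
    (dz : HasDerivWithinAt (fun ε => mvl (fun x => max (B.L x) (nu * (xt - x))) (fun _ => 0) (fun x => β * x + α) ε x1) ηz (Ici 0) 0) :
    0 ≤ (∫ x in xt..x1, (B.nd nu xt).rl x * (B.nd nu xt).Gt x1 0 x * (β * x + α)) / B.q -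
      (B.nd nu xt).M * (ηz * (B.nd nu xt).Fl x1 + β * (B.nd nu xt).Phi x1) := by
  have hok := h.ok
  have hφ : ∀ x ∈ Icc xt x1, 0 ≤ β * x + α := fun x hx => by nlinarith [hx.2]
  have hE : OnEdge (B.nd nu xt) (fun x => max (B.L x) (nu * (xt - x))) (fun _ => 0) (fun x => β * x + α) xt x1 := by
    refine ⟨h.reg, hok.cL.max (by fun_prop), continuous_const, by fun_prop, h.xt0.le, h.ht1, h.hx1, fun x hx => ?_, fun x hx => ?_, fun x hx h2 => ?_⟩
    · show max (B.L x) (max (nu * (xt - x)) 0) = max (max (B.L x) (nu * (xt - x))) 0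
      rw [max_assoc]
    · have h2 : max (B.L x) (nu * (xt - x)) ≤ 0 := max_le (h.Lt x ⟨hx.1.le, hx.2.le⟩) (by nlinarith [hx.1, h.hnu])
      rcases h2.lt_or_eq with h3 | h3
      · exact Or.inl h3
      · exact Or.inr ⟨h3, hφ x ⟨hx.1.le, hx.2.le⟩⟩
    · rcases h2 with h2 | h2
      · exact lt_of_lt_of_le (mul_pos h.hnu (by linarith)) (le_max_right _ _)
      · exact lt_of_lt_of_le (h.Lf x ⟨h2, hx.2⟩) (le_max_left _ _)
  have hd := hE.dMj x1 ηz le_rfl h.hx1 dz 0 β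
  refine der_nonneg hd ?_
  have hD : ∀ ε, B.dat ⟨-nu, nu * xt, ε * β, ε * α, x1, 0⟩ =
      (B.nd nu xt).low (mvl (fun x => max (B.L x) (nu * (xt - x))) (fun _ => 0) (fun x => β * x + α) ε) := by
    intro ε
    rw [dat0]
    unfold Dat.low EB.nd mvl
    congr 1
    funext x
    rw [max_assoc]
    congr 2 <;> ring
  have hv : ∀ ε, B.val ⟨-nu, nu * xt, ε * β, ε * α, x1, 0⟩ =
      ((B.nd nu xt).low (mvl (fun x => max (B.L x) (nu * (xt - x))) (fun _ => 0) (fun x => β * x + α) ε)).M *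
      ((B.nd nu xt).low (mvl (fun x => max (B.L x) (nu * (xt - x))) (fun _ => 0) (fun x => β * x + α) ε)).j x1 (0 + ε * β) := by
    intro ε
    rw [zero_add]
    exact val0 B _ _ _ _ _ _ (hD ε)
  have e1 : ∀ᶠ ε in 𝓝[>] (0:ℝ), -(ε * β) < nu := ev_lt (by fun_prop) (by simpa using h.hnu)
  have e2 : ∀ᶠ ε in 𝓝[>] (0:ℝ), ε * α < B.u 0 := ev_lt (by fun_prop) (by simpa using h.u0)
  obtain ⟨xf, hxf, hf⟩ := h.fat
  have e3 : ∀ᶠ ε in 𝓝[>] (0:ℝ), max (B.L xf) (max (-nu * xf + nu * xt) (ε * β * xf + ε * α)) < B.u xf := by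
    refine ev_lt (by fun_prop) ?_
    have : -nu * xf + nu * xt = nu * (xt - xf) := by ring
    rw [this]
    simpa using hf
  have e4 : ∀ᶠ ε in 𝓝[>] (0:ℝ), B.k1 ≤ ε * β := by
    rcases hβ1 with h2 | h2
    · refine Eventually.of_forall fun ε => ?_
      rw [h2, mul_zero]
      exact h.k1
    · have h3 : ∀ᶠ ε in 𝓝[>] (0:ℝ), -(ε * β) < -B.k1 := ev_lt (by fun_prop) (by simpa using h2)
      filter_upwards [h3] with ε hε
      linarith
  have h00 : B.val (nth nu xt x1) = B.val ⟨-nu, nu * xt, 0 * β, 0 * α, x1, 0⟩ := by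
    unfold nth
    rw [zero_mul, zero_mul]
  filter_upwards [e1, e2, e3, hw, e4, self_mem_nhdsWithin] with ε h2 h3 h4 h5 h9 h6
  have h7 : (0:ℝ) < ε := h6
  rw [← hv 0, ← hv ε, ← h00]
  refine hm.le _ ?_
  have h8 : 0 ≤ ε * (β * x1 + α) := mul_nonneg h7.le h1
  have hx1' : 0 ≤ x1 := h.xt0.le.trans h.ht1
  refine ⟨fun e he => (h.sS e he).le, ?_, ?_, h9, le_rfl, hx1', h.hx1, ?_, h5, ?_, ?_, ?_, ?_, hok.hw, ⟨xf, hxf, h4⟩⟩
  · show -nu ≤ ε * β
    linarith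
  · show ε * β ≤ B.k0
    nlinarith [h.k0]
  · show -nu * B.w + nu * xt ≤ B.L B.w
    nlinarith [h.xtw, h.hnu, h.Lw]
  · show -nu * 0 + nu * xt ≤ B.u 0
    linarith [h.eu]
  · show ε * β * 0 + ε * α ≤ B.u 0
    linarith
  · show B.L x1 ≤ ε * β * x1 + ε * α
    linarith [h.Lt x1 ⟨h.ht1, le_rfl⟩]
  · show -nu * x1 + nu * xt ≤ ε * β * x1 + ε * α
    nlinarith [h.ht1, h.hnu]

/-- Rotation of `t` about its far end. -/
theorem nf_rot (h : B.Nf nu xs xt x1) (hm : B.Min (nth nu xt x1)) (hk : B.k1 < 0) :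
    0 ≤ (∫ x in xt..x1, (B.nd nu xt).rl x * (B.nd nu xt).Gt x1 0 x * (x1 - x)) / (B.nd nu xt).q + (B.nd nu xt).M * (B.nd nu xt).Phi x1 := by
  have h1 := t_move h hm x1 (-1) (by norm_num) (Or.inr hk) (by linarith) ?_ 0 ?_
  · have e : ∀ x, -1 * x + x1 = x1 - x := fun x => by ring
    simp only [e] at h1
    have e2 : (B.nd nu xt).q = B.q := rfl
    rw [e2]
    linarith
  · filter_upwards [self_mem_nhdsWithin] with ε hε
    have h2 : (0:ℝ) < ε := hε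
    nlinarith [h.hx1, h.Lw]
  · exact mvl_fix _ _ _ _ (by ring)

/-- Parallel inward move of `t`. -/
theorem nf_par (h : B.Nf nu xs xt x1) (hm : B.Min (nth nu xt x1)) (hx : x1 < B.w) :
    0 ≤ (∫ x in xt..x1, (B.nd nu xt).rl x * (B.nd nu xt).Gt x1 0 x) / (B.nd nu xt).q - (B.nd nu xt).M * (B.nd nu xt).Fl x1 := by
  have hw : 0 < B.L B.w := h.Lf B.w ⟨hx, le_rfl⟩
  have h1 := t_move h hm 1 0 le_rfl (Or.inl rfl) (by norm_num) ?_ 1 ?_
  · have e : ∀ x, 0 * x + 1 = (1:ℝ) := fun x => by ring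
    simp only [e, mul_one] at h1
    have e2 : (B.nd nu xt).q = B.q := rfl
    rw [e2]
    linarith
  · filter_upwards [ev_lt (f := fun ε : ℝ => ε) continuous_id hw] with ε hε
    simp only [mul_zero, zero_mul, zero_add, mul_one]
    exact hε.le
  · have h2 : max (B.L x1) (nu * (xt - x1)) ≤ 0 := max_le (h.Lt x1 ⟨h.ht1, le_rfl⟩) (by nlinarith [h.ht1, h.hnu])
    have h3 := mvl_in (fun x => max (B.L x) (nu * (xt - x))) (fun _ => 0) (fun x => 0 * x + 1) x1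
      (h2.lt_or_eq.imp id fun h4 => ⟨h4, by norm_num⟩)
    have e : (0:ℝ) * x1 + 1 = 1 := by ring
    rwa [e] at h3

/-- Moves of the line `e`. -/
theorem e_move (h : B.Nf nu xs xt x1) (hm : B.Min (nth nu xt x1)) (hlt : nu * xt < B.u 0) (hx : xt < x1) (α β : ℝ) :
    0 ≤ (∫ x in xs..xt, (B.nd nu xt).rl x * (B.nd nu xt).Gt x1 0 x * (β * x + α)) / B.q := by
  have hok := h.ok
  have hE : OnEdge (B.nd nu xt) (fun x => max (B.L x) 0) (fun x => nu * (xt - x)) (fun x => β * x + α) xs xt := by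
    refine ⟨h.reg, hok.cL.max continuous_const, by fun_prop, by fun_prop, h.hxs, h.hst.le, h.xtw, fun x hx => ?_, fun x hx => ?_, fun x hx h2 => ?_⟩
    · show max (B.L x) (max (nu * (xt - x)) 0) = max (max (B.L x) 0) (nu * (xt - x))
      rw [max_assoc, max_comm (0:ℝ)]
    · exact Or.inl (max_lt (h.Le x hx) (mul_pos h.hnu (by linarith [hx.2])))
    · rcases h2 with h2 | h2
      · exact lt_of_lt_of_le (h.Ls x ⟨hx.1, h2⟩) (le_max_left _ _)
      · exact lt_of_lt_of_le (by nlinarith [h.hnu]) (le_max_right _ _)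
  have hz : (fun x => nu * (xt - x)) x1 < (fun x => max (B.L x) 0) x1 :=
    lt_of_lt_of_le (show nu * (xt - x1) < 0 by nlinarith [h.hnu]) (le_max_right _ _)
  have hd := hE.dMj x1 0 hx.le h.hx1 (mvl_out _ _ _ _ hz) 0 0
  rw [zero_mul, zero_mul, add_zero, mul_zero, sub_zero] at hd
  refine der_nonneg hd ?_
  have hD : ∀ ε, B.dat ⟨-nu + ε * β, nu * xt + ε * α, 0, 0, x1, 0⟩ =
      (B.nd nu xt).low (mvl (fun x => max (B.L x) 0) (fun x => nu * (xt - x)) (fun x => β * x + α) ε) := by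
    intro ε
    rw [dat0]
    unfold Dat.low EB.nd mvl
    congr 1
    funext x
    rw [max_assoc, max_comm (0:ℝ)]
    congr 2 <;> ring
  have hv : ∀ ε, B.val ⟨-nu + ε * β, nu * xt + ε * α, 0, 0, x1, 0⟩ =
      ((B.nd nu xt).low (mvl (fun x => max (B.L x) 0) (fun x => nu * (xt - x)) (fun x => β * x + α) ε)).M *
      ((B.nd nu xt).low (mvl (fun x => max (B.L x) 0) (fun x => nu * (xt - x)) (fun x => β * x + α) ε)).j x1 (0 + ε * 0) := by
    intro ε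
    rw [mul_zero, zero_add]
    exact val0 B _ _ _ _ _ _ (hD ε)
  have e1 : ∀ᶠ ε in 𝓝[>] (0:ℝ), ε * β < nu := ev_lt (by fun_prop) (by simpa using h.hnu)
  have e2 : ∀ᶠ ε in 𝓝[>] (0:ℝ), nu * xt + ε * α < B.u 0 := ev_lt (by fun_prop) (by simpa using hlt)
  have e4 : ∀ᶠ ε in 𝓝[>] (0:ℝ), (-nu + ε * β) * x1 + (nu * xt + ε * α) < 0 := by
    refine ev_lt (by fun_prop) ?_
    rw [zero_mul, zero_mul]
    nlinarith [h.hnu]
  have e5 : ∀ᶠ ε in 𝓝[>] (0:ℝ), (-nu + ε * β) * B.w + (nu * xt + ε * α) < 0 := by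
    refine ev_lt (by fun_prop) ?_
    rw [zero_mul, zero_mul]
    nlinarith [h.hnu, h.hx1]
  have e6 : ∀ᶠ ε in 𝓝[>] (0:ℝ), ∀ e ∈ B.S, e.1 + -(ε * β) < -nu := by
    rw [Filter.eventually_all_finset]
    intro e he
    exact ev_lt (by fun_prop) (by simpa using h.sS e he)
  obtain ⟨xf, hxf, hf⟩ := h.fat
  have e3 : ∀ᶠ ε in 𝓝[>] (0:ℝ), max (B.L xf) (max ((-nu + ε * β) * xf + (nu * xt + ε * α)) (0 * xf + 0)) < B.u xf := by
    refine ev_lt (by fun_prop) ?_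
    have : (-nu + 0 * β) * xf + (nu * xt + 0 * α) = nu * (xt - xf) := by ring
    rw [this]
    simpa using hf
  have h00 : B.val (nth nu xt x1) = B.val ⟨-nu + 0 * β, nu * xt + 0 * α, 0, 0, x1, 0⟩ := by
    unfold nth
    rw [zero_mul, zero_mul, add_zero, add_zero]
  filter_upwards [e1, e2, e3, e4, e5, e6, self_mem_nhdsWithin] with ε h2 h3 h4 h5 h6 h7 h8
  rw [← hv 0, ← hv ε, ← h00]
  refine hm.le _ ?_
  have hx1' : 0 ≤ x1 := h.xt0.le.trans h.ht1
  refine ⟨fun e he => ?_, ?_, h.k0, h.k1, le_rfl, hx1', h.hx1, ?_, ?_, ?_, ?_, ?_, ?_, hok.hw, ⟨xf, hxf, h4⟩⟩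
  · show e.1 ≤ -nu + ε * β
    linarith [h7 e he]
  · show -nu + ε * β ≤ 0
    linarith
  · show (-nu + ε * β) * B.w + (nu * xt + ε * α) ≤ B.L B.w
    linarith [h.Lw]
  · show 0 * B.w + 0 ≤ B.L B.w
    linarith [h.Lw]
  · show (-nu + ε * β) * 0 + (nu * xt + ε * α) ≤ B.u 0
    linarith
  · show 0 * 0 + 0 ≤ B.u 0
    linarith [h.u0]
  · show B.L x1 ≤ 0 * x1 + 0
    linarith [h.Lt x1 ⟨h.ht1, le_rfl⟩]
  · show (-nu + ε * β) * x1 + (nu * xt + ε * α) ≤ 0 * x1 + 0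
    linarith

/-- The moves of `e`, in the form of `near_e`. -/
theorem nf_e (h : B.Nf nu xs xt x1) (hm : B.Min (nth nu xt x1)) (hlt : nu * xt < B.u 0) (hx : xt < x1) :
    (∫ x in xs..xt, (B.nd nu xt).rl x * (B.nd nu xt).Gt x1 0 x) = 0 ∧
    ∀ c, (∫ x in xs..xt, (B.nd nu xt).rl x * (B.nd nu xt).Gt x1 0 x * (x - c)) / (B.nd nu xt).q ≤ 0 := by
  have hq := h.ok.hq
  have e0 : (B.nd nu xt).q = B.q := rfl
  constructor
  · have h1 := e_move h hm hlt hx 1 0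
    have h2 := e_move h hm hlt hx (-1) 0
    have e1 : ∀ x, 0 * x + 1 = (1:ℝ) := fun x => by ring
    have e2 : ∀ x, 0 * x + -1 = (-1:ℝ) := fun x => by ring
    simp only [e1, mul_one] at h1
    simp only [e2, mul_neg, mul_one] at h2
    rw [intervalIntegral.integral_neg, neg_div] at h2
    have h3 : (∫ x in xs..xt, (B.nd nu xt).rl x * (B.nd nu xt).Gt x1 0 x) / B.q = 0 := le_antisymm (by linarith) h1
    rcases div_eq_zero_iff.1 h3 with h4 | h4
    · exact h4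
    · exact absurd h4 hq
  · intro c
    have h1 := e_move h hm hlt hx c (-1)
    have e1 : ∀ x, (B.nd nu xt).rl x * (B.nd nu xt).Gt x1 0 x * (-1 * x + c) =
        -((B.nd nu xt).rl x * (B.nd nu xt).Gt x1 0 x * (x - c)) := fun x => by ring
    simp only [e1] at h1
    rw [intervalIntegral.integral_neg, neg_div] at h1
    rw [e0]
    linarith

end EB

end Pool.Agent.Lib.MP_1dedaf_gt.DK
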