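import Pool.Agent.Lib.MP_1dedaf_gt.Mg.G026
import Pool.Agent.Lib.MP_1dedaf_gt.DK.A0
import Pool.Agent.Lib.MP_1dedaf_gt.Mg.G003

/-!
# Campaign EP, first variation: definitions

`K.low L` is the body with the lower boundary `L`. `Nice`: families of continuous functions which are Lipschitz in the parameter `ε ∈ [0, 1]` and have
a right derivative at `0` outside of a countable set. `LVar K S L η z ηz`: the lower boundary `L ε` starts at `K.l` with the velocity `η`.
-/

set_option autoImplicit false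

open MeasureTheory Set Filter Topology

namespace Pool.Agent.Lib.MP_1dedaf_gt.DK

/-- The body with the lower boundary `L`. -/
noncomputable def Dat.low (K : Dat) (L : ℝ → ℝ) : Dat := ⟨K.p, K.q, K.w, L, K.u⟩

/-- The integral of `X / density` along the lower boundary. -/
noncomputable def Dat.Ix (K : Dat) (x : ℝ) : ℝ := ∫ t in (0:ℝ)..x, K.Xl t / K.rl t

/-- Families of continuous functions with a one-sided derivative at `0` outside of a set `S`. -/
structure Nice (w : ℝ) (S : Set ℝ) (g : ℝ → ℝ → ℝ) (g0 g' : ℝ → ℝ) : Prop where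
  ct : ∀ ε, Continuous (g ε)
  ct0 : Continuous g0
  lip : ∃ C : ℝ, ∀ ε ∈ Icc (0:ℝ) 1, ∀ x ∈ Icc 0 w, |g ε x - g0 x| ≤ C * ε
  der : ∀ x ∈ Icc 0 w, x ∉ S → HasDerivWithinAt (fun ε => g ε x) (g' x) (Ici 0) 0

/-- The lower boundary `L ε` starts at `K.l` with the velocity `η`, which is `0` to the right of `z`; the velocity of the point over `z` is `ηz`. -/
structure LVar (K : Dat) (S : Set ℝ) (L : ℝ → ℝ → ℝ) (η : ℝ → ℝ) (z ηz : ℝ) : Prop where
  reg : K.Reg
  cS : S.Countable
  nice : Nice K.w S L K.l η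
  z0 : 0 ≤ z
  zw : z ≤ K.w
  zr : ∀ x, z < x → η x = 0
  rc : ∀ x, ContinuousWithinAt η (Ici x) x
  ii : ∀ a b, IntervalIntegrable η volume a b
  dz : HasDerivWithinAt (fun ε => L ε z) ηz (Ici 0) 0

end Pool.Agent.Lib.MP_1dedaf_gt.DK
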