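import Pool.Agent.Lib.MP_1dedaf_gt.DK.EP.FV4
import Pool.Agent.Lib.MP_1dedaf_gt.Mg.G026

/-!
# Campaign EP, MV4: the truncation at a minimiser in normal position
-/

set_option autoImplicit false

open MeasureTheory Set Filter Topology

namespace Pool.Agent.Lib.MP_1dedaf_gt.DK

/-- The side `x = 0` may be moved inward. -/
theorem nf_sd {B : EB} {nu xs xt x1 : ℝ} (h : B.Nf nu xs xt x1) (hm : B.Min (nth nu xt x1)) : 0 ≤ (B.nd nu xt).Sd x1 := by
  have hok := h.ok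
  have hx0 : 0 < x1 := lt_of_lt_of_le h.xt0 h.ht1
  have hd := near_move (B.nd nu xt) h.reg x1 hx0 h.hx1
  have hD : ∀ a, B.dat ⟨-nu, nu * xt, 0, 0, x1, a⟩ = (B.nd nu xt).sh a := by
    intro a
    unfold EB.dat EB.nd Dat.sh
    simp only [Dat.mk.injEq, true_and, and_true]
    funext x
    congr 2 <;> ring
  have hv : ∀ a, B.val ⟨-nu, nu * xt, 0, 0, x1, a⟩ =
      Real.exp ((B.nd nu xt).p * a) * (((B.nd nu xt).sh a).M * ((B.nd nu xt).sh a).j (x1 - a) 0) := by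
    intro a
    unfold EB.val
    rw [hD]
    rfl
  refine der_nonneg hd ?_
  obtain ⟨xf, hxf, hf⟩ := h.fat
  have e1 : ∀ᶠ a in 𝓝[>] (0:ℝ), a < x1 := ev_lt continuous_id (by simpa using hx0)
  -- a fat point to the right of `0`
  obtain ⟨xg, hxg0, hxgw, hg⟩ : ∃ xg, 0 < xg ∧ xg ≤ B.w ∧ max (B.L xg) (max (nu * (xt - xg)) 0) < B.u xg := by
    rcases hxf.1.lt_or_eq with h1 | h1
    · exact ⟨xf, h1, hxf.2, hf⟩
    · have hc : Continuous fun x => B.u x - max (B.L x) (max (nu * (xt - x)) 0) :=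
        hok.cu.sub (hok.cL.max ((by fun_prop : Continuous fun x : ℝ => nu * (xt - x)).max continuous_const))
      have h2 : ∀ᶠ x in 𝓝[>] (0:ℝ), 0 < B.u x - max (B.L x) (max (nu * (xt - x)) 0) := by
        have h3 := (hc.tendsto 0).mono_left (nhdsWithin_le_nhds (s := Ioi 0))
        refine h3.eventually_const_lt ?_
        rw [← h1] at hf
        linarith
      have h4 : ∀ᶠ x in 𝓝[>] (0:ℝ), x < B.w := ev_lt continuous_id (by simpa using hok.hw)
      obtain ⟨x, hx1, hx2, hx3⟩ := (h2.and (h4.and self_mem_nhdsWithin)).exists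
      exact ⟨x, hx3, hx2.le, by linarith⟩
  have e2 : ∀ᶠ a in 𝓝[>] (0:ℝ), a < xg := ev_lt continuous_id (by simpa using hxg0)
  have e3 : ∀ᶠ a in 𝓝[>] (0:ℝ), a < B.w := ev_lt continuous_id (by simpa using hok.hw)
  have h00 : B.val (nth nu xt x1) = B.val ⟨-nu, nu * xt, 0, 0, x1, 0⟩ := rfl
  filter_upwards [e1, e2, e3, self_mem_nhdsWithin] with a h1 h2 h3 h4
  have h5 : (0:ℝ) < a := h4
  have haw : a ∈ Icc 0 B.w := ⟨h5.le, h3.le⟩
  rw [← hv a, ← hv 0, ← h00]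
  refine hm.le _ ?_
  refine ⟨fun e he => (h.sS e he).le, ?_, h.k0, h.k1, h5.le, h1.le, h.hx1, ?_, ?_, ?_, ?_, ?_, ?_, h3, ⟨xg, ⟨h2.le, hxgw⟩, ?_⟩⟩
  · show -nu ≤ 0
    linarith [h.hnu]
  · show -nu * B.w + nu * xt ≤ B.L B.w
    nlinarith [h.xtw, h.hnu, h.Lw]
  · show 0 * B.w + 0 ≤ B.L B.w
    linarith [h.Lw]
  · show -nu * a + nu * xt ≤ B.u a
    exact lin_le hok.hw hok.vu h.eu (by nlinarith [h.xtw, h.hnu, h.uw]) haw
  · show 0 * a + 0 ≤ B.u a
    exact lin_le hok.hw hok.vu h.u0.le (by simpa using h.uw) haw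
  · show B.L x1 ≤ 0 * x1 + 0
    linarith [h.Lt x1 ⟨h.ht1, le_rfl⟩]
  · show -nu * x1 + nu * xt ≤ 0 * x1 + 0
    nlinarith [h.ht1, h.hnu]
  · show max (B.L xg) (max (-nu * xg + nu * xt) (0 * xg + 0)) < B.u xg
    have e5 : -nu * xg + nu * xt = nu * (xt - xg) := by ring
    rw [e5]
    simpa using hg

end Pool.Agent.Lib.MP_1dedaf_gt.DK
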