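import Pool.Agent.Lib.MP_1dedaf_gt.Mg.G027
import Pool.Agent.Lib.MP_1dedaf_gt.Mg.G003
import Pool.Agent.Lib.MP_1dedaf_gt.DK.A4

/-!
# Campaign EP, ST1: a counterexample gives a negative member of a class
-/

set_option autoImplicit false

open MeasureTheory Set Filter Topology

namespace Pool.Agent.Lib.MP_1dedaf_gt.DK

private theorem ST1_cont (S : Finset (ℝ × ℝ)) (F : ℝ → ℝ) (hF : Continuous F) :
    Continuous (fun x => S.fold max (F x) (fun s => s.1 * x + s.2)) := by
  classical
  induction S using Finset.induction_on with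
  | empty => simpa using hF
  | insert a s ha ih =>
    have e : (fun x => (insert a s).fold max (F x) (fun s => s.1 * x + s.2)) =
        fun x => max (a.1 * x + a.2) (s.fold max (F x) (fun s => s.1 * x + s.2)) := by
      funext x
      rw [Finset.fold_insert ha]
    rw [e]
    exact (by fun_prop : Continuous fun x : ℝ => a.1 * x + a.2).max ih

private theorem ST1_line (A : Set ℝ) (hA : Convex ℝ A) (a b : ℝ) : ConvexOn ℝ A (fun x => a * x + b) := by
  refine ⟨hA, fun x _ y _ s t _ _ hst => le_of_eq ?_⟩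
  simp only [smul_eq_mul]
  have : b = (s + t) * b := by rw [hst, one_mul]
  nth_rewrite 1 [this]
  ring

private theorem ST1_cvx (S : Finset (ℝ × ℝ)) (A : Set ℝ) (F : ℝ → ℝ) (hF : ConvexOn ℝ A F) :
    ConvexOn ℝ A (fun x => S.fold max (F x) (fun s => s.1 * x + s.2)) := by
  classical
  induction S using Finset.induction_on with
  | empty => simpa using hF
  | insert a s ha ih =>
    have e : (fun x => (insert a s).fold max (F x) (fun s => s.1 * x + s.2)) =
        (fun x => a.1 * x + a.2) ⊔ (fun x => s.fold max (F x) (fun s => s.1 * x + s.2)) := by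
      funext x
      rw [Finset.fold_insert ha]
      rfl
    rw [e]
    exact (ST1_line A hF.1 a.1 a.2).sup ih

/-- Data which agree on `[0, w]` have the same kernels. -/
theorem mj_congr (K K' : Dat) (hp : K'.p = K.p) (hq : K'.q = K.q) (hw : K'.w = K.w) (hw0 : 0 ≤ K.w)
    (hl : ∀ x ∈ Icc 0 K.w, K'.l x = K.l x) (hu : ∀ x ∈ Icc 0 K.w, K'.u x = K.u x) {z : ℝ} (hz : z ∈ Icc 0 K.w) (k : ℝ) :
    K'.M = K.M ∧ K'.j z k = K.j z k := by
  obtain ⟨c1, c2, c3, c4, c5, c6, c7, c8⟩ := Dat.congr K K' hp hq hw hw0 hl hu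
  have hV : K'.V = K.V := by
    unfold Dat.V
    rw [c3, c3, c5]
  have hpsi : K'.psi = K.psi := by
    unfold Dat.psi
    rw [hV, hq, c1]
  have hXi : K'.Xi z = K.Xi z := by
    unfold Dat.Xi
    refine intervalIntegral.integral_congr fun t ht => ?_
    rw [uIcc_of_le hz.1] at ht
    obtain ⟨d1, -, d3, -⟩ := c8 t ⟨ht.1, ht.2.trans hz.2⟩
    show (K'.a - K'.Xl t) / K'.rl t = (K.a - K.Xl t) / K.rl t
    rw [c5, d1, d3]
  obtain ⟨d1, -, d3, -⟩ := c8 z hz
  refine ⟨c1, ?_⟩
  unfold Dat.j Dat.Phi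
  rw [c1, c2, c5, d1, d3, hpsi, hXi, hp, hq]

theorem start {m : ℕ} (K : Dat) (h : K.Cx) (T : Finset (ℝ × ℝ)) (z kt : ℝ) (hne : T.Nonempty) (hT : T.card ≤ m + 1) (hA : K.Arc T z kt) (hj : K.j z kt < 0) :
    ∃ (B : EB) (θ : Th), B.Ok ∧ B.S.card ≤ m ∧ B.In θ ∧ B.val θ < 0 := by
  classical
  obtain ⟨e0, he0, hmax⟩ := Finset.exists_max_image T (fun e => e.1) hne
  have hw := h.hw
  have hzw : z ∈ Icc 0 K.w := ⟨hA.z0, hA.zw⟩
  have hww : K.w ∈ Icc 0 K.w := ⟨hw.le, le_rfl⟩
  have h00 : (0:ℝ) ∈ Icc 0 K.w := ⟨le_rfl, hw.le⟩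
  -- lines of `T` are below `l` everywhere
  have hTl : ∀ e ∈ T, ∀ x ∈ Icc 0 K.w, e.1 * x + e.2 ≤ K.l x := by
    intro e he x hx
    rcases le_total x z with h1 | h1
    · exact hA.le e he x ⟨hx.1, h1⟩
    · have h2 := hA.le e he z ⟨hA.z0, le_rfl⟩
      have h3 := hA.sup x hx
      have h4 := hA.sl e he
      nlinarith
  set H : ℝ → ℝ := fun x => K.l x - kt * x with hH
  have hHz : ∀ x ∈ Icc 0 K.w, H z ≤ H x := fun x hx => by
    have := hA.sup x hx
    simp only [hH]
    linarith
  have hHc : ConvexOn ℝ (Icc 0 K.w) H := by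
    have h1 := h.vl.add (ST1_line (Icc 0 K.w) (convex_Icc _ _) (-kt) 0)
    refine h1.congr fun x _ => ?_
    show K.l x + (-kt * x + 0) = K.l x - kt * x
    ring
  have hHm : ∀ x y, z ≤ x → x ≤ y → y ≤ K.w → H x ≤ H y := by
    intro x y h1 h2 h3
    have hseg : x ∈ segment ℝ z y := by
      rw [segment_eq_Icc (h1.trans h2)]
      exact ⟨h1, h2⟩
    have h4 := hHc.le_max_of_mem_segment hzw (⟨hA.z0.trans (h1.trans h2), h3⟩ : y ∈ Icc 0 K.w) hseg
    rwa [max_eq_right (hHz y ⟨hA.z0.trans (h1.trans h2), h3⟩)] at h4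
  set Fa : ℝ → ℝ := fun x => H (max x z) + kt * x with hFa
  have hHcont : Continuous H := h.cl.sub (continuous_const.mul continuous_id)
  have hFac : Continuous Fa := (hHcont.comp (continuous_id.max continuous_const)).add (continuous_const.mul continuous_id)
  have hFl : ∀ x ∈ Icc 0 K.w, Fa x ≤ K.l x := by
    intro x hx
    rcases le_total x z with h1 | h1
    · show H (max x z) + kt * x ≤ K.l x
      rw [max_eq_right h1]
      have := hHz x hx
      simp only [hH] at this ⊢
      linarith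
    · show H (max x z) + kt * x ≤ K.l x
      rw [max_eq_left h1]
      simp only [hH]
      linarith
  have hFr : ∀ x, z ≤ x → Fa x = K.l x := by
    intro x h1
    show H (max x z) + kt * x = K.l x
    rw [max_eq_left h1]
    simp only [hH]
    ring
  have hFcv : ConvexOn ℝ (Icc 0 K.w) Fa := by
    have h1 : ConvexOn ℝ (Icc 0 K.w) (fun x => H (max x z)) := by
      refine ⟨convex_Icc _ _, fun x hx y hy a b ha hb hab => ?_⟩
      simp only [smul_eq_mul]
      have m1 : max x z ∈ Icc 0 K.w := ⟨hA.z0.trans (le_max_right _ _), max_le hx.2 hA.zw⟩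
      have m2 : max y z ∈ Icc 0 K.w := ⟨hA.z0.trans (le_max_right _ _), max_le hy.2 hA.zw⟩
      have h2 := hHc.2 m1 m2 ha hb hab
      simp only [smul_eq_mul] at h2
      have h3 : a * max x z + b * max y z ≤ K.w := by
        have := (convex_Icc (0:ℝ) K.w) m1 m2 ha hb hab
        exact this.2
      have h4 : max (a * x + b * y) z ≤ a * max x z + b * max y z := by
        refine max_le (add_le_add (mul_le_mul_of_nonneg_left (le_max_left _ _) ha) (mul_le_mul_of_nonneg_left (le_max_left _ _) hb)) ?_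
        have h5 := mul_le_mul_of_nonneg_left (le_max_right x z) ha
        have h6 := mul_le_mul_of_nonneg_left (le_max_right y z) hb
        have h7 : a * z + b * z = z := by rw [← add_mul, hab, one_mul]
        linarith
      exact (hHm _ _ (le_max_right _ _) h4 h3).trans h2
    have h2 := h1.add (ST1_line (Icc 0 K.w) (convex_Icc _ _) kt 0)
    refine h2.congr fun x _ => ?_
    show H (max x z) + (kt * x + 0) = H (max x z) + kt * x
    ring
  set S := T.erase e0 with hS
  set L : ℝ → ℝ := fun x => S.fold max (Fa x) (fun s => s.1 * x + s.2) with hL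
  have hLF : ∀ x, Fa x ≤ L x := fun x => by
    show Fa x ≤ S.fold max (Fa x) (fun s => s.1 * x + s.2)
    rw [Finset.le_fold_max]
    exact Or.inl le_rfl
  have hLs : ∀ s ∈ S, ∀ x, s.1 * x + s.2 ≤ L x := fun s hs x => by
    show s.1 * x + s.2 ≤ S.fold max (Fa x) (fun s => s.1 * x + s.2)
    rw [Finset.le_fold_max]
    exact Or.inr ⟨s, hs, le_rfl⟩
  have hLc : ∀ x, L x ≤ Fa x ∨ ∃ s ∈ S, L x ≤ s.1 * x + s.2 := fun x => by
    have h1 : L x ≤ S.fold max (Fa x) (fun s => s.1 * x + s.2) := le_rfl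
    rw [Finset.le_fold_max] at h1
    exact h1
  have hLl : ∀ x ∈ Icc 0 K.w, L x ≤ K.l x := by
    intro x hx
    rcases hLc x with h1 | ⟨s, hs, h1⟩
    · exact h1.trans (hFl x hx)
    · exact h1.trans (hTl s (Finset.mem_of_mem_erase hs) x hx)
  have hLw : L K.w = K.l K.w := le_antisymm (hLl K.w hww) (by rw [← hFr K.w hA.zw]; exact hLF K.w)
  have htl : ∀ x ∈ Icc 0 K.w, kt * x + (K.l z - kt * z) ≤ K.l x := fun x hx => by
    have := hA.sup x hx
    linarith
  set B : EB := ⟨K.p, K.q, K.w, L, K.u, S, kt, kt⟩ with hB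
  set θ : Th := ⟨e0.1, e0.2, kt, K.l z - kt * z, z, 0⟩ with hθ
  have hcard : S.card ≤ m := by
    rw [hS, Finset.card_erase_of_mem he0]
    omega
  refine ⟨B, θ, ?_, hcard, ?_, ?_⟩
  · refine ⟨h.hq, hw, ST1_cont S Fa hFac, h.cu, ST1_cvx S _ Fa hFcv, h.vu, fun x hx => (hLl x hx).trans (h.lu x hx),
      fun e he x _ => hLs e he x, fun x hx => ?_⟩
    rcases hLc x with h1 | ⟨s, hs, h1⟩
    · right
      intro y hy
      show kt * (y - x) ≤ L y - L x
      have h2 := hLF y
      have h3 : H (max x z) ≤ H (max y z) :=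
        hHm _ _ (le_max_right _ _) (max_le_max_right z hy.1) (max_le hy.2 hA.zw)
      simp only [hFa] at h1 h2
      linarith
    · left
      exact ⟨s, hs, le_antisymm h1 (hLs s hs x)⟩
  · obtain ⟨xf, hxf, hf⟩ := h.fat
    refine ⟨fun e he => hmax e (Finset.mem_of_mem_erase he), hA.sl e0 he0, le_rfl, le_rfl, le_rfl, hA.z0, hA.zw, ?_, ?_, ?_, ?_, ?_, ?_, hw,
      ⟨xf, hxf, lt_of_le_of_lt ?_ hf⟩⟩
    · show e0.1 * K.w + e0.2 ≤ L K.w
      rw [hLw]
      exact hTl e0 he0 K.w hww
    · show kt * K.w + (K.l z - kt * z) ≤ L K.w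
      rw [hLw]
      exact htl K.w hww
    · show e0.1 * 0 + e0.2 ≤ K.u 0
      exact (hTl e0 he0 0 h00).trans (h.lu 0 h00)
    · show kt * 0 + (K.l z - kt * z) ≤ K.u 0
      exact (htl 0 h00).trans (h.lu 0 h00)
    · show L z ≤ kt * z + (K.l z - kt * z)
      have := hLl z hzw
      linarith
    · show e0.1 * z + e0.2 ≤ kt * z + (K.l z - kt * z)
      have := hTl e0 he0 z hzw
      linarith
    · exact max_le (hLl xf hxf) (max_le (hTl e0 he0 xf hxf) (htl xf hxf))
  · have hl' : ∀ x ∈ Icc 0 K.w, (B.dat θ).l x = K.l x := by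
      intro x hx
      show max (L (0 + x)) (max (e0.1 * (0 + x) + e0.2) (kt * (0 + x) + (K.l z - kt * z))) = K.l x
      rw [zero_add]
      refine le_antisymm (max_le (hLl x hx) (max_le (hTl e0 he0 x hx) (htl x hx))) ?_
      rcases le_total x z with h1 | h1
      · rcases hA.cov x ⟨hx.1, h1⟩ with h2 | ⟨e, he, h2⟩
        · refine le_max_of_le_right (le_max_of_le_right ?_)
          rw [h2]
          linarith
        · by_cases h3 : e = e0
          · refine le_max_of_le_right (le_max_of_le_left ?_)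
            rw [h2, h3]
          · refine le_max_of_le_left ?_
            rw [h2]
            exact hLs e (Finset.mem_erase.2 ⟨h3, he⟩) x
      · refine le_max_of_le_left ?_
        rw [← hFr x h1]
        exact hLF x
    have hc := mj_congr K (B.dat θ) rfl rfl (sub_zero K.w) hw.le hl' (fun x _ => by
      show K.u (0 + x) = K.u x
      rw [zero_add]) hzw kt
    have hv : B.val θ = K.M * K.j z kt := by
      unfold EB.val
      show Real.exp (K.p * 0) * ((B.dat θ).M * (B.dat θ).j (z - 0) kt) = K.M * K.j z kt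
      rw [mul_zero, Real.exp_zero, one_mul, sub_zero, hc.1, hc.2]
    rw [hv]
    exact mul_neg_of_pos_of_neg (K.M_pos h.toReg) hj

end Pool.Agent.Lib.MP_1dedaf_gt.DK
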