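import Pool.Agent.Lib.MP_1dedaf_gt.Mg.G040

/-!
# The two views of a body (campaign EP, SY2): the identities on an arc

`ρ = exp (p x + q y)`, `dX = ρ dx`, `dY = ρ dy` along the arc, so `ρ = p X + q Y + c`. The products
`e^{p x} e^{q y}`, `e^{-p x} e^{-q y}`, `(X e^{-p x}) e^{-q y}`, `(X e^{-p x}) (Y e^{-q y})` are integrated by parts along the arc.
-/

set_option autoImplicit false

open MeasureTheory Set Filter Topology

namespace Pool.Agent.Lib.MP_1dedaf_gt.DK

/-- An arc from `(xs, ys)` to `(xe, ye)` which is the graph of `φ` and of `ψ`. -/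
structure Arc (φ ψ : ℝ → ℝ) (xs ys xe ye : ℝ) : Prop where
  cφ : Continuous φ
  cψ : Continuous ψ
  full : PP φ ψ xs ys xe ye
  sx : ∀ x ∈ uIcc xs xe, PP φ ψ xs ys x (φ x)
  sy : ∀ y ∈ uIcc ys ye, PP φ ψ xs ys (ψ y) y

private theorem SY2_ii {f : ℝ → ℝ} (cf : Continuous f) (a b : ℝ) : IntervalIntegrable f volume a b :=
  cf.intervalIntegrable a b

private theorem SY2_lin (a b : ℝ) {F1 F2 F3 F4 : ℝ → ℝ} (c1 : Continuous F1) (c2 : Continuous F2) (c3 : Continuous F3) (c4 : Continuous F4)
    (k0 k1 k2 k3 k4 : ℝ) :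
    (∫ x in a..b, (k0 + k1 * F1 x + k2 * F2 x + k3 * F3 x + k4 * F4 x)) =
      k0 * (b - a) + k1 * (∫ x in a..b, F1 x) + k2 * (∫ x in a..b, F2 x) + k3 * (∫ x in a..b, F3 x) + k4 * ∫ x in a..b, F4 x := by
  have d1 : Continuous (fun x => k1 * F1 x) := continuous_const.mul c1
  have d2 : Continuous (fun x => k2 * F2 x) := continuous_const.mul c2
  have d3 : Continuous (fun x => k3 * F3 x) := continuous_const.mul c3
  have d4 : Continuous (fun x => k4 * F4 x) := continuous_const.mul c4
  have d0 : Continuous (fun _ : ℝ => k0) := continuous_const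
  have s1 : Continuous (fun x => k0 + k1 * F1 x) := d0.add d1
  have s2 : Continuous (fun x => k0 + k1 * F1 x + k2 * F2 x) := s1.add d2
  have s3 : Continuous (fun x => k0 + k1 * F1 x + k2 * F2 x + k3 * F3 x) := s2.add d3
  rw [intervalIntegral.integral_add (SY2_ii s3 _ _) (SY2_ii d4 _ _),
    intervalIntegral.integral_add (SY2_ii s2 _ _) (SY2_ii d3 _ _),
    intervalIntegral.integral_add (SY2_ii s1 _ _) (SY2_ii d2 _ _),
    intervalIntegral.integral_add (SY2_ii d0 _ _) (SY2_ii d1 _ _),
    intervalIntegral.integral_const_mul, intervalIntegral.integral_const_mul, intervalIntegral.integral_const_mul,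
    intervalIntegral.integral_const_mul, intervalIntegral.integral_const, smul_eq_mul]
  ring

private theorem SY2_cont {X d : ℝ → ℝ} (h : ∀ x, HasDerivAt X (d x) x) : Continuous X :=
  continuous_iff_continuousAt.mpr fun x => (h x).continuousAt

private theorem SY2_int {X d : ℝ → ℝ} (cd : Continuous d) (h : ∀ x, HasDerivAt X (d x) x) (a b : ℝ) :
    (∫ x in a..b, d x) = X b - X a :=
  intervalIntegral.integral_eq_sub_of_hasDerivAt (fun x _ => h x) (SY2_ii cd _ _)

private theorem SY2_exp (p x : ℝ) : HasDerivAt (fun x => Real.exp (p * x)) (p * Real.exp (p * x)) x := by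
  have h1 : HasDerivAt (fun x => p * x) (p * 1) x := (hasDerivAt_id x).const_mul p
  have h2 := h1.exp
  convert h2 using 1
  ring

private theorem SY2_rel {p q : ℝ} {φ ψ : ℝ → ℝ} {xs ys xe ye : ℝ} (h : PP φ ψ xs ys xe ye) (cφ : Continuous φ) (cψ : Continuous ψ)
    {X Y dx dy : ℝ → ℝ} (hdx : ∀ x, dx x = Real.exp (p * x + q * φ x)) (hdy : ∀ y, dy y = Real.exp (p * ψ y + q * y))
    (cdx : Continuous dx) (cdy : Continuous dy)
    (hX : ∀ x, HasDerivAt X (dx x) x) (hY : ∀ y, HasDerivAt Y (dy y) y) :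
    Real.exp (p * xe + q * ye) - Real.exp (p * xs + q * ys) = p * (X xe - X xs) + q * (Y ye - Y ys) := by
  have h1 := h.parts cφ cψ (A := fun x => Real.exp (p * x)) (B := fun y => Real.exp (q * y)) (f := fun x => p * Real.exp (p * x))
    (g := fun y => q * Real.exp (q * y)) (by fun_prop) (by fun_prop) (fun x => SY2_exp p x) (fun y => SY2_exp q y)
  have e1 : (∫ x in xs..xe, (fun x => p * Real.exp (p * x)) x * (fun y => Real.exp (q * y)) (φ x)) = p * (X xe - X xs) := by
    rw [← SY2_int cdx hX, ← intervalIntegral.integral_const_mul]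
    refine intervalIntegral.integral_congr fun x _ => ?_
    show p * Real.exp (p * x) * Real.exp (q * φ x) = p * dx x
    rw [hdx, Real.exp_add]
    ring
  have e2 : (∫ y in ys..ye, (fun x => Real.exp (p * x)) (ψ y) * (fun y => q * Real.exp (q * y)) y) = q * (Y ye - Y ys) := by
    rw [← SY2_int cdy hY, ← intervalIntegral.integral_const_mul]
    refine intervalIntegral.integral_congr fun y _ => ?_
    show Real.exp (p * ψ y) * (q * Real.exp (q * y)) = q * dy y
    rw [hdy, Real.exp_add]
    ring
  rw [e1, e2] at h1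
  rw [Real.exp_add, Real.exp_add]
  exact h1.symm

/-- The identities on an arc. -/
theorem Arc.ids {p q : ℝ} (hp : p ≠ 0) (hq : q ≠ 0) {φ ψ : ℝ → ℝ} {xs ys xe ye : ℝ} (h : Arc φ ψ xs ys xe ye)
    {X Y dx dy : ℝ → ℝ} (hdx : ∀ x, dx x = Real.exp (p * x + q * φ x)) (hdy : ∀ y, dy y = Real.exp (p * ψ y + q * y))
    (hX : ∀ x, HasDerivAt X (dx x) x) (hY : ∀ y, HasDerivAt Y (dy y) y) {c : ℝ}
    (hc : Real.exp (p * xs + q * ys) = p * X xs + q * Y ys + c) :
    Real.exp (p * xe + q * ye) = p * X xe + q * Y ye + c ∧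
    1 / Real.exp (p * xe + q * ye) - 1 / Real.exp (p * xs + q * ys) =
      - p * (∫ x in xs..xe, 1 / dx x) - q * ∫ y in ys..ye, 1 / dy y ∧
    X xe / Real.exp (p * xe + q * ye) - X xs / Real.exp (p * xs + q * ys) =
      (xe - xs) - p * (∫ x in xs..xe, X x / dx x) - q / p * (ye - ys) + q ^ 2 / p * (∫ y in ys..ye, Y y / dy y) +
        q * c / p * ∫ y in ys..ye, 1 / dy y ∧
    X xe * Y ye / Real.exp (p * xe + q * ye) - X xs * Y ys / Real.exp (p * xs + q * ys) =
      1 / q * ((X xe - X xs) - 2 * p * (∫ x in xs..xe, X x) + p ^ 2 * (∫ x in xs..xe, X x ^ 2 / dx x) - c * (xe - xs) +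
        c * p * ∫ x in xs..xe, X x / dx x) +
      1 / p * ((Y ye - Y ys) - 2 * q * (∫ y in ys..ye, Y y) + q ^ 2 * (∫ y in ys..ye, Y y ^ 2 / dy y) - c * (ye - ys) +
        c * q * ∫ y in ys..ye, Y y / dy y) := by
  have cφ := h.cφ
  have cψ := h.cψ
  have cdx : Continuous dx := by
    have : dx = fun x => Real.exp (p * x + q * φ x) := funext hdx
    rw [this]
    fun_prop
  have cdy : Continuous dy := by
    have : dy = fun y => Real.exp (p * ψ y + q * y) := funext hdy
    rw [this]
    fun_prop
  have cX := SY2_cont hX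
  have cY := SY2_cont hY
  have px : ∀ x, dx x ≠ 0 := fun x => by rw [hdx]; exact (Real.exp_pos _).ne'
  have py : ∀ y, dy y ≠ 0 := fun y => by rw [hdy]; exact (Real.exp_pos _).ne'
  -- the relation along the arc
  have rx : ∀ x ∈ uIcc xs xe, dx x = p * X x + q * Y (φ x) + c := by
    intro x hx
    have h1 := SY2_rel (h.sx x hx) cφ cψ hdx hdy cdx cdy hX hY
    rw [hdx]
    linear_combination h1 + hc
  have ry : ∀ y ∈ uIcc ys ye, dy y = p * X (ψ y) + q * Y y + c := by
    intro y hy
    have h1 := SY2_rel (h.sy y hy) cφ cψ hdx hdy cdx cdy hX hY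
    rw [hdy]
    linear_combination h1 + hc
  have re := SY2_rel h.full cφ cψ hdx hdy cdx cdy hX hY
  have ci : Continuous (fun x => 1 / dx x) := continuous_const.div cdx px
  have ci1 : Continuous (fun x => X x / dx x) := cX.div cdx px
  have ci2 : Continuous (fun x => X x ^ 2 / dx x) := (cX.pow 2).div cdx px
  have cj : Continuous (fun y => 1 / dy y) := continuous_const.div cdy py
  have cj1 : Continuous (fun y => Y y / dy y) := cY.div cdy py
  have cj2 : Continuous (fun y => Y y ^ 2 / dy y) := (cY.pow 2).div cdy py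
  have edx : ∀ x, Real.exp (-p * x) * Real.exp (-q * φ x) = 1 / dx x := by
    intro x
    rw [hdx, one_div, ← Real.exp_neg, ← Real.exp_add]
    congr 1
    ring
  have edy : ∀ y, Real.exp (-p * ψ y) * Real.exp (-q * y) = 1 / dy y := by
    intro y
    rw [hdy, one_div, ← Real.exp_neg, ← Real.exp_add]
    congr 1
    ring
  have ee : ∀ x y : ℝ, Real.exp (-p * x) * Real.exp (-q * y) = 1 / Real.exp (p * x + q * y) := by
    intro x y
    rw [one_div, ← Real.exp_neg, ← Real.exp_add]
    congr 1
    ring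
  have dA : ∀ x, HasDerivAt (fun x => X x * Real.exp (-p * x)) ((dx x - p * X x) * Real.exp (-p * x)) x := by
    intro x
    have h1 : HasDerivAt (fun x => X x * Real.exp (-p * x)) (dx x * Real.exp (-p * x) + X x * (-p * Real.exp (-p * x))) x :=
      (hX x).mul (SY2_exp (-p) x)
    exact h1.congr_deriv (by ring)
  have dB : ∀ y, HasDerivAt (fun y => Y y * Real.exp (-q * y)) ((dy y - q * Y y) * Real.exp (-q * y)) y := by
    intro y
    have h1 : HasDerivAt (fun y => Y y * Real.exp (-q * y)) (dy y * Real.exp (-q * y) + Y y * (-q * Real.exp (-q * y))) y :=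
      (hY y).mul (SY2_exp (-q) y)
    exact h1.congr_deriv (by ring)
  refine ⟨by linear_combination re + hc, ?_, ?_, ?_⟩
  · -- e^{-px} e^{-qy}
    have h1 := h.full.parts cφ cψ (A := fun x => Real.exp (-p * x)) (B := fun y => Real.exp (-q * y))
      (f := fun x => -p * Real.exp (-p * x)) (g := fun y => -q * Real.exp (-q * y)) (by fun_prop) (by fun_prop)
      (fun x => SY2_exp (-p) x) (fun y => SY2_exp (-q) y)
    have e1 : (∫ x in xs..xe, (fun x => -p * Real.exp (-p * x)) x * (fun y => Real.exp (-q * y)) (φ x)) =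
        - p * ∫ x in xs..xe, 1 / dx x := by
      rw [← intervalIntegral.integral_const_mul]
      refine intervalIntegral.integral_congr fun x _ => ?_
      show -p * Real.exp (-p * x) * Real.exp (-q * φ x) = -p * (1 / dx x)
      rw [← edx]
      ring
    have e2 : (∫ y in ys..ye, (fun x => Real.exp (-p * x)) (ψ y) * (fun y => -q * Real.exp (-q * y)) y) =
        - q * ∫ y in ys..ye, 1 / dy y := by
      rw [← intervalIntegral.integral_const_mul]
      refine intervalIntegral.integral_congr fun y _ => ?_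
      show Real.exp (-p * ψ y) * (-q * Real.exp (-q * y)) = -q * (1 / dy y)
      rw [← edy]
      ring
    rw [e1, e2] at h1
    rw [← ee, ← ee]
    linear_combination -h1
  · -- X e^{-px} e^{-qy}
    have h1 := h.full.parts cφ cψ (A := fun x => X x * Real.exp (-p * x)) (B := fun y => Real.exp (-q * y))
      (f := fun x => (dx x - p * X x) * Real.exp (-p * x)) (g := fun y => -q * Real.exp (-q * y)) (by fun_prop) (by fun_prop)
      dA (fun y => SY2_exp (-q) y)
    have e1 : (∫ x in xs..xe, (fun x => (dx x - p * X x) * Real.exp (-p * x)) x * (fun y => Real.exp (-q * y)) (φ x)) =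
        (xe - xs) - p * ∫ x in xs..xe, X x / dx x := by
      have h2 := SY2_lin xs xe ci1 (continuous_const (y := (0:ℝ))) (continuous_const (y := (0:ℝ))) (continuous_const (y := (0:ℝ)))
        1 (-p) 0 0 0
      rw [intervalIntegral.integral_congr (g := fun x => 1 + -p * (X x / dx x) + 0 * 0 + 0 * 0 + 0 * 0), h2]
      · ring
      · intro x _
        show (dx x - p * X x) * Real.exp (-p * x) * Real.exp (-q * φ x) = 1 + -p * (X x / dx x) + 0 * 0 + 0 * 0 + 0 * 0
        rw [mul_assoc, edx]
        have := px x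
        field_simp
        ring
    have e2 : (∫ y in ys..ye, (fun x => X x * Real.exp (-p * x)) (ψ y) * (fun y => -q * Real.exp (-q * y)) y) =
        - q / p * (ye - ys) + q ^ 2 / p * (∫ y in ys..ye, Y y / dy y) + q * c / p * ∫ y in ys..ye, 1 / dy y := by
      have h2 := SY2_lin ys ye cj1 cj (continuous_const (y := (0:ℝ))) (continuous_const (y := (0:ℝ)))
        (- q / p) (q ^ 2 / p) (q * c / p) 0 0
      rw [intervalIntegral.integral_congr (g := fun y => - q / p + q ^ 2 / p * (Y y / dy y) + q * c / p * (1 / dy y) + 0 * 0 + 0 * 0), h2]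
      · ring
      · intro y hy
        show X (ψ y) * Real.exp (-p * ψ y) * (-q * Real.exp (-q * y)) =
          - q / p + q ^ 2 / p * (Y y / dy y) + q * c / p * (1 / dy y) + 0 * 0 + 0 * 0
        have h3 : X (ψ y) * Real.exp (-p * ψ y) * (-q * Real.exp (-q * y)) = - q * X (ψ y) * (1 / dy y) := by
          rw [← edy]
          ring
        have h4 : X (ψ y) = (dy y - q * Y y - c) / p := by
          rw [eq_div_iff hp]
          linear_combination -(ry y hy)
        rw [h3, h4]
        have := py y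
        field_simp
        ring
    rw [e1, e2] at h1
    have h5 : X xe / Real.exp (p * xe + q * ye) - X xs / Real.exp (p * xs + q * ys) =
        X xe * Real.exp (-p * xe) * Real.exp (-q * ye) - X xs * Real.exp (-p * xs) * Real.exp (-q * ys) := by
      rw [mul_assoc, mul_assoc, ee, ee]
      ring
    rw [h5]
    linear_combination -h1
  · -- X e^{-px} Y e^{-qy}
    have h1 := h.full.parts cφ cψ (A := fun x => X x * Real.exp (-p * x)) (B := fun y => Y y * Real.exp (-q * y))
      (f := fun x => (dx x - p * X x) * Real.exp (-p * x)) (g := fun y => (dy y - q * Y y) * Real.exp (-q * y)) (by fun_prop) (by fun_prop)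
      dA dB
    have e1 : (∫ x in xs..xe, (fun x => (dx x - p * X x) * Real.exp (-p * x)) x * (fun y => Y y * Real.exp (-q * y)) (φ x)) =
        1 / q * ((X xe - X xs) - 2 * p * (∫ x in xs..xe, X x) + p ^ 2 * (∫ x in xs..xe, X x ^ 2 / dx x) - c * (xe - xs) +
        c * p * ∫ x in xs..xe, X x / dx x) := by
      have h2 := SY2_lin xs xe cdx cX ci2 ci1 (- c / q) (1 / q) (- (2 * p) / q) (p ^ 2 / q) (c * p / q)
      rw [intervalIntegral.integral_congr (g := fun x => - c / q + 1 / q * dx x + - (2 * p) / q * X x + p ^ 2 / q * (X x ^ 2 / dx x) +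
        c * p / q * (X x / dx x)), h2, SY2_int cdx hX]
      · ring
      · intro x hx
        show (dx x - p * X x) * Real.exp (-p * x) * (Y (φ x) * Real.exp (-q * φ x)) =
          - c / q + 1 / q * dx x + - (2 * p) / q * X x + p ^ 2 / q * (X x ^ 2 / dx x) + c * p / q * (X x / dx x)
        have h3 : (dx x - p * X x) * Real.exp (-p * x) * (Y (φ x) * Real.exp (-q * φ x)) =
            (dx x - p * X x) * Y (φ x) * (1 / dx x) := by
          rw [← edx]
          ring
        have h4 : Y (φ x) = (dx x - p * X x - c) / q := by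
          rw [eq_div_iff hq]
          linear_combination -(rx x hx)
        rw [h3, h4]
        have := px x
        field_simp
        ring
    have e2 : (∫ y in ys..ye, (fun x => X x * Real.exp (-p * x)) (ψ y) * (fun y => (dy y - q * Y y) * Real.exp (-q * y)) y) =
        1 / p * ((Y ye - Y ys) - 2 * q * (∫ y in ys..ye, Y y) + q ^ 2 * (∫ y in ys..ye, Y y ^ 2 / dy y) - c * (ye - ys) +
        c * q * ∫ y in ys..ye, Y y / dy y) := by
      have h2 := SY2_lin ys ye cdy cY cj2 cj1 (- c / p) (1 / p) (- (2 * q) / p) (q ^ 2 / p) (c * q / p)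
      rw [intervalIntegral.integral_congr (g := fun y => - c / p + 1 / p * dy y + - (2 * q) / p * Y y + q ^ 2 / p * (Y y ^ 2 / dy y) +
        c * q / p * (Y y / dy y)), h2, SY2_int cdy hY]
      · ring
      · intro y hy
        show X (ψ y) * Real.exp (-p * ψ y) * ((dy y - q * Y y) * Real.exp (-q * y)) =
          - c / p + 1 / p * dy y + - (2 * q) / p * Y y + q ^ 2 / p * (Y y ^ 2 / dy y) + c * q / p * (Y y / dy y)
        have h3 : X (ψ y) * Real.exp (-p * ψ y) * ((dy y - q * Y y) * Real.exp (-q * y)) =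
            (dy y - q * Y y) * X (ψ y) * (1 / dy y) := by
          rw [← edy]
          ring
        have h4 : X (ψ y) = (dy y - q * Y y - c) / p := by
          rw [eq_div_iff hp]
          linear_combination -(ry y hy)
        rw [h3, h4]
        have := py y
        field_simp
        ring
    rw [e1, e2] at h1
    have h5 : X xe * Y ye / Real.exp (p * xe + q * ye) - X xs * Y ys / Real.exp (p * xs + q * ys) =
        X xe * Real.exp (-p * xe) * (Y ye * Real.exp (-q * ye)) - X xs * Real.exp (-p * xs) * (Y ys * Real.exp (-q * ys)) := by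
      have h6 : ∀ a b x y : ℝ, a * Real.exp (-p * x) * (b * Real.exp (-q * y)) = a * b * (1 / Real.exp (p * x + q * y)) := by
        intro a b x y
        rw [← ee]
        ring
      rw [h6, h6]
      ring
    rw [h5]
    exact h1.symm

/-- The identities on an arc, without divisions by `p` and `q`. -/
theorem Arc.ids' {p q : ℝ} (hp : p ≠ 0) (hq : q ≠ 0) {φ ψ : ℝ → ℝ} {xs ys xe ye : ℝ} (h : Arc φ ψ xs ys xe ye)
    {X Y dx dy : ℝ → ℝ} (hdx : ∀ x, dx x = Real.exp (p * x + q * φ x)) (hdy : ∀ y, dy y = Real.exp (p * ψ y + q * y))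
    (hX : ∀ x, HasDerivAt X (dx x) x) (hY : ∀ y, HasDerivAt Y (dy y) y) {c : ℝ}
    (hc : Real.exp (p * xs + q * ys) = p * X xs + q * Y ys + c) :
    Real.exp (p * xe + q * ye) = p * X xe + q * Y ye + c ∧
    1 / Real.exp (p * xe + q * ye) - 1 / Real.exp (p * xs + q * ys) =
      - p * (∫ x in xs..xe, 1 / dx x) - q * ∫ y in ys..ye, 1 / dy y ∧
    p * (X xe / Real.exp (p * xe + q * ye) - X xs / Real.exp (p * xs + q * ys)) =
      p * (xe - xs) - p ^ 2 * (∫ x in xs..xe, X x / dx x) - q * (ye - ys) + q ^ 2 * (∫ y in ys..ye, Y y / dy y) +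
        q * c * ∫ y in ys..ye, 1 / dy y ∧
    p * q * (X xe * Y ye / Real.exp (p * xe + q * ye) - X xs * Y ys / Real.exp (p * xs + q * ys)) =
      p * ((X xe - X xs) - 2 * p * (∫ x in xs..xe, X x) + p ^ 2 * (∫ x in xs..xe, X x ^ 2 / dx x) - c * (xe - xs) +
        c * p * ∫ x in xs..xe, X x / dx x) +
      q * ((Y ye - Y ys) - 2 * q * (∫ y in ys..ye, Y y) + q ^ 2 * (∫ y in ys..ye, Y y ^ 2 / dy y) - c * (ye - ys) +
        c * q * ∫ y in ys..ye, Y y / dy y) := by
  obtain ⟨h0, h1, h2, h3⟩ := h.ids hp hq hdx hdy hX hY hc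
  refine ⟨h0, h1, ?_, ?_⟩
  · rw [h2]
    field_simp
  · rw [h3]
    field_simp

end Pool.Agent.Lib.MP_1dedaf_gt.DK
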