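import Pool.Agent.Lib.MP_1dedaf_gt.DK.EP.SY2
import Pool.Agent.Lib.MP_1dedaf_gt.DK.Reg

/-!
# The two views of a body (campaign EP, SY3): the boundary of a body as eight arcs
-/

set_option autoImplicit false

open MeasureTheory Set Filter Topology

namespace Pool.Agent.Lib.MP_1dedaf_gt.DK

/-- Exchange of the coordinates. -/
theorem Bd.Ok.swp {K : Bd} (h : K.Ok) : K.swap.Ok where
  hp := h.hq
  hq := h.hp
  hw := h.hh
  hh := h.hw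
  cl := h.cg
  cu := h.cr
  cg := h.cl
  cr := h.cu
  vl := h.vg
  vu := h.vr
  vg := h.vl
  vr := h.vu
  lu := h.gr
  gr := h.lu
  fat := by
    obtain ⟨x, hx, hx'⟩ := h.fat
    have c1 := h.cl
    have c2 := h.cu
    -- the midpoint of the column over `x` and a nearby column
    obtain ⟨δ, hδ, hb⟩ : ∃ δ > 0, ∀ t, |t - x| < δ → K.l t < (K.l x + K.u x) / 2 ∧ (K.l x + K.u x) / 2 < K.u t := by
      have e1 : ∀ᶠ t in 𝓝 x, K.l t < (K.l x + K.u x) / 2 :=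
        c1.continuousAt.eventually_lt continuousAt_const (by linarith)
      have e2 : ∀ᶠ t in 𝓝 x, (K.l x + K.u x) / 2 < K.u t :=
        continuousAt_const.eventually_lt c2.continuousAt (by linarith)
      obtain ⟨δ, hδ, hb⟩ := Metric.eventually_nhds_iff.1 (e1.and e2)
      exact ⟨δ, hδ, fun t ht => hb (by rwa [Real.dist_eq])⟩
    set m := (K.l x + K.u x) / 2 with hm
    have hx1 : K.mem x m := ⟨hx.1, hx.2, (hb x (by simpa using hδ)).1.le, (hb x (by simpa using hδ)).2.le⟩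
    have hm1 := (h.iff x m).1 hx1
    refine ⟨m, ⟨hm1.1, hm1.2.1⟩, ?_⟩
    -- a second point of the row
    by_cases hxw : x < K.w
    · set t := min (x + δ / 2) K.w with ht
      have h1 : x < t := lt_min (by linarith) hxw
      have h2 : t ≤ x + δ / 2 := min_le_left _ _
      have h3 := hb t (by rw [abs_lt]; constructor <;> linarith)
      have h4 : K.mem t m := ⟨hx.1.trans h1.le, min_le_right _ _, h3.1.le, h3.2.le⟩
      have h5 := (h.iff t m).1 h4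
      exact lt_of_le_of_lt hm1.2.2.1 (lt_of_lt_of_le h1 h5.2.2.2)
    · have hxw' : x = K.w := le_antisymm hx.2 (not_lt.1 hxw)
      have hw := h.hw
      set t := max (x - δ / 2) 0 with ht
      have h1 : t < x := max_lt (by linarith) (by rw [hxw']; exact hw)
      have h2 : x - δ / 2 ≤ t := le_max_left _ _
      have h3 := hb t (by rw [abs_lt]; constructor <;> linarith)
      have h4 : K.mem t m := ⟨le_max_right _ _, h1.le.trans hx.2, h3.1.le, h3.2.le⟩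
      have h5 := (h.iff t m).1 h4
      exact lt_of_le_of_lt h5.2.2.1 (lt_of_lt_of_le h1 hm1.2.2.2)
  iff := fun x y => (h.iff y x).symm

private theorem SY3_mono {f : ℝ → ℝ} {A B c : ℝ} (hf : ConvexOn ℝ (Icc A B) f) (hc : c ∈ Icc A B)
    (h : ∀ x ∈ Icc A B, c < x → f c < f x) : StrictMonoOn f (Icc c B) := by
  intro a ha b hb hab
  have hb' : b ∈ Icc A B := ⟨hc.1.trans hb.1, hb.2⟩
  have hcb : c < b := lt_of_le_of_lt ha.1 hab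
  have hfb := h b hb' hcb
  have hpos : 0 < b - c := by linarith
  have h0 : ∀ ⦃s t : ℝ⦄, 0 ≤ s → 0 ≤ t → s + t = 1 → f (s • c + t • b) ≤ s • f c + t • f b := hf.2 hc hb'
  have h1 := h0 (s := (b - a) / (b - c)) (t := (a - c) / (b - c)) (div_nonneg (by linarith) hpos.le)
    (div_nonneg (by linarith [ha.1]) hpos.le) (by field_simp; ring)
  have h2 : ((b - a) / (b - c)) • c + ((a - c) / (b - c)) • b = a := by
    simp only [smul_eq_mul]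
    field_simp
    ring
  rw [h2] at h1
  simp only [smul_eq_mul] at h1
  have h3 : (b - a) / (b - c) * f c + (a - c) / (b - c) * f b < f b := by
    have h4 : 0 < (b - a) / (b - c) := div_pos (by linarith) hpos
    have h5 : (b - a) / (b - c) + (a - c) / (b - c) = 1 := by field_simp; ring
    have h6 : (a - c) / (b - c) = 1 - (b - a) / (b - c) := by linarith
    rw [h6]
    nlinarith
  exact lt_of_le_of_lt h1 h3

private theorem SY3_anti {f : ℝ → ℝ} {A B c : ℝ} (hf : ConvexOn ℝ (Icc A B) f) (hc : c ∈ Icc A B)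
    (h : ∀ x ∈ Icc A B, x < c → f c < f x) : StrictAntiOn f (Icc A c) := by
  intro a ha b hb hab
  have ha' : a ∈ Icc A B := ⟨ha.1, ha.2.trans hc.2⟩
  have hac : a < c := lt_of_lt_of_le hab hb.2
  have hfa := h a ha' hac
  have hpos : 0 < c - a := by linarith
  have h0 : ∀ ⦃s t : ℝ⦄, 0 ≤ s → 0 ≤ t → s + t = 1 → f (s • a + t • c) ≤ s • f a + t • f c := hf.2 ha' hc
  have h1 := h0 (s := (c - b) / (c - a)) (t := (b - a) / (c - a)) (div_nonneg (by linarith [hb.2]) hpos.le)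
    (div_nonneg (by linarith) hpos.le) (by field_simp; ring)
  have h2 : ((c - b) / (c - a)) • a + ((b - a) / (c - a)) • c = b := by
    simp only [smul_eq_mul]
    field_simp
    ring
  rw [h2] at h1
  simp only [smul_eq_mul] at h1
  have h3 : (c - b) / (c - a) * f a + (b - a) / (c - a) * f c < f a := by
    have h4 : 0 < (b - a) / (c - a) := div_pos (by linarith) hpos
    have h6 : (c - b) / (c - a) = 1 - (b - a) / (c - a) := by field_simp; ring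
    rw [h6]
    nlinarith
  exact lt_of_le_of_lt h1 h3

variable {K : Bd}

theorem Bd.Ok.m00 (h : K.Ok) : (0:ℝ) ∈ Icc 0 K.w := ⟨le_rfl, h.hw.le⟩

theorem Bd.Ok.mww (h : K.Ok) : K.w ∈ Icc 0 K.w := ⟨h.hw.le, le_rfl⟩

/-- Lower points. -/
theorem Bd.Ok.low (h : K.Ok) {x : ℝ} (hx : x ∈ Icc 0 K.w) :
    0 ≤ K.l x ∧ K.l x ≤ K.h ∧ K.g (K.l x) ≤ x ∧ x ≤ K.r (K.l x) :=
  (h.iff x (K.l x)).1 ⟨hx.1, hx.2, le_rfl, h.lu x hx⟩

/-- Upper points. -/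
theorem Bd.Ok.upp (h : K.Ok) {x : ℝ} (hx : x ∈ Icc 0 K.w) :
    0 ≤ K.u x ∧ K.u x ≤ K.h ∧ K.g (K.u x) ≤ x ∧ x ≤ K.r (K.u x) :=
  (h.iff x (K.u x)).1 ⟨hx.1, hx.2, h.lu x hx, le_rfl⟩

/-- Left points. -/
theorem Bd.Ok.lef (h : K.Ok) {y : ℝ} (hy : y ∈ Icc 0 K.h) :
    0 ≤ K.g y ∧ K.g y ≤ K.w ∧ K.l (K.g y) ≤ y ∧ y ≤ K.u (K.g y) :=
  (h.iff (K.g y) y).2 ⟨hy.1, hy.2, le_rfl, h.gr y hy⟩

/-- Right points. -/
theorem Bd.Ok.rig (h : K.Ok) {y : ℝ} (hy : y ∈ Icc 0 K.h) :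
    0 ≤ K.r y ∧ K.r y ≤ K.w ∧ K.l (K.r y) ≤ y ∧ y ≤ K.u (K.r y) :=
  (h.iff (K.r y) y).2 ⟨hy.1, hy.2, h.gr y hy, le_rfl⟩

/-- The part of the boundary on `y = 0`. -/
theorem Bd.Ok.l_zero (h : K.Ok) {x : ℝ} (hx : x ∈ Icc 0 K.w) : K.l x = 0 ↔ K.g 0 ≤ x ∧ x ≤ K.r 0 := by
  have h1 := h.iff x 0
  have h2 := h.low hx
  constructor
  · intro h0
    have h3 := h1.1 ⟨hx.1, hx.2, h0.le, by rw [← h0]; exact h.lu x hx⟩
    exact ⟨h3.2.2.1, h3.2.2.2⟩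
  · rintro ⟨ha, hb⟩
    have h3 := h1.2 ⟨le_rfl, h.hh.le, ha, hb⟩
    exact le_antisymm h3.2.2.1 h2.1

/-- The part of the boundary on `y = h`. -/
theorem Bd.Ok.u_top (h : K.Ok) {x : ℝ} (hx : x ∈ Icc 0 K.w) : K.u x = K.h ↔ K.g K.h ≤ x ∧ x ≤ K.r K.h := by
  have h1 := h.iff x K.h
  have h2 := h.upp hx
  constructor
  · intro h0
    have h3 := h1.1 ⟨hx.1, hx.2, by rw [← h0]; exact h.lu x hx, h0.ge⟩
    exact ⟨h3.2.2.1, h3.2.2.2⟩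
  · rintro ⟨ha, hb⟩
    have h3 := h1.2 ⟨h.hh.le, le_rfl, ha, hb⟩
    exact le_antisymm h2.2.1 h3.2.2.2

theorem Bd.Ok.z_mem (h : K.Ok) : K.g 0 ∈ Icc 0 K.w ∧ K.r 0 ∈ Icc 0 K.w ∧ K.g 0 ≤ K.r 0 := by
  have h0 : (0:ℝ) ∈ Icc 0 K.h := ⟨le_rfl, h.hh.le⟩
  exact ⟨⟨(h.lef h0).1, (h.lef h0).2.1⟩, ⟨(h.rig h0).1, (h.rig h0).2.1⟩, h.gr 0 h0⟩

theorem Bd.Ok.t_mem (h : K.Ok) : K.g K.h ∈ Icc 0 K.w ∧ K.r K.h ∈ Icc 0 K.w ∧ K.g K.h ≤ K.r K.h := by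
  have h0 : K.h ∈ Icc 0 K.h := ⟨h.hh.le, le_rfl⟩
  exact ⟨⟨(h.lef h0).1, (h.lef h0).2.1⟩, ⟨(h.rig h0).1, (h.rig h0).2.1⟩, h.gr _ h0⟩

theorem Bd.Ok.l_anti (h : K.Ok) : StrictAntiOn K.l (Icc 0 (K.g 0)) := by
  refine SY3_anti h.vl h.z_mem.1 fun x hx hlt => ?_
  rw [(h.l_zero h.z_mem.1).2 ⟨le_rfl, h.z_mem.2.2⟩]
  refine lt_of_le_of_ne (h.low hx).1 fun h0 => ?_
  exact absurd ((h.l_zero hx).1 h0.symm).1 (not_le.2 hlt)

theorem Bd.Ok.l_mono (h : K.Ok) : StrictMonoOn K.l (Icc (K.r 0) K.w) := by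
  refine SY3_mono h.vl h.z_mem.2.1 fun x hx hlt => ?_
  rw [(h.l_zero h.z_mem.2.1).2 ⟨h.z_mem.2.2, le_rfl⟩]
  refine lt_of_le_of_ne (h.low hx).1 fun h0 => ?_
  exact absurd ((h.l_zero hx).1 h0.symm).2 (not_le.2 hlt)

theorem Bd.Ok.u_mono (h : K.Ok) : StrictMonoOn K.u (Icc 0 (K.g K.h)) := by
  have h1 : StrictAntiOn (-K.u) (Icc 0 (K.g K.h)) := by
    refine SY3_anti h.vu.neg h.t_mem.1 fun x hx hlt => ?_
    simp only [Pi.neg_apply]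
    rw [(h.u_top h.t_mem.1).2 ⟨le_rfl, h.t_mem.2.2⟩]
    refine neg_lt_neg (lt_of_le_of_ne (h.upp hx).2.1 fun h0 => ?_)
    exact absurd ((h.u_top hx).1 h0).1 (not_le.2 hlt)
  intro a ha b hb hab
  have := h1 ha hb hab
  simp only [Pi.neg_apply] at this
  linarith

theorem Bd.Ok.u_anti (h : K.Ok) : StrictAntiOn K.u (Icc (K.r K.h) K.w) := by
  have h1 : StrictMonoOn (-K.u) (Icc (K.r K.h) K.w) := by
    refine SY3_mono h.vu.neg h.t_mem.2.1 fun x hx hlt => ?_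
    simp only [Pi.neg_apply]
    rw [(h.u_top h.t_mem.2.1).2 ⟨h.t_mem.2.2, le_rfl⟩]
    refine neg_lt_neg (lt_of_le_of_ne (h.upp hx).2.1 fun h0 => ?_)
    exact absurd ((h.u_top hx).1 h0).2 (not_le.2 hlt)
  intro a ha b hb hab
  have := h1 ha hb hab
  simp only [Pi.neg_apply] at this
  linarith

/-- Near arc. -/
theorem Bd.Ok.inv_N (h : K.Ok) {x : ℝ} (hx : x ∈ Icc 0 (K.g 0)) : K.l x ∈ Icc 0 (K.l 0) ∧ K.g (K.l x) = x := by
  have hz := h.z_mem.1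
  have hx' : x ∈ Icc 0 K.w := ⟨hx.1, hx.2.trans hz.2⟩
  have h1 := h.low hx'
  refine ⟨⟨h1.1, h.l_anti.antitoneOn ⟨le_rfl, hz.1⟩ hx hx.1⟩, ?_⟩
  refine le_antisymm h1.2.2.1 (not_lt.1 fun hlt => ?_)
  have h2 := h.lef (y := K.l x) ⟨h1.1, h1.2.1⟩
  have h3 := h.l_anti ⟨h2.1, (hlt.le).trans hx.2⟩ hx hlt
  exact absurd h2.2.2.1 (not_le.2 h3)

/-- Lower right arc. -/
theorem Bd.Ok.inv_LR (h : K.Ok) {x : ℝ} (hx : x ∈ Icc (K.r 0) K.w) : K.l x ∈ Icc 0 (K.l K.w) ∧ K.r (K.l x) = x := by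
  have hz := h.z_mem.2.1
  have hx' : x ∈ Icc 0 K.w := ⟨hz.1.trans hx.1, hx.2⟩
  have h1 := h.low hx'
  refine ⟨⟨h1.1, h.l_mono.monotoneOn hx ⟨hz.2, le_rfl⟩ hx.2⟩, ?_⟩
  refine le_antisymm (not_lt.1 fun hlt => ?_) h1.2.2.2
  have h2 := h.rig (y := K.l x) ⟨h1.1, h1.2.1⟩
  have h3 := h.l_mono hx ⟨hx.1.trans hlt.le, h2.2.1⟩ hlt
  exact absurd h2.2.2.1 (not_le.2 h3)

/-- Upper left arc. -/
theorem Bd.Ok.inv_UL (h : K.Ok) {x : ℝ} (hx : x ∈ Icc 0 (K.g K.h)) : K.u x ∈ Icc (K.u 0) K.h ∧ K.g (K.u x) = x := by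
  have hz := h.t_mem.1
  have hx' : x ∈ Icc 0 K.w := ⟨hx.1, hx.2.trans hz.2⟩
  have h1 := h.upp hx'
  refine ⟨⟨h.u_mono.monotoneOn ⟨le_rfl, hz.1⟩ hx hx.1, h1.2.1⟩, ?_⟩
  refine le_antisymm h1.2.2.1 (not_lt.1 fun hlt => ?_)
  have h2 := h.lef (y := K.u x) ⟨h1.1, h1.2.1⟩
  have h3 := h.u_mono ⟨h2.1, (hlt.le).trans hx.2⟩ hx hlt
  exact absurd h2.2.2.2 (not_le.2 h3)

/-- Upper right arc. -/
theorem Bd.Ok.inv_UR (h : K.Ok) {x : ℝ} (hx : x ∈ Icc (K.r K.h) K.w) : K.u x ∈ Icc (K.u K.w) K.h ∧ K.r (K.u x) = x := by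
  have hz := h.t_mem.2.1
  have hx' : x ∈ Icc 0 K.w := ⟨hz.1.trans hx.1, hx.2⟩
  have h1 := h.upp hx'
  refine ⟨⟨h.u_anti.antitoneOn hx ⟨hz.2, le_rfl⟩ hx.2, h1.2.1⟩, ?_⟩
  refine le_antisymm (not_lt.1 fun hlt => ?_) h1.2.2.2
  have h2 := h.rig (y := K.u x) ⟨h1.1, h1.2.1⟩
  have h3 := h.u_anti hx ⟨hx.1.trans hlt.le, h2.2.1⟩ hlt
  exact absurd h2.2.2.2 (not_le.2 h3)

/-- Part of a decreasing curve. -/
theorem Arc_dec {a b c d : ℝ} {φ ψ : ℝ → ℝ} (cφ : Continuous φ) (cψ : Continuous ψ)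
    (aφ : AntitoneOn φ (Icc a b)) (aψ : AntitoneOn ψ (Icc c d)) (mφ : ∀ x ∈ Icc a b, φ x ∈ Icc c d) (mψ : ∀ y ∈ Icc c d, ψ y ∈ Icc a b)
    (i1 : ∀ x ∈ Icc a b, ψ (φ x) = x) (i2 : ∀ y ∈ Icc c d, φ (ψ y) = y) {xs xe : ℝ} (hs : xs ∈ Icc a b) (he : xe ∈ Icc a b) :
    Arc φ ψ xs (φ xs) xe (φ xe) := by
  have key : ∀ x ∈ Icc a b, ∀ x' ∈ Icc a b, x ≤ x' → PP φ ψ x (φ x) x' (φ x') := by
    intro x hx x' hx' hle
    have h0 : φ x' ≤ φ x := aφ hx hx' hle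
    refine PP_dec x x' (φ x') (φ x) hle h0 φ ψ cφ cψ ?_ ?_ ?_
    · intro t ht
      have ht' : t ∈ Icc a b := ⟨hx.1.trans ht.1, ht.2.trans hx'.2⟩
      exact ⟨aφ ht' hx' ht.2, aφ hx ht' ht.1⟩
    · intro y hy
      have hy' : y ∈ Icc c d := ⟨(mφ x' hx').1.trans hy.1, hy.2.trans (mφ x hx).2⟩
      constructor
      · have := aψ hy' (mφ x hx) hy.2
        rwa [i1 x hx] at this
      · have := aψ (mφ x' hx') hy' hy.1
        rwa [i1 x' hx'] at this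
    · intro t ht y hy
      have ht' : t ∈ Icc a b := ⟨hx.1.trans ht.1, ht.2.trans hx'.2⟩
      have hy' : y ∈ Icc c d := ⟨(mφ x' hx').1.trans hy.1, hy.2.trans (mφ x hx).2⟩
      constructor
      · intro h1
        have := aψ hy' (mφ t ht') h1
        rwa [i1 t ht'] at this
      · intro h1
        have := aφ ht' (mψ y hy') h1
        rwa [i2 y hy'] at this
  have key2 : ∀ x ∈ Icc a b, ∀ x' ∈ Icc a b, PP φ ψ x (φ x) x' (φ x') := by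
    intro x hx x' hx'
    rcases le_total x x' with h1 | h1
    · exact key x hx x' hx' h1
    · exact (key x' hx' x hx h1).symm cφ cψ
  refine ⟨cφ, cψ, key2 _ hs _ he, fun x hx => ?_, fun y hy => ?_⟩
  · have hx' : x ∈ Icc a b := ⟨(le_min hs.1 he.1).trans hx.1, hx.2.trans (max_le hs.2 he.2)⟩
    exact key2 _ hs _ hx'
  · have hy' : y ∈ Icc c d := ⟨(le_min (mφ _ hs).1 (mφ _ he).1).trans hy.1, hy.2.trans (max_le (mφ _ hs).2 (mφ _ he).2)⟩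
    have := key2 _ hs _ (mψ y hy')
    rwa [i2 y hy'] at this

/-- Part of an increasing curve. -/
theorem Arc_inc {a b c d : ℝ} {φ ψ : ℝ → ℝ} (cφ : Continuous φ) (cψ : Continuous ψ)
    (aφ : MonotoneOn φ (Icc a b)) (aψ : MonotoneOn ψ (Icc c d)) (mφ : ∀ x ∈ Icc a b, φ x ∈ Icc c d) (mψ : ∀ y ∈ Icc c d, ψ y ∈ Icc a b)
    (i1 : ∀ x ∈ Icc a b, ψ (φ x) = x) (i2 : ∀ y ∈ Icc c d, φ (ψ y) = y) {xs xe : ℝ} (hs : xs ∈ Icc a b) (he : xe ∈ Icc a b) :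
    Arc φ ψ xs (φ xs) xe (φ xe) := by
  have key : ∀ x ∈ Icc a b, ∀ x' ∈ Icc a b, x ≤ x' → PP φ ψ x (φ x) x' (φ x') := by
    intro x hx x' hx' hle
    have h0 : φ x ≤ φ x' := aφ hx hx' hle
    refine PP_inc x x' (φ x) (φ x') hle h0 φ ψ cφ cψ ?_ ?_ ?_
    · intro t ht
      have ht' : t ∈ Icc a b := ⟨hx.1.trans ht.1, ht.2.trans hx'.2⟩
      exact ⟨aφ hx ht' ht.1, aφ ht' hx' ht.2⟩
    · intro y hy
      have hy' : y ∈ Icc c d := ⟨(mφ x hx).1.trans hy.1, hy.2.trans (mφ x' hx').2⟩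
      constructor
      · have := aψ (mφ x hx) hy' hy.1
        rwa [i1 x hx] at this
      · have := aψ hy' (mφ x' hx') hy.2
        rwa [i1 x' hx'] at this
    · intro t ht y hy
      have ht' : t ∈ Icc a b := ⟨hx.1.trans ht.1, ht.2.trans hx'.2⟩
      have hy' : y ∈ Icc c d := ⟨(mφ x hx).1.trans hy.1, hy.2.trans (mφ x' hx').2⟩
      constructor
      · intro h1
        have := aψ hy' (mφ t ht') h1
        rwa [i1 t ht'] at this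
      · intro h1
        have := aφ (mψ y hy') ht' h1
        rwa [i2 y hy'] at this
  have key2 : ∀ x ∈ Icc a b, ∀ x' ∈ Icc a b, PP φ ψ x (φ x) x' (φ x') := by
    intro x hx x' hx'
    rcases le_total x x' with h1 | h1
    · exact key x hx x' hx' h1
    · exact (key x' hx' x hx h1).symm cφ cψ
  refine ⟨cφ, cψ, key2 _ hs _ he, fun x hx => ?_, fun y hy => ?_⟩
  · have hx' : x ∈ Icc a b := ⟨(le_min hs.1 he.1).trans hx.1, hx.2.trans (max_le hs.2 he.2)⟩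
    exact key2 _ hs _ hx'
  · have hy' : y ∈ Icc c d := ⟨(le_min (mφ _ hs).1 (mφ _ he).1).trans hy.1, hy.2.trans (max_le (mφ _ hs).2 (mφ _ he).2)⟩
    have := key2 _ hs _ (mψ y hy')
    rwa [i2 y hy'] at this

/-- Horizontal segments. -/
theorem Arc_hor {φ ψ : ℝ → ℝ} (cφ : Continuous φ) (cψ : Continuous ψ) {xs xe y0 : ℝ} (h : ∀ x ∈ uIcc xs xe, φ x = y0)
    (hψ : ψ y0 ∈ uIcc xs xe) : Arc φ ψ xs y0 xe y0 := by
  have key : ∀ x ∈ uIcc xs xe, PP φ ψ xs y0 x y0 := fun x hx =>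
    PP_hor φ ψ xs x y0 fun t ht => h t (uIcc_subset_uIcc left_mem_uIcc hx ht)
  refine ⟨cφ, cψ, key xe right_mem_uIcc, fun x hx => ?_, fun y hy => ?_⟩
  · rw [h x hx]
    exact key x hx
  · rw [uIcc_self, mem_singleton_iff] at hy
    rw [hy]
    exact key _ hψ

/-- Vertical segments. -/
theorem Arc_ver {φ ψ : ℝ → ℝ} (cφ : Continuous φ) (cψ : Continuous ψ) {x0 ys ye : ℝ} (h : ∀ y ∈ uIcc ys ye, ψ y = x0)
    (hφ : φ x0 ∈ uIcc ys ye) : Arc φ ψ x0 ys x0 ye := by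
  have key : ∀ y ∈ uIcc ys ye, PP φ ψ x0 ys x0 y := fun y hy =>
    PP_ver φ ψ x0 ys y fun t ht => h t (uIcc_subset_uIcc left_mem_uIcc hy ht)
  refine ⟨cφ, cψ, key ye right_mem_uIcc, fun x hx => ?_, fun y hy => ?_⟩
  · rw [uIcc_self, mem_singleton_iff] at hx
    rw [hx]
    exact key _ hφ
  · rw [h y hy]
    exact key y hy

/-- The eight arcs of the boundary, counterclockwise from the lower end of the side `x = 0`. -/
theorem Bd.Ok.arcs (h : K.Ok) :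
    Arc K.l K.g 0 (K.l 0) (K.g 0) 0 ∧ Arc K.l K.g (K.g 0) 0 (K.r 0) 0 ∧ Arc K.l K.r (K.r 0) 0 K.w (K.l K.w) ∧
    Arc K.l K.r K.w (K.l K.w) K.w (K.u K.w) ∧ Arc K.u K.r K.w (K.u K.w) (K.r K.h) K.h ∧
    Arc K.u K.r (K.r K.h) K.h (K.g K.h) K.h ∧ Arc K.u K.g (K.g K.h) K.h 0 (K.u 0) ∧ Arc K.l K.g 0 (K.u 0) 0 (K.l 0) := by
  have hs := h.swp
  have z := h.z_mem
  have t := h.t_mem
  have zs : K.l 0 ∈ Icc 0 K.h ∧ K.u 0 ∈ Icc 0 K.h ∧ K.l 0 ≤ K.u 0 := hs.z_mem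
  have ts : K.l K.w ∈ Icc 0 K.h ∧ K.u K.w ∈ Icc 0 K.h ∧ K.l K.w ≤ K.u K.w := hs.t_mem
  have lz : K.l (K.g 0) = 0 := (h.l_zero z.1).2 ⟨le_rfl, z.2.2⟩
  have lx1 : K.l (K.r 0) = 0 := (h.l_zero z.2.1).2 ⟨z.2.2, le_rfl⟩
  have utR : K.u (K.r K.h) = K.h := (h.u_top t.2.1).2 ⟨t.2.2, le_rfl⟩
  have utL : K.u (K.g K.h) = K.h := (h.u_top t.1).2 ⟨le_rfl, t.2.2⟩
  refine ⟨?_, ?_, ?_, ?_, ?_, ?_, ?_, ?_⟩
  · have h1 := Arc_dec h.cl h.cg h.l_anti.antitoneOn (show AntitoneOn K.g (Icc 0 (K.l 0)) from hs.l_anti.antitoneOn)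
      (fun x hx => (h.inv_N hx).1) (fun y hy => (hs.inv_N hy).1) (fun x hx => (h.inv_N hx).2) (fun y hy => (hs.inv_N hy).2)
      (xs := 0) (xe := K.g 0) ⟨le_rfl, z.1.1⟩ ⟨z.1.1, le_rfl⟩
    rwa [lz] at h1
  · refine Arc_hor h.cl h.cg (fun x hx => ?_) left_mem_uIcc
    rw [uIcc_of_le z.2.2] at hx
    exact (h.l_zero ⟨z.1.1.trans hx.1, hx.2.trans z.2.1.2⟩).2 hx
  · have h1 := Arc_inc h.cl h.cr h.l_mono.monotoneOn (show MonotoneOn K.r (Icc 0 (K.l K.w)) from hs.u_mono.monotoneOn)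
      (fun x hx => (h.inv_LR hx).1) (fun y hy => (hs.inv_UL hy).1) (fun x hx => (h.inv_LR hx).2) (fun y hy => (hs.inv_UL hy).2)
      (xs := K.r 0) (xe := K.w) ⟨le_rfl, z.2.1.2⟩ ⟨z.2.1.2, le_rfl⟩
    rwa [lx1] at h1
  · refine Arc_ver h.cl h.cr (fun y hy => ?_) left_mem_uIcc
    rw [uIcc_of_le ts.2.2] at hy
    exact (hs.u_top ⟨ts.1.1.trans hy.1, hy.2.trans ts.2.1.2⟩).2 hy
  · have h1 := Arc_dec h.cu h.cr h.u_anti.antitoneOn (show AntitoneOn K.r (Icc (K.u K.w) K.h) from hs.u_anti.antitoneOn)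
      (fun x hx => (h.inv_UR hx).1) (fun y hy => (hs.inv_UR hy).1) (fun x hx => (h.inv_UR hx).2) (fun y hy => (hs.inv_UR hy).2)
      (xs := K.w) (xe := K.r K.h) ⟨t.2.1.2, le_rfl⟩ ⟨le_rfl, t.2.1.2⟩
    rwa [utR] at h1
  · refine Arc_hor h.cu h.cr (fun x hx => ?_) left_mem_uIcc
    rw [uIcc_of_ge t.2.2] at hx
    exact (h.u_top ⟨t.1.1.trans hx.1, hx.2.trans t.2.1.2⟩).2 hx
  · have h1 := Arc_inc h.cu h.cg h.u_mono.monotoneOn (show MonotoneOn K.g (Icc (K.u 0) K.h) from hs.l_mono.monotoneOn)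
      (fun x hx => (h.inv_UL hx).1) (fun y hy => (hs.inv_LR hy).1) (fun x hx => (h.inv_UL hx).2) (fun y hy => (hs.inv_LR hy).2)
      (xs := K.g K.h) (xe := 0) ⟨t.1.1, le_rfl⟩ ⟨le_rfl, t.1.1⟩
    rwa [utL] at h1
  · refine Arc_ver h.cl h.cg (fun y hy => ?_) right_mem_uIcc
    rw [uIcc_of_ge zs.2.2] at hy
    exact (hs.l_zero ⟨zs.1.1.trans hy.1, hy.2.trans zs.2.1.2⟩).2 hy

end Pool.Agent.Lib.MP_1dedaf_gt.DK
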