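import Pool.Agent.Lib.MP_1dedaf_gt.Mg.G026
import Pool.Agent.Lib.MP_1dedaf_gt.Mg.G004

/-!
# EP U2a: the near arc by columns and by rows

`K : Bd` with `0 < K.g 0`, `0 < K.l 0`. On `[0, g 0] × [0, l 0]`: `y < l x ↔ x < g y` (`near_iff`). `near_arc`: for `x ∈ [0, z]`, `z = g 0`:
`∫_x^z A' t * B (l t) dt - ∫_0^{l x} A (g y) * B' y dy = A z * B 0 - A x * B (l x)` (Fubini for `A' B'` on `{t ∈ (x, z), y < l t}`).
-/

set_option autoImplicit false

open MeasureTheory Set Filter Topology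

namespace Pool.Agent.Lib.MP_1dedaf_gt.DK

/-- Facts about the near arc. -/
theorem near_facts (K : Bd) (h : K.Ok) :
    (∀ x ∈ Icc 0 K.w, 0 ≤ K.l x) ∧ (∀ y ∈ Icc 0 K.h, 0 ≤ K.g y) ∧ K.g 0 ≤ K.w ∧ K.l 0 ≤ K.h ∧ K.l (K.g 0) = 0 ∧ K.g (K.l 0) = 0 := by
  have hw := h.hw
  have hh := h.hh
  have h1 : ∀ x ∈ Icc 0 K.w, 0 ≤ K.l x := fun x hx =>
    ((h.iff x (K.l x)).1 ⟨hx.1, hx.2, le_rfl, h.lu x hx⟩).1
  have h2 : ∀ y ∈ Icc 0 K.h, 0 ≤ K.g y := fun y hy =>
    ((h.iff (K.g y) y).2 ⟨hy.1, hy.2, le_rfl, h.gr y hy⟩).1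
  have h3 : K.mem (K.g 0) 0 := (h.iff _ _).2 ⟨le_rfl, hh.le, le_rfl, h.gr 0 ⟨le_rfl, hh.le⟩⟩
  have h4 : K.mem 0 (K.l 0) := ⟨le_rfl, hw.le, le_rfl, h.lu 0 ⟨le_rfl, hw.le⟩⟩
  have h5 := (h.iff _ _).1 h4
  exact ⟨h1, h2, h3.2.1, h5.2.1, le_antisymm h3.2.2.1 (h1 _ ⟨h3.1, h3.2.1⟩), le_antisymm h5.2.2.1 (h2 _ ⟨h5.1, h5.2.1⟩)⟩

private theorem chord_conc {f : ℝ → ℝ} {H c α y : ℝ} (hf : ConcaveOn ℝ (Icc 0 H) f) (hc : 0 < c) (hcH : c ≤ H) (h0 : α ≤ f 0) (h1 : 0 ≤ f c)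
    (hy : y ∈ Icc 0 c) : α * (1 - y / c) ≤ f y := by
  have e4 : 0 ≤ 1 - y / c := by rw [sub_nonneg, div_le_one hc]; exact hy.2
  have e5 : 0 ≤ y / c := div_nonneg hy.1 hc.le
  have e1 := hf.2 (⟨le_rfl, hc.le.trans hcH⟩ : (0:ℝ) ∈ Icc 0 H) (⟨hc.le, hcH⟩ : c ∈ Icc 0 H) e4 e5 (by ring)
  simp only [smul_eq_mul, mul_zero, zero_add] at e1
  rw [div_mul_cancel₀ _ hc.ne'] at e1
  nlinarith [mul_nonneg e5 h1, mul_le_mul_of_nonneg_left h0 e4]

private theorem chord_conv {f : ℝ → ℝ} {H c y : ℝ} (hf : ConvexOn ℝ (Icc 0 H) f) (hc : 0 < c) (hcH : c ≤ H) (h1 : f c = 0)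
    (hy : y ∈ Icc 0 c) : f y ≤ f 0 * (1 - y / c) := by
  have e4 : 0 ≤ 1 - y / c := by rw [sub_nonneg, div_le_one hc]; exact hy.2
  have e5 : 0 ≤ y / c := div_nonneg hy.1 hc.le
  have e1 := hf.2 (⟨le_rfl, hc.le.trans hcH⟩ : (0:ℝ) ∈ Icc 0 H) (⟨hc.le, hcH⟩ : c ∈ Icc 0 H) e4 e5 (by ring)
  simp only [smul_eq_mul, mul_zero, zero_add] at e1
  rw [div_mul_cancel₀ _ hc.ne', h1, mul_zero, add_zero] at e1
  linarith

/-- The half plane above a chord. -/
private theorem chord_contra {a b x y : ℝ} (ha : 0 < a) (hb : 0 < b) (c3 : a * (1 - y / b) < x) (c4 : y < b * (1 - x / a)) : False := by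
  have c5 : a * (1 - y / b) * b < x * b := mul_lt_mul_of_pos_right c3 hb
  have c6 : y * a < b * (1 - x / a) * a := mul_lt_mul_of_pos_right c4 ha
  have c7 : a * (1 - y / b) * b = a * b - a * y := by
    field_simp
  have c8 : b * (1 - x / a) * a = a * b - b * x := by
    field_simp
  rw [c7] at c5
  rw [c8] at c6
  linarith

/-- `y < l x ↔ x < g y` near the corner. -/
theorem near_iff (K : Bd) (h : K.Ok) (hg : 0 < K.g 0) (hl : 0 < K.l 0) {x y : ℝ} (hx : x ∈ Icc 0 (K.g 0)) (hy : y ∈ Icc 0 (K.l 0)) :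
    y < K.l x ↔ x < K.g y := by
  obtain ⟨h1, h2, h3, h4, h5, h6⟩ := near_facts K h
  have hw := h.hw
  have hh := h.hh
  have hxw : x ∈ Icc 0 K.w := ⟨hx.1, hx.2.trans h3⟩
  have hyh : y ∈ Icc 0 K.h := ⟨hy.1, hy.2.trans h4⟩
  constructor
  · intro hlt
    by_contra hge
    push Not at hge
    have hr : K.r y < x := by
      by_contra h7
      push Not at h7
      exact absurd ((h.iff x y).2 ⟨hyh.1, hyh.2, hge, h7⟩).2.2.1 (not_le.2 hlt)
    have c1 : K.g 0 * (1 - y / K.l 0) ≤ K.r y :=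
      chord_conc h.vr hl h4 (h.gr 0 ⟨le_rfl, hh.le⟩) (by have := h.gr _ ⟨hl.le, h4⟩; rwa [h6] at this) hy
    have c2 : K.l x ≤ K.l 0 * (1 - x / K.g 0) := chord_conv h.vl hg h3 h5 hx
    exact chord_contra hg hl (lt_of_le_of_lt c1 hr) (lt_of_lt_of_le hlt c2)
  · intro hlt
    by_contra hge
    push Not at hge
    have hu : K.u x < y := by
      by_contra h7
      push Not at h7
      exact absurd ((h.iff x y).1 ⟨hxw.1, hxw.2, hge, h7⟩).2.2.1 (not_le.2 hlt)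
    have c1 : K.l 0 * (1 - x / K.g 0) ≤ K.u x :=
      chord_conc h.vu hg h3 (h.lu 0 ⟨le_rfl, hw.le⟩) (by have := h.lu _ ⟨hg.le, h3⟩; rwa [h5] at this) hx
    have c2 : K.g y ≤ K.g 0 * (1 - y / K.l 0) := chord_conv h.vg hl h4 h6 hy
    exact chord_contra hl hg (lt_of_le_of_lt c1 hu) (lt_of_lt_of_le hlt c2)

/-- `l` on the near arc. -/
theorem near_l (K : Bd) (h : K.Ok) (hg : 0 < K.g 0) : AntitoneOn K.l (Icc 0 (K.g 0)) ∧ ∀ x ∈ Icc 0 (K.g 0), K.l x ∈ Icc 0 (K.l 0) := by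
  obtain ⟨h1, h2, h3, h4, h5, h6⟩ := near_facts K h
  have ha : AntitoneOn K.l (Icc 0 (K.g 0)) := by
    intro x hx y hy hxy
    -- `y` is between `x` and `g 0`
    have hy' : y ∈ segment ℝ x (K.g 0) := by
      rw [segment_eq_Icc hx.2]
      exact ⟨hxy, hy.2⟩
    have := h.vl.le_max_of_mem_segment (⟨hx.1, hx.2.trans h3⟩ : x ∈ Icc 0 K.w) (⟨hg.le, h3⟩ : K.g 0 ∈ Icc 0 K.w) hy'
    rwa [h5, max_eq_left (h1 x ⟨hx.1, hx.2.trans h3⟩)] at this
  exact ⟨ha, fun x hx => ⟨h1 x ⟨hx.1, hx.2.trans h3⟩, ha ⟨le_rfl, hg.le⟩ hx hx.1⟩⟩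

/-- `g` on the near arc. -/
theorem near_g (K : Bd) (h : K.Ok) (hl : 0 < K.l 0) : AntitoneOn K.g (Icc 0 (K.l 0)) ∧ ∀ y ∈ Icc 0 (K.l 0), K.g y ∈ Icc 0 (K.g 0) := by
  obtain ⟨h1, h2, h3, h4, h5, h6⟩ := near_facts K h
  have ha : AntitoneOn K.g (Icc 0 (K.l 0)) := by
    intro x hx y hy hxy
    have hy' : y ∈ segment ℝ x (K.l 0) := by
      rw [segment_eq_Icc hx.2]
      exact ⟨hxy, hy.2⟩
    have := h.vg.le_max_of_mem_segment (⟨hx.1, hx.2.trans h4⟩ : x ∈ Icc 0 K.h) (⟨hl.le, h4⟩ : K.l 0 ∈ Icc 0 K.h) hy'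
    rwa [h6, max_eq_left (h2 x ⟨hx.1, hx.2.trans h4⟩)] at this
  exact ⟨ha, fun y hy => ⟨h2 y ⟨hy.1, hy.2.trans h4⟩, ha ⟨le_rfl, hl.le⟩ hy hy.1⟩⟩

private theorem ind_int {a b c : ℝ} (f : ℝ → ℝ) (hac : a ≤ c) (hcb : c ≤ b) :
    (∫ y in Ioc a b, if y < c then f y else 0) = ∫ y in a..c, f y := by
  have e1 : (fun y => if y < c then f y else 0) = (Iio c).indicator f := by
    funext y
    by_cases hy : y < c
    · rw [if_pos hy, indicator_of_mem (show y ∈ Iio c from hy)]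
    · rw [if_neg hy, indicator_of_notMem (show y ∉ Iio c from hy)]
  rw [e1, setIntegral_indicator measurableSet_Iio, intervalIntegral.integral_of_le hac, integral_Ioc_eq_integral_Ioo]
  congr 2
  ext y
  exact ⟨fun hy => ⟨hy.1.1, hy.2⟩, fun hy => ⟨⟨hy.1, hy.2.le.trans hcb⟩, hy.2⟩⟩

/-- The arc lemma. -/
theorem near_arc (K : Bd) (h : K.Ok) (hg : 0 < K.g 0) (hl : 0 < K.l 0) {A A' B B' : ℝ → ℝ}
    (dA : ∀ t, HasDerivAt A (A' t) t) (dB : ∀ t, HasDerivAt B (B' t) t) (cA : Continuous A') (cB : Continuous B')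
    {x : ℝ} (hx : x ∈ Icc 0 (K.g 0)) :
    (∫ t in x..(K.g 0), A' t * B (K.l t)) - (∫ y in (0:ℝ)..(K.l x), A (K.g y) * B' y) = A (K.g 0) * B 0 - A x * B (K.l x) := by
  obtain ⟨hla, hlm⟩ := near_l K h hg
  obtain ⟨hga, hgm⟩ := near_g K h hl
  obtain ⟨h1, h2, h3, h4, h5, h6⟩ := near_facts K h
  have cA0 : Continuous A := continuous_iff_continuousAt.mpr fun t => (dA t).continuousAt
  have cB0 : Continuous B := continuous_iff_continuousAt.mpr fun t => (dB t).continuousAt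
  have hcl := h.cl
  have hcg := h.cg
  set z := K.g 0 with hz
  have hlx := hlm x hx
  -- `g y` lies between `x` and `z`
  have hgy : ∀ y ∈ Ioc 0 (K.l x), K.g y ∈ Icc x z := by
    intro y hy
    refine ⟨?_, (hgm y ⟨hy.1.le, hy.2.trans hlx.2⟩).2⟩
    have hcl2 : IsClosed {y' : ℝ | x ≤ K.g y'} := isClosed_le continuous_const hcg
    have hsub : Ioo 0 y ⊆ {y' : ℝ | x ≤ K.g y'} := by
      intro y' hy'
      have : x < K.g y' := (near_iff K h hg hl hx ⟨hy'.1.le, (hy'.2.le.trans hy.2).trans hlx.2⟩).1 (lt_of_lt_of_le hy'.2 hy.2)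
      exact this.le
    have hmem : y ∈ closure (Ioo 0 y) := by
      rw [closure_Ioo hy.1.ne]
      exact ⟨hy.1.le, le_rfl⟩
    exact closure_minimal hsub hcl2 hmem
  -- Fubini
  set F : ℝ → ℝ → ℝ := fun t y => if y < K.l t then A' t * B' y else 0 with hF
  have hint : Integrable (Function.uncurry F) ((volume.restrict (Ioc x z)).prod (volume.restrict (Ioc 0 (K.l x)))) := by
    have e1 : Function.uncurry F = {p : ℝ × ℝ | p.2 < K.l p.1}.indicator (fun p => A' p.1 * B' p.2) := by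
      funext p
      by_cases hp : p.2 < K.l p.1
      · rw [indicator_of_mem (show p ∈ {p : ℝ × ℝ | p.2 < K.l p.1} from hp)]
        simp only [hF, Function.uncurry, if_pos hp]
      · rw [indicator_of_notMem (show p ∉ {p : ℝ × ℝ | p.2 < K.l p.1} from hp)]
        simp only [hF, Function.uncurry, if_neg hp]
    rw [e1]
    have hm : MeasurableSet {p : ℝ × ℝ | p.2 < K.l p.1} :=
      (isOpen_lt continuous_snd (hcl.comp continuous_fst)).measurableSet
    have i1 : Integrable A' (volume.restrict (Ioc x z)) := (cA.continuousOn.integrableOn_Icc (a := x) (b := z)).mono_set Ioc_subset_Icc_self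
    have i2 : Integrable B' (volume.restrict (Ioc 0 (K.l x))) :=
      (cB.continuousOn.integrableOn_Icc (a := 0) (b := K.l x)).mono_set Ioc_subset_Icc_self
    exact (i1.mul_prod i2).indicator hm
  have hsw := integral_integral_swap hint
  have e1 : (∫ t in Ioc x z, ∫ y in Ioc 0 (K.l x), F t y) = ∫ t in x..z, A' t * (B (K.l t) - B 0) := by
    rw [intervalIntegral.integral_of_le hx.2]
    refine setIntegral_congr_fun measurableSet_Ioc fun t ht => ?_
    have ht' : t ∈ Icc 0 z := ⟨hx.1.trans ht.1.le, ht.2⟩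
    have e2 := ind_int (a := 0) (b := K.l x) (c := K.l t) (fun y => A' t * B' y) (hlm t ht').1 (hla hx ht' ht.1.le)
    simp only [hF]
    rw [e2, intervalIntegral.integral_const_mul, intervalIntegral.integral_eq_sub_of_hasDerivAt (fun y _ => dB y) (cB.intervalIntegrable _ _)]
  have e2 : (∫ y in Ioc 0 (K.l x), ∫ t in Ioc x z, F t y) = ∫ y in (0:ℝ)..(K.l x), (A (K.g y) - A x) * B' y := by
    rw [intervalIntegral.integral_of_le hlx.1]
    refine setIntegral_congr_fun measurableSet_Ioc fun y hy => ?_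
    have hy' : y ∈ Icc 0 (K.l 0) := ⟨hy.1.le, hy.2.trans hlx.2⟩
    have e3 : (∫ t in Ioc x z, F t y) = ∫ t in Ioc x z, if t < K.g y then A' t * B' y else 0 := by
      refine setIntegral_congr_fun measurableSet_Ioc fun t ht => ?_
      have ht' : t ∈ Icc 0 z := ⟨hx.1.trans ht.1.le, ht.2⟩
      have := near_iff K h hg hl ht' hy'
      simp only [hF]
      by_cases hc : y < K.l t
      · rw [if_pos hc, if_pos (this.1 hc)]
      · rw [if_neg hc, if_neg (fun hc2 => hc (this.2 hc2))]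
    have e4 := ind_int (a := x) (b := z) (c := K.g y) (fun t => A' t * B' y) (hgy y hy).1 (hgy y hy).2
    rw [e3, e4, intervalIntegral.integral_mul_const, intervalIntegral.integral_eq_sub_of_hasDerivAt (fun t _ => dA t) (cA.intervalIntegrable _ _)]
  rw [e1, e2] at hsw
  have e3 : (∫ t in x..z, A' t * (B (K.l t) - B 0)) = (∫ t in x..z, A' t * B (K.l t)) - (A z - A x) * B 0 := by
    have i1 : IntervalIntegrable (fun t => A' t * B (K.l t)) volume x z := Continuous.intervalIntegrable (by fun_prop) _ _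
    have i2 : IntervalIntegrable (fun t => A' t * B 0) volume x z := Continuous.intervalIntegrable (by fun_prop) _ _
    rw [← intervalIntegral.integral_eq_sub_of_hasDerivAt (fun t _ => dA t) (cA.intervalIntegrable x z),
      ← intervalIntegral.integral_mul_const, ← intervalIntegral.integral_sub i1 i2]
    congr 1
    funext t
    ring
  have e4 : (∫ y in (0:ℝ)..(K.l x), (A (K.g y) - A x) * B' y) = (∫ y in (0:ℝ)..(K.l x), A (K.g y) * B' y) - A x * (B (K.l x) - B 0) := by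
    have i1 : IntervalIntegrable (fun y => A (K.g y) * B' y) volume 0 (K.l x) := Continuous.intervalIntegrable (by fun_prop) _ _
    have i2 : IntervalIntegrable (fun y => A x * B' y) volume 0 (K.l x) := Continuous.intervalIntegrable (by fun_prop) _ _
    rw [← intervalIntegral.integral_eq_sub_of_hasDerivAt (fun t _ => dB t) (cB.intervalIntegrable 0 (K.l x)),
      ← intervalIntegral.integral_const_mul, ← intervalIntegral.integral_sub i1 i2]
    congr 1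
    funext t
    ring
  rw [e3, e4] at hsw
  linarith

end Pool.Agent.Lib.MP_1dedaf_gt.DK
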