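import Pool.Agent.Lib.MP_1dedaf_gt.Mg.G041
import Pool.Agent.Lib.MP_1dedaf_gt.DK.EP.MONO
import Pool.Agent.Lib.MP_1dedaf_gt.Mg.G015
import Pool.Agent.Lib.MP_1dedaf_gt.Mg.G003

/-!
# TASK DK EP VW2: a positive response bounds the pivot; the kernel is constant along an edge

`vw_phi_le`. `Phi z = Phi w + ∫_z^w (a - Xl)/rl` (definition of `Phi`, `Xi`), `Phi w ≤ 0` (`hO`), `Xl` is monotone (`rl > 0`), so `(a - Xl x)/rl x ≤ (a - Xl z)/rl x` on `[z, w]`.
`jq_const`. On `[x1, x2]` the function `l` is affine of slope `k`: the function `x ↦ K.j x k` has derivative `0` on the open interval (`Fl_deriv`, `Xi_deriv` of MONO: `Fl' = -1 - (p + q k) Fl`, `Phi' = - Fl`, so `(x + Fl - (p + q k) Phi)' = 1 - 1 - (p+qk) Fl + (p + q k) Fl = 0`) and is continuous, so it is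
constant on the closed interval (`constant_of_has_deriv_right_zero` or `is_const_of_deriv_eq_zero`-type lemma on `Icc`; see the proof of `al_t` in MONO). `qE_const`: `qE z k x = Lam z k - al k x`; `Lam z k = M (1/(D rl z) + (p+qk)(Ri z / D - q))`
and `(1/rl + (p + q k) Ri)' = -(p+qk)/rl + (p+qk)/rl = 0` along the edge.
`shr_qE`: `K.shr k e` (NGoals) has `p' = p + q k`, `rl' = exp(-q e) rl`, `ru' = exp(-q e) ru`, `Xl' = exp(-q e) Xl`, `Xu' = exp (-q e) Xu`, `mu' = exp(-q e) mu`, `M' = exp(-q e) M`, `N' i = exp(-q e)^(i-1) N i`, so `a' = exp(-q e) a`, `D' = exp(q e) D`, `Ri' = exp(q e) Ri`; `qE' z 0 x = exp(-q e) qE z k x`. (See N0.lean, `N0_shr`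
and its lemmas for the model.) `et_qE`: `K.et z` (NDefs) is `qE z 0 0 / q` by definition (`Xl 0 = 0`).
-/

set_option autoImplicit false

open MeasureTheory Set Filter Topology

namespace Pool.Agent.Lib.MP_1dedaf_gt.DK

theorem vw_phi_le (hO : OPU) (K : Dat) (h : K.Cx) {z : ℝ} (hz : z ∈ Icc 0 K.w) :
    K.Phi z ≤ (K.a - K.Xl z) * ∫ x in z..K.w, 1 / K.rl x := by
  have hcl := h.cl
  have hF := Fl_cont K hcl
  have hr : Continuous fun x => 1 / K.rl x := continuous_const.div (K.rl_cont hcl) fun x => (K.rl_pos x).ne'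
  have e1 : K.Xi K.w - K.Xi z = ∫ x in z..K.w, K.Fl x := by
    unfold Dat.Xi Dat.Fl
    unfold Dat.Fl at hF
    exact intervalIntegral.integral_interval_sub_left (hF.intervalIntegrable _ _) (hF.intervalIntegrable _ _)
  have h1 := hO K h
  unfold Dat.Phi at h1 ⊢
  rw [← intervalIntegral.integral_const_mul]
  have h2 : (∫ x in z..K.w, K.Fl x) ≤ ∫ x in z..K.w, (K.a - K.Xl z) * (1 / K.rl x) := by
    refine intervalIntegral.integral_mono_on hz.2 (hF.intervalIntegrable _ _)
      ((continuous_const.mul hr).intervalIntegrable _ _) fun x hx => ?_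
    have h3 : K.Xl z ≤ K.Xl x := by
      have h4 : K.Xl x - K.Xl z = ∫ t in z..x, K.rl t := by
        unfold Dat.Xl
        exact intervalIntegral.integral_interval_sub_left ((K.rl_cont hcl).intervalIntegrable _ _)
          ((K.rl_cont hcl).intervalIntegrable _ _)
      have h5 : 0 ≤ ∫ t in z..x, K.rl t :=
        intervalIntegral.integral_nonneg hx.1 fun t _ => (K.rl_pos t).le
      linarith
    have h6 := K.rl_pos x
    unfold Dat.Fl
    rw [mul_one_div]
    exact div_le_div_of_nonneg_right (by linarith) h6.le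
  linarith

theorem jq_const (K : Dat) (h : K.Reg) {x1 x2 k : ℝ} (h12 : x1 ≤ x2) (hl : ∀ x ∈ Icc x1 x2, K.l x = K.l x2 + k * (x - x2)) :
    K.j x1 k = K.j x2 k ∧ ∀ x, K.qE x1 k x = K.qE x2 k x := by
  rcases h12.eq_or_lt with h1 | h1
  · subst h1
    exact ⟨rfl, fun _ => rfl⟩
  have hcl := h.cl
  have hD := (K.D_pos h).ne'
  have c1 : Continuous fun x => x + K.Fl x - (K.p + K.q * k) * K.Phi x := by
    have h2 := Fl_cont K hcl
    have h3 := Xi_cont K hcl
    unfold Dat.Phi
    fun_prop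
  obtain ⟨c, hc, e1⟩ := exists_hasDerivAt_eq_slope (fun x => x + K.Fl x - (K.p + K.q * k) * K.Phi x) (fun _ => 0) h1
    c1.continuousOn fun x hx => by
      have h2 := l_deriv K hl hx
      have h3 := ((hasDerivAt_id x).add (Fl_deriv K hcl h2)).sub
        (((Xi_deriv K hcl x).const_sub K.psi).const_mul (K.p + K.q * k))
      refine h3.congr_deriv ?_
      ring
  have c2 : Continuous fun x => 1 / (K.D * K.rl x) + (K.p + K.q * k) * (K.Ri x / K.D - K.q) := by
    have h2 := Ri_cont K hcl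
    have h3 : Continuous fun x => 1 / (K.D * K.rl x) :=
      continuous_const.div (continuous_const.mul (K.rl_cont hcl)) fun x => mul_ne_zero hD (K.rl_pos x).ne'
    fun_prop
  obtain ⟨c', hc', e2⟩ := exists_hasDerivAt_eq_slope
    (fun x => 1 / (K.D * K.rl x) + (K.p + K.q * k) * (K.Ri x / K.D - K.q)) (fun _ => 0) h1
    c2.continuousOn fun x hx => by
      have h2 := l_deriv K hl hx
      have h0 := (K.rl_pos x).ne'
      have h3 := ((hasDerivAt_const x (1:ℝ)).div ((rl_deriv K h2).const_mul K.D) (mul_ne_zero hD h0)).add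
        ((((Ri_deriv K hcl x).div_const K.D).sub_const K.q).const_mul (K.p + K.q * k))
      refine h3.congr_deriv ?_
      field_simp
      ring
  have hx : x2 - x1 ≠ 0 := by linarith
  have e3 : x2 + K.Fl x2 - (K.p + K.q * k) * K.Phi x2 = x1 + K.Fl x1 - (K.p + K.q * k) * K.Phi x1 := by
    have := (div_eq_zero_iff.1 e1.symm).resolve_right hx
    linarith
  have e4 : 1 / (K.D * K.rl x2) + (K.p + K.q * k) * (K.Ri x2 / K.D - K.q) =
      1 / (K.D * K.rl x1) + (K.p + K.q * k) * (K.Ri x1 / K.D - K.q) := by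
    have := (div_eq_zero_iff.1 e2.symm).resolve_right hx
    linarith
  refine ⟨?_, fun x => ?_⟩
  · unfold Dat.Fl at e3
    unfold Dat.j
    congr 1
    linarith
  · unfold Dat.qE Dat.Lam
    rw [e4]

private theorem VW2_shr (K : Dat) (k c : ℝ) :
    (∀ x, (K.shr k c).rl x = Real.exp (-(K.q * c)) * K.rl x) ∧ (K.shr k c).M = Real.exp (-(K.q * c)) * K.M ∧
    (K.shr k c).D = K.D / Real.exp (-(K.q * c)) ∧ (∀ x, (K.shr k c).Ri x = K.Ri x / Real.exp (-(K.q * c))) ∧
    (K.shr k c).a = Real.exp (-(K.q * c)) * K.a ∧ ∀ x, (K.shr k c).Xl x = Real.exp (-(K.q * c)) * K.Xl x := by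
  set e := Real.exp (-(K.q * c)) with he
  have he0 : e ≠ 0 := (Real.exp_pos _).ne'
  have rl' : ∀ x, (K.shr k c).rl x = e * K.rl x := by
    intro x
    change Real.exp ((K.p + K.q * k) * x + K.q * (K.l x - (k * x + c))) =
      Real.exp (-(K.q * c)) * Real.exp (K.p * x + K.q * K.l x)
    rw [← Real.exp_add]
    congr 1
    ring
  have ru' : ∀ x, (K.shr k c).ru x = e * K.ru x := by
    intro x
    change Real.exp ((K.p + K.q * k) * x + K.q * (K.u x - (k * x + c))) =
      Real.exp (-(K.q * c)) * Real.exp (K.p * x + K.q * K.u x)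
    rw [← Real.exp_add]
    congr 1
    ring
  have Xl' : ∀ x, (K.shr k c).Xl x = e * K.Xl x := by
    intro x
    unfold Dat.Xl
    rw [← intervalIntegral.integral_const_mul]
    exact intervalIntegral.integral_congr fun t _ => rl' t
  have mu' : ∀ x, (K.shr k c).mu x = e * K.mu x := by
    intro x
    unfold Dat.mu
    rw [rl', ru']
    change (e * K.ru x - e * K.rl x) / K.q = _
    ring
  have mr' : ∀ x, (K.shr k c).mr x = e * K.mr x := by
    intro x
    unfold Dat.mr
    rw [← intervalIntegral.integral_const_mul]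
    exact intervalIntegral.integral_congr fun t _ => mu' t
  have M' : (K.shr k c).M = e * K.M := by
    unfold Dat.M
    rw [← intervalIntegral.integral_const_mul]
    exact intervalIntegral.integral_congr fun t _ => mu' t
  have Xu' : ∀ x, (K.shr k c).Xu x = e * K.Xu x := by
    intro x
    unfold Dat.Xu
    rw [Xl', mr']
    change e * K.Xl x - K.q * (e * K.mr x) = _
    ring
  have N' : ∀ i : ℕ, (K.shr k c).N i = e ^ i / e * K.N i := by
    intro i
    unfold Dat.N
    rw [← intervalIntegral.integral_const_mul]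
    refine intervalIntegral.integral_congr fun t _ => ?_
    change (K.shr k c).Xl t ^ i / (K.shr k c).rl t - (K.shr k c).Xu t ^ i / (K.shr k c).ru t =
      e ^ i / e * (K.Xl t ^ i / K.rl t - K.Xu t ^ i / K.ru t)
    rw [Xl', Xu', rl', ru', mul_pow, mul_pow, mul_div_mul_comm, mul_div_mul_comm]
    ring
  have a' : (K.shr k c).a = e * K.a := by
    unfold Dat.a
    rw [N', N']
    rw [pow_zero, pow_one]
    rw [div_self he0, one_mul]
    by_cases h0 : K.N 0 = 0
    · rw [h0]; simp
    · field_simp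
  have D' : (K.shr k c).D = K.D / e := by
    unfold Dat.D
    rw [N', pow_zero]
    change 1 / e * K.N 0 / K.q = K.N 0 / K.q / e
    ring
  have Ri' : ∀ x, (K.shr k c).Ri x = K.Ri x / e := by
    intro x
    unfold Dat.Ri
    rw [← intervalIntegral.integral_div]
    refine intervalIntegral.integral_congr fun t _ => ?_
    change 1 / (K.shr k c).rl t = 1 / K.rl t / e
    rw [rl', div_div, mul_comm]
  exact ⟨rl', M', D', Ri', a', Xl'⟩

theorem shr_qE (K : Dat) (h : K.Reg) (k e z x : ℝ) : (K.shr k e).qE z 0 x = Real.exp (-(K.q * e)) * K.qE z k x := by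
  have he0 : Real.exp (-(K.q * e)) ≠ 0 := (Real.exp_pos _).ne'
  obtain ⟨r1, r2, r3, r4, r5, r6⟩ := VW2_shr K k e
  unfold Dat.qE Dat.Lam Dat.al
  rw [r1, r1, r2, r3, r4, r5, r6]
  change Real.exp (-(K.q * e)) * K.M * (1 / (K.D / Real.exp (-(K.q * e)) * (Real.exp (-(K.q * e)) * K.rl z)) +
      (K.p + K.q * k + K.q * 0) * (K.Ri z / Real.exp (-(K.q * e)) / (K.D / Real.exp (-(K.q * e))) - K.q)) -
      (Real.exp (-(K.q * e)) * K.rl x + (K.p + K.q * k + K.q * 0) *
        (Real.exp (-(K.q * e)) * K.a - Real.exp (-(K.q * e)) * K.Xl x)) = _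
  generalize Real.exp (-(K.q * e)) = E at he0
  have h1 : K.D / E * (E * K.rl z) = K.D * K.rl z := by field_simp
  have h2 : K.Ri z / E / (K.D / E) = K.Ri z / K.D := by
    rw [div_div_div_cancel_right₀ he0]
  rw [h1, h2]
  ring

theorem et_qE (K : Dat) (h : K.Reg) (z : ℝ) : K.et z = K.qE z 0 0 / K.q := by
  unfold Dat.et Dat.qE Dat.Lam Dat.al
  rw [K.Xl_zero]
  have hD := (K.D_pos h).ne'
  have h0 := (K.rl_pos z).ne'
  congr 1
  change K.M / K.D * (1 / K.rl z + K.p * K.Ri z) - K.rl 0 - K.p * K.a - K.p * K.q * K.M = _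
  generalize K.Ri z = R
  generalize K.rl 0 = r0
  field_simp
  ring

end Pool.Agent.Lib.MP_1dedaf_gt.DK
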