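import Pool.Agent.Lib.MP_1dedaf_gt.Mg.G039
import Pool.Agent.Lib.MP_1dedaf_gt.DK.EP.VW2
import Pool.Agent.Lib.MP_1dedaf_gt.DK.A3
import Pool.Agent.Lib.MP_1dedaf_gt.DK.N0

/-!
# TASK DK EP VW3: the pivot of `t` in the other view, uniform in the tilt

`es_unif`. Fix `K`, `T`, `z`, `kt`. `t x := K.l z + kt * (x - z)`, `e0 := K.l z - kt * z` (so `t x = kt * x + e0`), `H` a bound of `|K.u x - t x|` on `[0, w]` (continuity, compactness). Take
`C := exp |q e0| * ((H + 1) * exp (|q| (H + 1) + (|p| + 1 + |q kt|) w))`. Let `p'` be as in the statement, `K1 := ⟨p', q, w, l, u⟩`, `p1 := p' + q kt ≠ 0`.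
(1) `K1.shr kt e0 = ⟨p1, q, w, l - t, u - t⟩` (rfl up to `ring`-free unfolding; `Dat.shr` in NGoals). It satisfies the hypotheses of `exists_bd` (A3): `0 ≤ l - t` on `[0, w]` (`hA.sup`), `= 0` at `z`, convexity/concavity (minus an affine function), continuity, `fat` from `h.fat`. So there is `B : Bd`, `B.Ok`, `B.col = K1.shr kt e0`.
(2) `0 < B.l 0`: otherwise `K.l 0 = t 0` (`≥` by `sup`); then `K1.Arc ∅ 0 kt` holds: `sup` at `0` is `l 0 + kt x = t x ≤ l x`, `cov` only at `x = 0`; `K1.Cx` is `h` with another `p` (all fields are the same); so `0 ≤ K1.j 0 kt` by `hP` (`card ∅ = 0 ≤ k`). On `[0, z]`: `l = t` (`≥` by `sup`, `≤` by convexity, since `l = t` at both ends), so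
`K1.j 0 kt = K1.j z kt` (`jq_const` on `[0, z]`), contradicting `hj`.
(3) `0 < B.g 0 =: z0 ≤ z`: `0 ≤ g 0` and if `g 0 = 0` then `(0, 0)` belongs to the body (`iff`, `gr`: the point `(g 0, 0)`), so `B.l 0 ≤ 0`. `(z, 0)` belongs to the body (`l z - t z = 0`, `lu`), so `g 0 ≤ z`. `l = t` at `z0` (`(z0, 0)` belongs to the body and `l ≥ t`) and at `z`, hence on `[z0, z]` (convexity).
By `jq_const` on `[z0, z]` (applied to `K1`): `K1.j z0 kt = K1.j z kt`, `K1.qE z0 kt 0 = K1.qE z kt 0`. `B.col.j z0 0 = K1.j z0 kt` (`j_shr`).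
(4) `hS B`: `B.row.j (B.l 0) 0 = B.col.j z0 0 = K1.j z kt < 0`, `B.col.et z0 = B.row.a - B.row.Xl (B.l 0) =: E`.
(5) `B.col.Arc T1 z0 0` with `T1 := T.image (fun e => (e.1 - kt, e.2 - e0))`: `z0`, `zw` clear, `sup`: `B.l z0 = 0 ≤ B.l x`; `sl`, `le` from `hA` (`[0, z0] ⊆ [0, z]`); `cov` from `hA.cov`: `l x = t x` gives `B.l x = 0 = B.l z0 + 0 * (x - z0)`, `l x = e.1 x + e.2` gives the line of `T1`. `T1.card ≤ T.card ≤ k + 1`. `near_row` gives `e' ∈ T1`, `e'.1 < 0`, i.e. `e ∈ T`,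
`e.1 - kt < 0`, and `T'`, `card ≤ k`, with `B.row.Arc T' (B.l 0) (1 / (e.1 - kt))`. By `hP`, `row_cx`: `0 ≤ B.row.j (B.l 0) (1/(e.1 - kt)) = B.row.j (B.l 0) 0 - (1/(e.1 - kt)) * B.row.Phi (B.l 0)` (`j_step`, `B.row.q = B.p = p1 ≠ 0`). Multiply by `kt - e.1 > 0`: `(kt - e.1) (- K1.j z kt) ≤ B.row.Phi (B.l 0)`.
(6) `vw_phi_le` for `B.row`: `B.row.Phi (B.l 0) ≤ E * I`, `I = ∫ y in (B.l 0)..B.h, 1 / B.row.rl y`, `0 ≤ I`. The left side is `> 0`, so `E > 0`. `I ≤ (H + 1) * exp (|q| (H + 1) + (|p| + 1 + |q kt|) w)`: `B.h ≤ H` (the point `(g h, h)` belongs to the body, so `h ≤ u x - t x ≤ H`), on `[B.l 0, B.h] ⊆ [0, H]` `1 / B.row.rl y = exp (-(q y + p1 g y))`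
with `|q y + p1 g y| ≤ |q| H + |p1| w` (`0 ≤ g y ≤ w` by `iff`) and `|p1| ≤ |p| + 1 + |q kt|`.
(7) `E = B.col.et z0 = B.col.qE z0 0 0 / q` (`et_qE`) `= exp (-(q e0)) * K1.qE z0 kt 0 / q` (`shr_qE`) `= exp (-(q e0)) * (K1.qE z kt 0 / q)`, so `K1.qE z kt 0 / q > 0` and `E ≤ exp |q e0| * (K1.qE z kt 0 / q)`. Together: the claim.
-/

set_option autoImplicit false

open MeasureTheory Set Filter Topology

namespace Pool.Agent.Lib.MP_1dedaf_gt.DK

theorem es_unif (k : ℕ) (hP : PosK k) (hO : OPU) (hS : SYM) (K : Dat) (h : K.Cx) (T : Finset (ℝ × ℝ)) (z kt : ℝ) (hT : T.card ≤ k + 1)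
    (hA : K.Arc T z kt) :
    ∃ C : ℝ, 0 < C ∧ ∀ p' : ℝ, |p' - K.p| ≤ 1 → p' + K.q * kt ≠ 0 → (⟨p', K.q, K.w, K.l, K.u⟩ : Dat).j z kt < 0 →
      ∃ e ∈ T, e.1 < kt ∧ (kt - e.1) * (- (⟨p', K.q, K.w, K.l, K.u⟩ : Dat).j z kt) ≤ (⟨p', K.q, K.w, K.l, K.u⟩ : Dat).qE z kt 0 / K.q * C := by
  classical
  obtain ⟨H, hH⟩ := (isCompact_Icc (a := (0:ℝ)) (b := K.w)).exists_bound_of_continuousOn
    (f := fun x => K.u x - (kt * x + (K.l z - kt * z)))
    ((h.cu.sub (by fun_prop)).continuousOn)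
  set e0 : ℝ := K.l z - kt * z with he0
  have hw : 0 < K.w := h.hw
  have hH0 : 0 ≤ H := (norm_nonneg _).trans (hH 0 ⟨le_refl _, hw.le⟩)
  refine ⟨Real.exp |K.q * e0| * ((H + 1) * Real.exp (|K.q| * (H + 1) + (|K.p| + 1 + |K.q * kt|) * K.w)), by positivity, ?_⟩
  intro p' hp' hne hj
  set K1 : Dat := ⟨p', K.q, K.w, K.l, K.u⟩ with hK1
  have hR1 : K1.Reg := ⟨h.hq, h.hw, h.cl, h.cu, h.lu, h.fat⟩
  have hC1 : K1.Cx := ⟨hR1, h.vl, h.vu⟩
  have hcave : ConcaveOn ℝ (Icc 0 K.w) (fun t : ℝ => kt * t + e0) := by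
    refine ⟨convex_Icc 0 K.w, fun x _ y _ a b _ _ hab => ?_⟩
    simp only [smul_eq_mul]
    have h1 : a * (kt * x + e0) + b * (kt * y + e0) = kt * (a * x + b * y) + (a + b) * e0 := by ring
    rw [h1, hab, one_mul]
  have hvex : ConvexOn ℝ (Icc 0 K.w) (fun t : ℝ => kt * t + e0) := by
    refine ⟨convex_Icc 0 K.w, fun x _ y _ a b _ _ hab => ?_⟩
    simp only [smul_eq_mul]
    have h1 : a * (kt * x + e0) + b * (kt * y + e0) = kt * (a * x + b * y) + (a + b) * e0 := by ring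
    rw [h1, hab, one_mul]
  have hz : z ∈ Icc 0 K.w := ⟨hA.z0, hA.zw⟩
  have hsup : ∀ x ∈ Icc 0 K.w, 0 ≤ K.l x - (kt * x + e0) := by
    intro x hx
    have h1 := hA.sup x hx
    rw [he0]
    linarith
  obtain ⟨B, hB, hcol, -⟩ := exists_bd (p' + K.q * kt) K.q K.w (fun t => K.l t - (kt * t + e0)) (fun t => K.u t - (kt * t + e0)) hne h.hq hw
    (h.cl.sub (by fun_prop)) (h.cu.sub (by fun_prop)) (h.vl.sub hcave) (h.vu.sub hvex)
    (fun x hx => by have := h.lu x hx; show K.l x - (kt * x + e0) ≤ K.u x - (kt * x + e0); linarith)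
    (by obtain ⟨x, hx, h1⟩ := h.fat; exact ⟨x, hx, by show K.l x - (kt * x + e0) < K.u x - (kt * x + e0); linarith⟩)
    hsup ⟨z, hz, by show K.l z - (kt * z + e0) = 0; rw [he0]; ring⟩
  have hcs : B.col = K1.shr kt e0 := hcol
  have hBp : B.p = p' + K.q * kt := congrArg Dat.p hcs
  have hBq : B.q = K.q := congrArg Dat.q hcs
  have hBw : B.w = K.w := congrArg Dat.w hcs
  have hBl : ∀ x, B.l x = K.l x - (kt * x + e0) := fun x => congrFun (congrArg Dat.l hcs) x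
  have hBu : ∀ x, B.u x = K.u x - (kt * x + e0) := fun x => congrFun (congrArg Dat.u hcs) x
  have hmg : ∀ y ∈ Icc 0 B.h, 0 ≤ B.g y ∧ B.g y ≤ B.w ∧ B.l (B.g y) ≤ y ∧ y ≤ B.u (B.g y) := fun y hy =>
    (hB.iff (B.g y) y).2 ⟨hy.1, hy.2, le_refl _, hB.gr y hy⟩
  have hml : ∀ x ∈ Icc 0 B.w, 0 ≤ B.l x ∧ B.l x ≤ B.h ∧ B.g (B.l x) ≤ x ∧ x ≤ B.r (B.l x) := fun x hx =>
    (hB.iff x (B.l x)).1 ⟨hx.1, hx.2, le_refl _, hB.lu x hx⟩
  have h0h : (0 : ℝ) ∈ Icc 0 B.h := ⟨le_refl _, hB.hh.le⟩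
  have h0w : (0 : ℝ) ∈ Icc 0 B.w := ⟨le_refl _, hB.hw.le⟩
  have hBlz : B.l z = 0 := by
    rw [hBl, he0]
    ring
  have hzB : z ∈ Icc 0 B.w := by
    rw [hBw]
    exact hz
  have hconst : ∀ x1 : ℝ, 0 ≤ x1 → x1 ≤ z → B.l x1 = 0 → K1.j x1 kt = K1.j z kt ∧ ∀ x, K1.qE x1 kt x = K1.qE z kt x := by
    intro x1 h1 h2 h3
    refine jq_const K1 hR1 h2 ?_
    intro x hx
    have hx1 : x1 ∈ Icc 0 B.w := ⟨h1, h2.trans hzB.2⟩
    have h4 := hB.vl.le_max_of_mem_Icc hx1 hzB hx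
    rw [h3, hBlz, max_self] at h4
    have h5 := (hml x ⟨h1.trans hx.1, hx.2.trans hzB.2⟩).1
    have h6 : B.l x = 0 := le_antisymm h4 h5
    rw [hBl] at h6
    show K.l x = K.l z + kt * (x - z)
    rw [he0] at h6
    linarith
  have hl0 : 0 < B.l 0 := by
    rcases lt_or_eq_of_le (hml 0 h0w).1 with h1 | h1
    · exact h1
    · exfalso
      have h2 := hconst 0 (le_refl _) hz.1 h1.symm
      have h3 : K1.Arc ∅ 0 kt := by
        refine
          { z0 := le_refl _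
            zw := hw.le
            sup := ?_
            sl := fun e he => absurd he (Finset.notMem_empty e)
            le := fun e he => absurd he (Finset.notMem_empty e)
            cov := ?_ }
        · intro x hx
          show K.l 0 + kt * (x - 0) ≤ K.l x
          have h4 := hsup x hx
          have h5 : K.l 0 - (kt * 0 + e0) = 0 := by
            rw [← hBl]
            exact h1.symm
          linarith
        · intro x hx
          left
          have h4 : x = 0 := le_antisymm hx.2 hx.1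
          rw [h4]
          ring
      have h4 := hP K1 ∅ 0 kt hC1 (by simp) h3
      rw [h2.1] at h4
      exact absurd hj (not_lt.2 h4)
  have hg0 := hmg 0 h0h
  have hlg : B.l (B.g 0) = 0 := le_antisymm hg0.2.2.1 (hml _ ⟨hg0.1, hg0.2.1⟩).1
  have hgp : 0 < B.g 0 := by
    rcases lt_or_eq_of_le hg0.1 with h1 | h1
    · exact h1
    · exfalso
      rw [← h1] at hlg
      exact hl0.ne' hlg
  have hgz : B.g 0 ≤ z := by
    have h1 := (hml z hzB).2.2.1
    rw [hBlz] at h1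
    exact h1
  obtain ⟨hj1, hq1⟩ := hconst (B.g 0) hg0.1 hgz hlg
  have hcj : B.col.j (B.g 0) 0 = K1.j z kt := by
    rw [hcs, j_shr K1 h.hq, hj1]
  obtain ⟨hS1, hS2⟩ := hS B hB hgp hl0
  have hrj : B.row.j (B.l 0) 0 = K1.j z kt := by
    rw [← hS1, hcj]
  have harc : B.col.Arc (T.image (fun e => (e.1 - kt, e.2 - e0))) (B.g 0) 0 := by
    refine
      { z0 := hg0.1
        zw := hg0.2.1
        sup := ?_
        sl := ?_
        le := ?_
        cov := ?_ }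
    · intro x hx
      show B.l (B.g 0) + 0 * (x - B.g 0) ≤ B.l x
      have h1 := (hml x hx).1
      rw [hlg]
      linarith
    · intro e' he'
      rw [Finset.mem_image] at he'
      obtain ⟨e, he, h1⟩ := he'
      rw [← h1]
      show e.1 - kt ≤ 0
      have := hA.sl e he
      linarith
    · intro e' he' x hx
      rw [Finset.mem_image] at he'
      obtain ⟨e, he, h1⟩ := he'
      rw [← h1]
      show (e.1 - kt) * x + (e.2 - e0) ≤ B.l x
      have h2 := hA.le e he x ⟨hx.1, hx.2.trans hgz⟩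
      rw [hBl]
      linarith
    · intro x hx
      show B.l x = B.l (B.g 0) + 0 * (x - B.g 0) ∨ ∃ e ∈ T.image (fun e => (e.1 - kt, e.2 - e0)), B.l x = e.1 * x + e.2
      rcases hA.cov x ⟨hx.1, hx.2.trans hgz⟩ with h1 | ⟨e, he, h1⟩
      · left
        rw [hlg, hBl, h1, he0]
        ring
      · right
        refine ⟨(e.1 - kt, e.2 - e0), Finset.mem_image.2 ⟨e, he, rfl⟩, ?_⟩
        show B.l x = (e.1 - kt) * x + (e.2 - e0)
        rw [hBl, h1]
        ring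
  obtain ⟨e', he', hneg, T', hT', harc'⟩ := near_row k B hB hgp hl0 _ (Finset.card_image_le.trans hT) harc
  rw [Finset.mem_image] at he'
  obtain ⟨e, he, hee⟩ := he'
  have he1 : e'.1 = e.1 - kt := by rw [← hee]
  rw [he1] at hneg harc'
  have hcx := row_cx B hB
  have hpos := hP B.row T' (B.l 0) (1 / (e.1 - kt)) hcx hT' harc'
  rw [j_step B.row hcx.hq (B.l 0) 0 (1 / (e.1 - kt)), hrj, sub_zero] at hpos
  have hphi1 : (kt - e.1) * (- K1.j z kt) ≤ B.row.Phi (B.l 0) := by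
    have h1 : 0 < kt - e.1 := by linarith
    have h2 := mul_nonneg h1.le hpos
    have h3 : (kt - e.1) * (K1.j z kt - 1 / (e.1 - kt) * B.row.Phi (B.l 0)) = (kt - e.1) * K1.j z kt + B.row.Phi (B.l 0) := by
      have h4 : e.1 - kt ≠ 0 := hneg.ne
      field_simp
      ring
    rw [h3] at h2
    linarith
  have hlI : B.l 0 ∈ Icc 0 B.row.w := ⟨hl0.le, (hml 0 h0w).2.1⟩
  have hphi2 := vw_phi_le hO B.row hcx hlI
  set E : ℝ := B.row.a - B.row.Xl (B.l 0) with hE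
  set I : ℝ := ∫ x in (B.l 0)..B.row.w, 1 / B.row.rl x with hI
  have hI0 : 0 ≤ I := by
    rw [hI]
    refine intervalIntegral.integral_nonneg hlI.2 fun x _ => ?_
    exact (one_div_pos.2 (B.row.rl_pos x)).le
  have hhH : B.h ≤ H := by
    have h1 := hmg B.h ⟨hB.hh.le, le_refl _⟩
    have h2 := hH (B.g B.h) ⟨h1.1, by rw [← hBw]; exact h1.2.1⟩
    have h3 := (le_abs_self _).trans h2
    have h4 := h1.2.2.2
    rw [hBu] at h4
    exact h4.trans h3
  have hI1 : I ≤ (H + 1) * Real.exp (|K.q| * (H + 1) + (|K.p| + 1 + |K.q * kt|) * K.w) := by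
    have h1 : ‖I‖ ≤ Real.exp (|K.q| * (H + 1) + (|K.p| + 1 + |K.q * kt|) * K.w) * |B.row.w - B.l 0| := by
      rw [hI]
      refine intervalIntegral.norm_integral_le_of_norm_le_const fun y hy => ?_
      rw [uIoc_of_le hlI.2] at hy
      have hyh : y ∈ Icc 0 B.h := ⟨hl0.le.trans hy.1.le, hy.2⟩
      have hgy := hmg y hyh
      rw [Real.norm_eq_abs, abs_of_pos (one_div_pos.2 (B.row.rl_pos y))]
      have h2 : 1 / B.row.rl y = Real.exp (-(B.q * y + B.p * B.g y)) := by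
        rw [Real.exp_neg, one_div]
        rfl
      rw [h2]
      refine Real.exp_le_exp.2 ?_
      rw [hBq, hBp]
      have h3 : -(K.q * y) ≤ |K.q| * (H + 1) := by
        have h4 : -K.q * y ≤ |K.q| * y := mul_le_mul_of_nonneg_right (neg_le_abs _) hyh.1
        have h5 : |K.q| * y ≤ |K.q| * (H + 1) := mul_le_mul_of_nonneg_left (by linarith [hyh.2]) (abs_nonneg _)
        linarith
      have h6 : |p' + K.q * kt| ≤ |K.p| + 1 + |K.q * kt| := by
        have h7 : p' + K.q * kt = (p' - K.p) + K.p + K.q * kt := by ring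
        rw [h7]
        refine (abs_add_le _ _).trans (add_le_add ((abs_add_le _ _).trans ?_) (le_refl _))
        linarith
      have h8 : -((p' + K.q * kt) * B.g y) ≤ (|K.p| + 1 + |K.q * kt|) * K.w := by
        have h4 : -(p' + K.q * kt) * B.g y ≤ |p' + K.q * kt| * B.g y := mul_le_mul_of_nonneg_right (neg_le_abs _) hgy.1
        have h5 : |p' + K.q * kt| * B.g y ≤ (|K.p| + 1 + |K.q * kt|) * K.w := by
          refine mul_le_mul h6 ?_ hgy.1 ((abs_nonneg _).trans h6)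
          rw [← hBw]
          exact hgy.2.1
        linarith
      linarith
    have h2 : |B.row.w - B.l 0| ≤ H + 1 := by
      have h3 : B.row.w = B.h := rfl
      rw [h3, abs_of_nonneg (by linarith [hlI.2])]
      linarith
    have h3 : I ≤ ‖I‖ := le_abs_self _
    refine h3.trans (h1.trans ?_)
    rw [mul_comm]
    exact mul_le_mul_of_nonneg_right h2 (Real.exp_pos _).le
  have hleft : 0 < (kt - e.1) * (- K1.j z kt) := mul_pos (by linarith) (by linarith)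
  have hEI : 0 < E * I := hleft.trans_le (hphi1.trans hphi2)
  have hEpos : 0 < E := by
    by_contra h1
    exact absurd hEI (not_lt.2 (mul_nonpos_of_nonpos_of_nonneg (not_lt.1 h1) hI0))
  have hEq : E = Real.exp (-(K.q * e0)) * (K1.qE z kt 0 / K.q) := by
    rw [← hS2, hcs]
    have hRs : (K1.shr kt e0).Reg := by
      rw [← hcs]
      exact ⟨hB.hq, hB.hw, hB.cl, hB.cu, hB.lu, hB.fat⟩
    rw [et_qE _ hRs, shr_qE K1 hR1, hq1 0]
    show Real.exp (-(K.q * e0)) * K1.qE z kt 0 / K.q = _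
    rw [mul_div_assoc]
  have hQ : 0 < K1.qE z kt 0 / K.q := by
    rw [hEq] at hEpos
    exact (mul_pos_iff_of_pos_left (Real.exp_pos _)).1 hEpos
  have hEle : E ≤ Real.exp |K.q * e0| * (K1.qE z kt 0 / K.q) := by
    rw [hEq]
    exact mul_le_mul_of_nonneg_right (Real.exp_le_exp.2 (neg_le_abs _)) hQ.le
  refine ⟨e, he, by linarith, ?_⟩
  refine hphi1.trans (hphi2.trans ?_)
  calc E * I ≤ (Real.exp |K.q * e0| * (K1.qE z kt 0 / K.q)) * ((H + 1) * Real.exp (|K.q| * (H + 1) + (|K.p| + 1 + |K.q * kt|) * K.w)) :=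
        mul_le_mul hEle hI1 hI0 (by positivity)
    _ = K1.qE z kt 0 / K.q * (Real.exp |K.q * e0| * ((H + 1) * Real.exp (|K.q| * (H + 1) + (|K.p| + 1 + |K.q * kt|) * K.w))) := by ring

end Pool.Agent.Lib.MP_1dedaf_gt.DK
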